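import Pool.Agent.H23P.Deg
import Pool.Agent.H23L.Main

/-!
Approximation of Boolean functions by polynomials of low degree over the field with `p` elements
(Razborov, Smolensky).
-/

namespace Pool.Agent.H23P

open Finset Pool.Agent.H23L

noncomputable section

open scoped Classical

variable (p : ℕ) [Fact p.Prime]

theorem zmod_pow (a : ZMod p) : a ^ (p - 1) = if a = 0 then 0 else 1 := by
  have hp := (Fact.out : p.Prime).two_le
  by_cases h : a = 0
  · rw [if_pos h, h, zero_pow (by omega)]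
  · rw [if_neg h, ZMod.pow_card_sub_one_eq_one h]

theorem card_kernel {I : Type} [Fintype I] (v : I → ZMod p) (i0 : I) (h : v i0 ≠ 0) :
    (univ.filter fun a : I → ZMod p => ∑ i, a i * v i = 0).card * p ≤
      Fintype.card (I → ZMod p) := by
  have h1 := Sys.count_fiber (I := I) (X := ZMod p) (fun a => ∑ i, a i * v i = 0) i0 p ?_
  · rw [Fintype.card_fun]
    convert h1
  · intro a0
    rw [ZMod.card]
    have : (univ.filter fun z => ∑ i, Function.update a0 i0 z i * v i = 0).card ≤ 1 := by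
      rw [Finset.card_le_one]
      intro z hz z' hz'
      simp only [mem_filter, mem_univ, true_and] at hz hz'
      have e : ∀ z : ZMod p, ∑ i, Function.update a0 i0 z i * v i =
          z * v i0 + ∑ i ∈ univ.erase i0, a0 i * v i := by
        intro z
        rw [← Finset.add_sum_erase _ _ (mem_univ i0), Function.update_self]
        congr 1
        refine Finset.sum_congr rfl fun i hi => ?_
        rw [Function.update_of_ne (Finset.ne_of_mem_erase hi)]
      rw [e] at hz hz'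
      have h2 : z * v i0 = z' * v i0 := by
        have := hz.trans hz'.symm
        exact add_right_cancel this
      exact mul_right_cancel₀ h h2
    calc _ ≤ 1 * p := Nat.mul_le_mul_right _ this
      _ = p := one_mul p

theorem exists_comb {I Q : Type} [Fintype I] (v : Q → I → ZMod p) (B : Finset Q)
    (hB : ∀ q ∈ B, ∃ i, v q i ≠ 0) : ∃ a : I → ZMod p,
      2 * (B.filter fun q => ∑ i, a i * v q i = 0).card ≤ B.card := by
  have hp := (Fact.out : p.Prime).two_le
  have h1 : ∑ a : I → ZMod p, p * (B.filter fun q => ∑ i, a i * v q i = 0).card ≤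
      ∑ _a : I → ZMod p, B.card := by
    calc ∑ a : I → ZMod p, p * (B.filter fun q => ∑ i, a i * v q i = 0).card
        = p * ∑ a : I → ZMod p, ∑ q ∈ B, if ∑ i, a i * v q i = 0 then 1 else 0 := by
          rw [Finset.mul_sum]
          refine Finset.sum_congr rfl fun a _ => ?_
          rw [Finset.card_filter]
      _ = p * ∑ q ∈ B, (univ.filter fun a : I → ZMod p => ∑ i, a i * v q i = 0).card := by
          rw [Finset.sum_comm]
          congr 1
          refine Finset.sum_congr rfl fun q _ => ?_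
          rw [Finset.card_filter]
      _ = ∑ q ∈ B, (univ.filter fun a : I → ZMod p => ∑ i, a i * v q i = 0).card * p := by
          rw [Finset.mul_sum]
          exact Finset.sum_congr rfl fun q _ => mul_comm _ _
      _ ≤ ∑ _q ∈ B, Fintype.card (I → ZMod p) := by
          refine Finset.sum_le_sum fun q hq => ?_
          obtain ⟨i0, hi0⟩ := hB q hq
          exact card_kernel p (v q) i0 hi0
      _ = ∑ _a : I → ZMod p, B.card := by
          simp [mul_comm]
  obtain ⟨a, -, ha⟩ := Finset.exists_le_of_sum_le (univ_nonempty) h1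
  exact ⟨a, (Nat.mul_le_mul_right _ hp).trans ha⟩

variable {ι : Type} [Fintype ι] [DecidableEq ι]

theorem or_step {I : Type} [Fintype I] {d : ℕ} (g : I → (ι → Bool) → ZMod p)
    (hg : ∀ i, g i ∈ PD (ι := ι) p d) (t : ℕ) : ∃ G ∈ PD (ι := ι) p (t * ((p - 1) * d)),
      (∀ q, (∀ i, g i q = 0) → G q = 0) ∧ (∀ q, G q = 0 ∨ G q = 1) ∧
      (univ.filter fun q => (∃ i, g i q ≠ 0) ∧ G q ≠ 1).card * 2 ^ t ≤
        2 ^ Fintype.card ι := by
  have hp := (Fact.out : p.Prime).two_le
  induction t with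
  | zero =>
    refine ⟨0, Submodule.zero_mem _, fun _ _ => rfl, fun _ => Or.inl rfl, ?_⟩
    rw [pow_zero, mul_one]
    exact (Finset.card_le_univ _).trans (by simp)
  | succ t ih =>
    obtain ⟨G, hG, h0, h01, hc⟩ := ih
    obtain ⟨a, ha⟩ := exists_comb p (fun q i => g i q)
      (univ.filter fun q => (∃ i, g i q ≠ 0) ∧ G q ≠ 1) (fun q hq => (Finset.mem_filter.1 hq).2.1)
    let L : (ι → Bool) → ZMod p := fun q => ∑ i, a i * g i q
    have hL : L ∈ PD (ι := ι) p d := by
      have : L = ∑ i, a i • g i := by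
        funext q; simp [L, Finset.sum_apply]
      rw [this]
      exact Submodule.sum_mem _ fun i _ => Submodule.smul_mem _ _ (hg i)
    have hL' := pow_mem' hL (p - 1)
    refine ⟨1 - (1 - G) * (1 - L ^ (p - 1)), ?_, ?_, ?_, ?_⟩
    · refine Submodule.sub_mem _ (one_mem' _) ?_
      have := mul_mem (Submodule.sub_mem _ (one_mem' _) hG) (Submodule.sub_mem _ (one_mem' _) hL')
      rw [Nat.succ_mul]
      exact this
    · intro q hq
      have e1 : L q = 0 := by simp [L, hq]
      simp only [Pi.sub_apply, Pi.one_apply, Pi.mul_apply, Pi.pow_apply, h0 q hq, e1, zmod_pow,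
        if_true]
      ring
    · intro q
      simp only [Pi.sub_apply, Pi.one_apply, Pi.mul_apply, Pi.pow_apply, zmod_pow]
      rcases h01 q with h | h <;> rw [h] <;> split_ifs <;> simp
    · have hsub : (univ.filter fun q => (∃ i, g i q ≠ 0) ∧
          (1 - (1 - G) * (1 - L ^ (p - 1))) q ≠ 1) ⊆
          (univ.filter fun q => (∃ i, g i q ≠ 0) ∧ G q ≠ 1).filter
            fun q => ∑ i, a i * g i q = 0 := by
        intro q hq
        simp only [mem_filter, mem_univ, true_and] at hq ⊢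
        obtain ⟨h1, h2⟩ := hq
        simp only [Pi.sub_apply, Pi.one_apply, Pi.mul_apply, Pi.pow_apply, zmod_pow] at h2
        refine ⟨⟨h1, fun h3 => h2 (by rw [h3]; ring)⟩, ?_⟩
        by_contra h3
        apply h2
        have : L q ≠ 0 := h3
        rw [if_neg this]
        ring
      have h1 := Finset.card_le_card hsub
      calc _ ≤ ((univ.filter fun q => (∃ i, g i q ≠ 0) ∧ G q ≠ 1).filter
            fun q => ∑ i, a i * g i q = 0).card * 2 ^ (t + 1) := Nat.mul_le_mul_right _ h1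
        _ = (2 * ((univ.filter fun q => (∃ i, g i q ≠ 0) ∧ G q ≠ 1).filter
            fun q => ∑ i, a i * g i q = 0).card) * 2 ^ t := by ring
        _ ≤ (univ.filter fun q => (∃ i, g i q ≠ 0) ∧ G q ≠ 1).card * 2 ^ t :=
            Nat.mul_le_mul_right _ ha
        _ ≤ _ := hc

/-- The truth value of a proposition, as an element of the field. -/
def bt (p : ℕ) (P : Prop) : ZMod p := @ite _ P (Classical.propDecidable P) 1 0

variable {p} in
theorem bt_pos {P : Prop} (h : P) : bt p P = 1 := if_pos h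
variable {p} in
theorem bt_neg {P : Prop} (h : ¬ P) : bt p P = 0 := if_neg h

/-- `f` is approximated by polynomials: for every `e` there is one of degree at most
`(D (e+1) σ) ^ D` with error at most `2 ^ (- e σ)`. -/
def Apx (σ D : ℕ) (f : (Fin (2 ^ σ) → Bool) → Prop) : Prop :=
  ∀ e : ℕ, ∃ g ∈ PD (ι := Fin (2 ^ σ)) p ((D * (e + 1) * σ) ^ D),
    (univ.filter fun q => g q ≠ bt p (f q)).card * 2 ^ (e * σ) ≤ 2 ^ 2 ^ σ

variable {p} {σ D c : ℕ}

theorem pow_mono_aux {D D' e σ : ℕ} (hσ : 1 ≤ σ) (h : D ≤ D') :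
    (D * (e + 1) * σ) ^ D ≤ (D' * (e + 1) * σ) ^ D' := by
  rcases Nat.eq_zero_or_pos D' with h0 | h0
  · have : D = 0 := by omega
    subst this; subst h0; exact le_rfl
  · have h1 : 1 ≤ D' * (e + 1) * σ := Nat.mul_pos (Nat.mul_pos h0 (Nat.succ_pos e)) hσ
    calc (D * (e + 1) * σ) ^ D ≤ (D' * (e + 1) * σ) ^ D := by gcongr
      _ ≤ (D' * (e + 1) * σ) ^ D' := Nat.pow_le_pow_right h1 h

theorem Apx.mono {D' : ℕ} {f : (Fin (2 ^ σ) → Bool) → Prop} (hσ : 1 ≤ σ) (h : Apx p σ D f)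
    (hD : D ≤ D') : Apx p σ D' f := by
  intro e
  obtain ⟨g, hg, hc⟩ := h e
  exact ⟨g, PD_mono (pow_mono_aux hσ hD) hg, hc⟩

theorem Apx.congr {f f' : (Fin (2 ^ σ) → Bool) → Prop} (h : Apx p σ D f) (e : ∀ q, f q ↔ f' q) :
    Apx p σ D f' := by
  have : f = f' := funext fun q => propext (e q)
  rwa [← this]

theorem Apx.const (P : Prop) : Apx p σ D fun _ => P := by
  intro e
  refine ⟨fun _ => bt p P, const_mem _ _, ?_⟩
  simp

theorem Apx.lit (i : Fin (2 ^ σ)) (hσ : 1 ≤ σ) (hD : 1 ≤ D) :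
    Apx p σ D fun q => q i = true := by
  intro e
  refine ⟨H23P.lit i, PD_mono ?_ (lit_mem i), ?_⟩
  · exact Nat.one_le_pow _ _ (Nat.mul_pos (Nat.mul_pos hD (Nat.succ_pos e)) hσ)
  · have : (univ.filter fun q : Fin (2 ^ σ) → Bool =>
        (H23P.lit i : (Fin (2 ^ σ) → Bool) → ZMod p) q ≠ bt p (q i = true)) = ∅ := by
      ext q
      simp only [mem_filter, mem_univ, true_and, notMem_empty, iff_false, not_not]
      by_cases h : q i = true
      · rw [bt_pos h]; simp [H23P.lit, h]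
      · rw [bt_neg h]; simp [H23P.lit, h]
    rw [this]; simp

theorem Apx.not {f : (Fin (2 ^ σ) → Bool) → Prop} (h : Apx p σ D f) :
    Apx p σ D fun q => ¬ f q := by
  intro e
  obtain ⟨g, hg, hc⟩ := h e
  refine ⟨1 - g, Submodule.sub_mem _ (one_mem' _) hg, le_trans (Nat.mul_le_mul_right _ ?_) hc⟩
  refine Finset.card_le_card fun q hq => ?_
  simp only [mem_filter, mem_univ, true_and, Pi.sub_apply, Pi.one_apply] at hq ⊢
  intro h2
  apply hq
  rw [h2]
  by_cases hf : f q
  · rw [bt_pos hf, bt_neg (not_not.2 hf)]; ring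
  · rw [bt_neg hf, bt_pos hf]; ring

/-- The constant for a disjunction of `2 ^ (c σ)` functions. -/
def oD (p c D : ℕ) : ℕ := 2 * D + p + c + 4

theorem le_oD (p c D : ℕ) : D ≤ oD p c D := by unfold oD; omega

theorem deg_aux (p c D e σ : ℕ) (hσ : 1 ≤ σ) :
    (e + 1) * σ * ((p - 1) * (D * (e + c + 1 + 1) * σ) ^ D) ≤
      (oD p c D * (e + 1) * σ) ^ oD p c D := by
  set u := (e + 1) * σ with hu
  have hu1 : 1 ≤ u := Nat.mul_pos (Nat.succ_pos e) hσ
  have h1 : D * (e + c + 1 + 1) * σ ≤ D * (c + 2) * u := by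
    have : e + c + 1 + 1 ≤ (c + 2) * (e + 1) := by nlinarith
    calc D * (e + c + 1 + 1) * σ ≤ D * ((c + 2) * (e + 1)) * σ := by gcongr
      _ = D * (c + 2) * u := by rw [hu]; ring
  have hD' : 1 ≤ oD p c D := by unfold oD; omega
  calc u * ((p - 1) * (D * (e + c + 1 + 1) * σ) ^ D)
      ≤ u * (p * (D * (c + 2) * u) ^ D) := by
        gcongr
        exact Nat.sub_le p 1
    _ = (p * D ^ D * (c + 2) ^ D) * u ^ (D + 1) := by
        rw [mul_pow, mul_pow, pow_succ]; ring
    _ ≤ (oD p c D * oD p c D ^ D * oD p c D ^ D) * u ^ (D + 1) := by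
        have a1 : p ≤ oD p c D := by unfold oD; omega
        have a2 : D ≤ oD p c D := by unfold oD; omega
        have a3 : c + 2 ≤ oD p c D := by unfold oD; omega
        gcongr
    _ = oD p c D ^ (2 * D + 1) * u ^ (D + 1) := by ring
    _ ≤ oD p c D ^ oD p c D * u ^ oD p c D := by
        refine Nat.mul_le_mul (Nat.pow_le_pow_right hD' ?_) (Nat.pow_le_pow_right hu1 ?_)
        · unfold oD; omega
        · unfold oD; omega
    _ = (oD p c D * (e + 1) * σ) ^ oD p c D := by
        rw [← mul_pow, hu]; ring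

theorem err_aux {N T eσ cσ σ A B : ℕ} (hσ : 1 ≤ σ) (h1 : A * 2 ^ (eσ + cσ + σ) ≤ 2 ^ cσ * N)
    (h2 : B * 2 ^ (eσ + σ) ≤ N) (hT : T ≤ A + B) : T * 2 ^ eσ ≤ N := by
  have h3 : A * 2 ^ (eσ + σ) ≤ N := by
    have : 2 ^ cσ * (A * 2 ^ (eσ + σ)) ≤ 2 ^ cσ * N := by
      calc 2 ^ cσ * (A * 2 ^ (eσ + σ)) = A * 2 ^ (eσ + cσ + σ) := by
            rw [show eσ + cσ + σ = cσ + (eσ + σ) by ring, pow_add 2 cσ]; ring
        _ ≤ _ := h1
    exact Nat.le_of_mul_le_mul_left this (by positivity)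
  have h4 : 2 ≤ 2 ^ σ := by
    calc 2 = 2 ^ 1 := rfl
      _ ≤ 2 ^ σ := Nat.pow_le_pow_right (by norm_num) hσ
  have h5 : T * 2 ^ eσ * 2 ≤ N * 2 := by
    calc T * 2 ^ eσ * 2 ≤ (A + B) * 2 ^ eσ * 2 ^ σ := by gcongr
      _ = A * 2 ^ (eσ + σ) + B * 2 ^ (eσ + σ) := by rw [pow_add]; ring
      _ ≤ N + N := Nat.add_le_add h3 h2
      _ = N * 2 := by ring
  omega

theorem Apx.ex {I : Type} [Fintype I] (hσ : 1 ≤ σ) (hI : Fintype.card I ≤ 2 ^ (c * σ))
    {f : I → (Fin (2 ^ σ) → Bool) → Prop} (h : ∀ i, Apx p σ D (f i)) :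
    Apx p σ (oD p c D) fun q => ∃ i, f i q := by
  intro e
  choose g hg hc using fun i => h i (e + c + 1)
  obtain ⟨G, hG, h0, -, hcG⟩ := or_step p g hg ((e + 1) * σ)
  refine ⟨G, PD_mono (deg_aux p c D e σ hσ) hG, ?_⟩
  have hsub : (univ.filter fun q => G q ≠ bt p (∃ i, f i q)) ⊆
      (univ.biUnion fun i => univ.filter fun q => g i q ≠ bt p (f i q)) ∪
      (univ.filter fun q => (∃ i, g i q ≠ 0) ∧ G q ≠ 1) := by
    intro q hq
    simp only [mem_filter, mem_univ, true_and, mem_union, mem_biUnion] at hq ⊢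
    by_cases hgood : ∃ i, g i q ≠ bt p (f i q)
    · exact Or.inl hgood
    · right
      push Not at hgood
      by_cases hex : ∃ i, f i q
      · rw [bt_pos hex] at hq
        obtain ⟨i, hi⟩ := hex
        refine ⟨⟨i, ?_⟩, hq⟩
        rw [hgood i, bt_pos hi]
        exact one_ne_zero
      · exfalso
        rw [bt_neg hex] at hq
        push Not at hex
        apply hq
        apply h0
        intro i
        rw [hgood i, bt_neg (hex i)]
  have hcard := (Finset.card_le_card hsub).trans (Finset.card_union_le _ _)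
  have hA : (univ.biUnion fun i => univ.filter fun q => g i q ≠ bt p (f i q)).card *
      2 ^ (e * σ + c * σ + σ) ≤ 2 ^ (c * σ) * 2 ^ 2 ^ σ := by
    calc _ ≤ (∑ i, (univ.filter fun q => g i q ≠ bt p (f i q)).card) *
          2 ^ (e * σ + c * σ + σ) := Nat.mul_le_mul_right _ Finset.card_biUnion_le
      _ = ∑ i, (univ.filter fun q => g i q ≠ bt p (f i q)).card *
          2 ^ ((e + c + 1) * σ) := by
          rw [Finset.sum_mul]
          refine Finset.sum_congr rfl fun i _ => ?_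
          congr 2; ring
      _ ≤ ∑ _i : I, 2 ^ 2 ^ σ := Finset.sum_le_sum fun i _ => hc i
      _ = Fintype.card I * 2 ^ 2 ^ σ := by simp
      _ ≤ _ := Nat.mul_le_mul_right _ hI
  have hB : (univ.filter fun q => (∃ i, g i q ≠ 0) ∧ G q ≠ 1).card * 2 ^ (e * σ + σ) ≤
      2 ^ 2 ^ σ := by
    rw [Fintype.card_fin] at hcG
    rw [show e * σ + σ = (e + 1) * σ by ring]
    exact hcG
  exact err_aux hσ hA hB hcard

theorem Apx.all {I : Type} [Fintype I] (hσ : 1 ≤ σ) (hI : Fintype.card I ≤ 2 ^ (c * σ))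
    {f : I → (Fin (2 ^ σ) → Bool) → Prop} (h : ∀ i, Apx p σ D (f i)) :
    Apx p σ (oD p c D) fun q => ∀ i, f i q :=
  (Apx.ex hσ hI fun i => (h i).not).not.congr fun q => by push Not; exact Iff.rfl

theorem two_le_pow {c σ : ℕ} (hσ : 1 ≤ σ) (hc : 1 ≤ c) : 2 ≤ 2 ^ (c * σ) := by
  calc 2 = 2 ^ 1 := rfl
    _ ≤ 2 ^ (c * σ) := Nat.pow_le_pow_right (by norm_num) (Nat.mul_pos hc hσ)

theorem Apx.or {f f' : (Fin (2 ^ σ) → Bool) → Prop} (hσ : 1 ≤ σ) (h : Apx p σ D f)
    (h' : Apx p σ D f') : Apx p σ (oD p 1 D) fun q => f q ∨ f' q := by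
  have := Apx.ex (I := Bool) (c := 1) (f := fun b => if b then f else f') hσ
    (by simpa using two_le_pow hσ (le_refl 1)) (fun b => by cases b <;> simpa)
  refine this.congr fun q => ?_
  constructor
  · rintro ⟨b, hb⟩
    cases b
    · exact Or.inr (by simpa using hb)
    · exact Or.inl (by simpa using hb)
  · rintro (h | h)
    · exact ⟨true, by simpa using h⟩
    · exact ⟨false, by simpa using h⟩

theorem Apx.and {f f' : (Fin (2 ^ σ) → Bool) → Prop} (hσ : 1 ≤ σ) (h : Apx p σ D f)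
    (h' : Apx p σ D f') : Apx p σ (oD p 1 D) fun q => f q ∧ f' q :=
  (Apx.or hσ h.not h'.not).not.congr fun q => by tauto

theorem Apx.imp {f f' : (Fin (2 ^ σ) → Bool) → Prop} (hσ : 1 ≤ σ) (h : Apx p σ D f)
    (h' : Apx p σ D f') : Apx p σ (oD p 1 D) fun q => f q → f' q :=
  (Apx.or hσ h.not h').congr fun q => by tauto

theorem card_fin_le {B c σ : ℕ} (hσ : 1 ≤ σ) (hB : B ≤ 2 ^ (c * σ)) :
    Fintype.card (Fin (B + 1)) ≤ 2 ^ ((c + 1) * σ) := by
  rw [Fintype.card_fin]
  have h1 : 1 ≤ 2 ^ (c * σ) := Nat.one_le_two_pow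
  have h2 : 2 ≤ 2 ^ (1 * σ) := two_le_pow hσ le_rfl
  calc B + 1 ≤ 2 ^ (c * σ) * 2 := by omega
    _ ≤ 2 ^ (c * σ) * 2 ^ (1 * σ) := Nat.mul_le_mul_left _ h2
    _ = 2 ^ ((c + 1) * σ) := by rw [← pow_add]; congr 1; ring

theorem Apx.ex_le {B : ℕ} (hσ : 1 ≤ σ) (hB : B ≤ 2 ^ (c * σ))
    {f : ℕ → (Fin (2 ^ σ) → Bool) → Prop} (h : ∀ a ≤ B, Apx p σ D (f a)) :
    Apx p σ (oD p (c + 1) D) fun q => ∃ a ≤ B, f a q := by
  refine (Apx.ex (I := Fin (B + 1)) (f := fun i => f i) hσ (card_fin_le hσ hB)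
    (fun i => h i (Nat.lt_succ_iff.1 i.2))).congr fun q => ?_
  constructor
  · rintro ⟨i, hi⟩
    exact ⟨i, Nat.lt_succ_iff.1 i.2, hi⟩
  · rintro ⟨a, ha, h⟩
    exact ⟨⟨a, Nat.lt_succ_iff.2 ha⟩, h⟩

theorem Apx.all_le {B : ℕ} (hσ : 1 ≤ σ) (hB : B ≤ 2 ^ (c * σ))
    {f : ℕ → (Fin (2 ^ σ) → Bool) → Prop} (h : ∀ a ≤ B, Apx p σ D (f a)) :
    Apx p σ (oD p (c + 1) D) fun q => ∀ a ≤ B, f a q :=
  (Apx.ex_le hσ hB fun a ha => (h a ha).not).not.congr fun q => by push Not; exact Iff.rfl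

/-- Counting modulo `p`. -/
theorem Apx.modp {I : Type} [Fintype I] (hσ : 1 ≤ σ) (hI : Fintype.card I ≤ 2 ^ (c * σ))
    {f : I → (Fin (2 ^ σ) → Bool) → Prop} (h : ∀ i, Apx p σ D (f i)) {r : ℕ} (hr : r < p) :
    Apx p σ (oD p c D) fun q => (univ.filter fun i => f i q).card % p = r := by
  have hp := (Fact.out : p.Prime).two_le
  intro e
  choose g hg hc using fun i => h i (e + c + 1)
  let S : (Fin (2 ^ σ) → Bool) → ZMod p := ∑ i, g i
  have hS : S ∈ PD (ι := Fin (2 ^ σ)) p ((D * (e + c + 1 + 1) * σ) ^ D) :=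
    Submodule.sum_mem _ fun i _ => hg i
  have hS' := pow_mem' (Submodule.sub_mem _ hS (const_mem (r : ZMod p) _)) (p - 1)
  refine ⟨1 - (S - fun _ => (r : ZMod p)) ^ (p - 1), PD_mono ?_
    (Submodule.sub_mem _ (one_mem' _) hS'), ?_⟩
  · refine le_trans ?_ (deg_aux p c D e σ hσ)
    have : 1 ≤ (e + 1) * σ := Nat.mul_pos (Nat.succ_pos e) hσ
    calc (p - 1) * (D * (e + c + 1 + 1) * σ) ^ D
        = 1 * ((p - 1) * (D * (e + c + 1 + 1) * σ) ^ D) := (one_mul _).symm
      _ ≤ _ := Nat.mul_le_mul_right _ this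
  have hsub : (univ.filter fun q => (1 - (S - fun _ => (r : ZMod p)) ^ (p - 1) :
      (Fin (2 ^ σ) → Bool) → ZMod p) q ≠ bt p ((univ.filter fun i => f i q).card % p = r)) ⊆
      (univ.biUnion fun i => univ.filter fun q => g i q ≠ bt p (f i q)) := by
    intro q hq
    simp only [mem_filter, mem_univ, true_and, mem_biUnion] at hq ⊢
    by_contra hgood
    push Not at hgood
    apply hq
    have h1 : S q = ((univ.filter fun i => f i q).card : ZMod p) := by
      simp only [S, Finset.sum_apply]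
      rw [Finset.sum_congr rfl fun i _ => hgood i]
      simp only [bt]
      rw [Finset.sum_boole]
    simp only [Pi.sub_apply, Pi.one_apply, Pi.pow_apply, zmod_pow, h1]
    have h2 : ((univ.filter fun i => f i q).card : ZMod p) - (r : ZMod p) = 0 ↔
        (univ.filter fun i => f i q).card % p = r := by
      rw [sub_eq_zero, ZMod.natCast_eq_natCast_iff', Nat.mod_eq_of_lt hr]
    by_cases h3 : (univ.filter fun i => f i q).card % p = r
    · rw [bt_pos h3, if_pos (h2.2 h3)]; ring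
    · rw [bt_neg h3, if_neg (fun h => h3 (h2.1 h))]; ring
  have hA : (univ.biUnion fun i => univ.filter fun q => g i q ≠ bt p (f i q)).card *
      2 ^ (e * σ + c * σ + σ) ≤ 2 ^ (c * σ) * 2 ^ 2 ^ σ := by
    calc _ ≤ (∑ i, (univ.filter fun q => g i q ≠ bt p (f i q)).card) *
          2 ^ (e * σ + c * σ + σ) := Nat.mul_le_mul_right _ Finset.card_biUnion_le
      _ = ∑ i, (univ.filter fun q => g i q ≠ bt p (f i q)).card *
          2 ^ ((e + c + 1) * σ) := by
          rw [Finset.sum_mul]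
          refine Finset.sum_congr rfl fun i _ => ?_
          congr 2; ring
      _ ≤ ∑ _i : I, 2 ^ 2 ^ σ := Finset.sum_le_sum fun i _ => hc i
      _ = Fintype.card I * 2 ^ 2 ^ σ := by simp
      _ ≤ _ := Nat.mul_le_mul_right _ hI
  exact err_aux (B := 0) hσ hA (by simp) ((Finset.card_le_card hsub).trans (Nat.le_add_right _ _))

end

end Pool.Agent.H23P
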