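import Pool.Agent.H23P.Lang

/-!
Basic facts on values of terms and truth of formulas.
-/

namespace Pool.Agent.H23P

open Set Filter

noncomputable section

/-- The length of a finite set. -/
def sl (X : Finset ℕ) : ℕ := X.sup fun i => i + 1

theorem lt_sl {X : Finset ℕ} {i : ℕ} (h : i ∈ X) : i < sl X := by
  have := Finset.le_sup (f := fun i => i + 1) h
  exact this

theorem sl_le {X : Finset ℕ} {n : ℕ} (h : ∀ i ∈ X, i < n) : sl X ≤ n :=
  Finset.sup_le fun i hi => h i hi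

theorem sl_le_iff {X : Finset ℕ} {n : ℕ} : sl X ≤ n ↔ ∀ i ∈ X, i < n :=
  ⟨fun h _ hi => (lt_sl hi).trans_le h, sl_le⟩

/-- Relations. -/
abbrev RelS := ℕ → List ℕ → List (Finset ℕ) → Prop

/-- Truth in the standard structure. -/
abbrev SatN (P : RelS) (v : ℕ → ℕ) (w : ℕ → Finset ℕ) (φ : Fm) : Prop := Sat (std P) v w φ

/-- Values in the standard structure. -/
abbrev valN (P : RelS) (v : ℕ → ℕ) (w : ℕ → Finset ℕ) (t : NTm) : ℕ := t.val (std P) v w

variable (P : RelS)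

@[simp] theorem valN_var (v : ℕ → ℕ) (w : ℕ → Finset ℕ) (i : ℕ) : valN P v w (.var i) = v i := rfl
@[simp] theorem valN_zero (v : ℕ → ℕ) (w : ℕ → Finset ℕ) : valN P v w .zero = 0 := rfl
@[simp] theorem valN_one (v : ℕ → ℕ) (w : ℕ → Finset ℕ) : valN P v w .one = 1 := rfl
@[simp] theorem valN_add (v : ℕ → ℕ) (w : ℕ → Finset ℕ) (t u : NTm) :
    valN P v w (.add t u) = valN P v w t + valN P v w u := rfl
@[simp] theorem valN_mul (v : ℕ → ℕ) (w : ℕ → Finset ℕ) (t u : NTm) :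
    valN P v w (.mul t u) = valN P v w t * valN P v w u := rfl
@[simp] theorem valN_len (v : ℕ → ℕ) (w : ℕ → Finset ℕ) (j : ℕ) :
    valN P v w (.len j) = sl (w j) := rfl

@[simp] theorem satN_bot (v : ℕ → ℕ) (w : ℕ → Finset ℕ) : SatN P v w .bot ↔ False := Iff.rfl
@[simp] theorem satN_eq (v : ℕ → ℕ) (w : ℕ → Finset ℕ) (t u : NTm) :
    SatN P v w (.eq t u) ↔ valN P v w t = valN P v w u := Iff.rfl
@[simp] theorem satN_le (v : ℕ → ℕ) (w : ℕ → Finset ℕ) (t u : NTm) :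
    SatN P v w (.le t u) ↔ valN P v w t ≤ valN P v w u := Iff.rfl
@[simp] theorem satN_mem (v : ℕ → ℕ) (w : ℕ → Finset ℕ) (t : NTm) (j : ℕ) :
    SatN P v w (.mem t j) ↔ valN P v w t ∈ w j := Iff.rfl
@[simp] theorem satN_rel (v : ℕ → ℕ) (w : ℕ → Finset ℕ) (i : ℕ) (ts : List NTm) (Xs : List ℕ) :
    SatN P v w (.rel i ts Xs) ↔ P i (ts.map fun t => valN P v w t) (Xs.map w) := Iff.rfl
@[simp] theorem satN_imp (v : ℕ → ℕ) (w : ℕ → Finset ℕ) (φ ψ : Fm) :
    SatN P v w (.imp φ ψ) ↔ (SatN P v w φ → SatN P v w ψ) := Iff.rfl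
@[simp] theorem satN_allN (v : ℕ → ℕ) (w : ℕ → Finset ℕ) (k : ℕ) (t : NTm) (φ : Fm) :
    SatN P v w (.allN k t φ) ↔
      ∀ a : ℕ, a ≤ valN P v w t → SatN P (Function.update v k a) w φ := Iff.rfl

/-- The value of a term does not depend on the relations. -/
theorem valN_indep (P P' : RelS) (v : ℕ → ℕ) (w : ℕ → Finset ℕ) (t : NTm) :
    valN P v w t = valN P' v w t := by
  induction t with
  | var i => rfl
  | zero => rfl
  | one => rfl
  | add t u iht ihu => rw [valN_add, valN_add, iht, ihu]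
  | mul t u iht ihu => rw [valN_mul, valN_mul, iht, ihu]
  | len j => rfl

/-- Only finitely many variables matter. -/
theorem val_dep (t : NTm) : ∃ m, ∀ (M : Two) (v v' : ℕ → M.N1) (w w' : ℕ → M.N2),
    (∀ i < m, v i = v' i) → (∀ i < m, w i = w' i) → t.val M v w = t.val M v' w' := by
  induction t with
  | var i => exact ⟨i + 1, fun M v v' w w' h _ => h i (Nat.lt_succ_self i)⟩
  | zero => exact ⟨0, fun _ _ _ _ _ _ _ => rfl⟩
  | one => exact ⟨0, fun _ _ _ _ _ _ _ => rfl⟩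
  | add t u iht ihu =>
    obtain ⟨m1, h1⟩ := iht
    obtain ⟨m2, h2⟩ := ihu
    refine ⟨max m1 m2, fun M v v' w w' hv hw => ?_⟩
    simp only [NTm.val]
    rw [h1 M v v' w w' (fun i hi => hv i (lt_max_of_lt_left hi)) (fun i hi => hw i (lt_max_of_lt_left hi)),
      h2 M v v' w w' (fun i hi => hv i (lt_max_of_lt_right hi)) (fun i hi => hw i (lt_max_of_lt_right hi))]
  | mul t u iht ihu =>
    obtain ⟨m1, h1⟩ := iht
    obtain ⟨m2, h2⟩ := ihu
    refine ⟨max m1 m2, fun M v v' w w' hv hw => ?_⟩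
    simp only [NTm.val]
    rw [h1 M v v' w w' (fun i hi => hv i (lt_max_of_lt_left hi)) (fun i hi => hw i (lt_max_of_lt_left hi)),
      h2 M v v' w w' (fun i hi => hv i (lt_max_of_lt_right hi)) (fun i hi => hw i (lt_max_of_lt_right hi))]
  | len j =>
    refine ⟨j + 1, fun M v v' w w' _ hw => ?_⟩
    simp only [NTm.val]
    rw [hw j (Nat.lt_succ_self j)]

theorem update_agree {α : Type} {v v' : ℕ → α} {m k : ℕ} (h : ∀ i < m, v i = v' i) (a : α) :
    ∀ i < m, Function.update v k a i = Function.update v' k a i := by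
  intro i hi
  by_cases hk : i = k
  · subst hk; simp
  · simp [hk, h i hi]

theorem list_dep (ts : List NTm) : ∃ m, ∀ (M : Two) (v v' : ℕ → M.N1) (w w' : ℕ → M.N2),
    (∀ i < m, v i = v' i) → (∀ i < m, w i = w' i) →
      (ts.map fun t => t.val M v w) = ts.map fun t => t.val M v' w' := by
  induction ts with
  | nil => exact ⟨0, fun _ _ _ _ _ _ _ => rfl⟩
  | cons t ts ih =>
    obtain ⟨m1, h1⟩ := val_dep t
    obtain ⟨m2, h2⟩ := ih
    refine ⟨max m1 m2, fun M v v' w w' hv hw => ?_⟩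
    simp only [List.map_cons]
    rw [h1 M v v' w w' (fun i hi => hv i (lt_max_of_lt_left hi)) (fun i hi => hw i (lt_max_of_lt_left hi)),
      h2 M v v' w w' (fun i hi => hv i (lt_max_of_lt_right hi)) (fun i hi => hw i (lt_max_of_lt_right hi))]

theorem vlist_dep (Xs : List ℕ) : ∃ m, ∀ (α : Type) (w w' : ℕ → α), (∀ i < m, w i = w' i) →
    Xs.map w = Xs.map w' := by
  refine ⟨Xs.sum + 1, fun α w w' h => ?_⟩
  refine List.map_congr_left fun i hi => h i ?_
  exact Nat.lt_succ_of_le (List.single_le_sum (fun _ _ => Nat.zero_le _) i hi)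

theorem sat_dep (φ : Fm) : ∃ m, ∀ (M : Two) (v v' : ℕ → M.N1) (w w' : ℕ → M.N2),
    (∀ i < m, v i = v' i) → (∀ i < m, w i = w' i) → (Sat M v w φ ↔ Sat M v' w' φ) := by
  induction φ with
  | bot => exact ⟨0, fun _ _ _ _ _ _ _ => Iff.rfl⟩
  | eq t u =>
    obtain ⟨m1, h1⟩ := val_dep t
    obtain ⟨m2, h2⟩ := val_dep u
    refine ⟨max m1 m2, fun M v v' w w' hv hw => ?_⟩
    simp only [Sat]
    rw [h1 M v v' w w' (fun i hi => hv i (lt_max_of_lt_left hi)) (fun i hi => hw i (lt_max_of_lt_left hi)),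
      h2 M v v' w w' (fun i hi => hv i (lt_max_of_lt_right hi)) (fun i hi => hw i (lt_max_of_lt_right hi))]
  | le t u =>
    obtain ⟨m1, h1⟩ := val_dep t
    obtain ⟨m2, h2⟩ := val_dep u
    refine ⟨max m1 m2, fun M v v' w w' hv hw => ?_⟩
    simp only [Sat]
    rw [h1 M v v' w w' (fun i hi => hv i (lt_max_of_lt_left hi)) (fun i hi => hw i (lt_max_of_lt_left hi)),
      h2 M v v' w w' (fun i hi => hv i (lt_max_of_lt_right hi)) (fun i hi => hw i (lt_max_of_lt_right hi))]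
  | mem t j =>
    obtain ⟨m1, h1⟩ := val_dep t
    refine ⟨max m1 (j + 1), fun M v v' w w' hv hw => ?_⟩
    simp only [Sat]
    rw [h1 M v v' w w' (fun i hi => hv i (lt_max_of_lt_left hi)) (fun i hi => hw i (lt_max_of_lt_left hi)),
      hw j (lt_max_of_lt_right (Nat.lt_succ_self j))]
  | rel i ts Xs =>
    obtain ⟨m1, h1⟩ := list_dep ts
    obtain ⟨m2, h2⟩ := vlist_dep Xs
    refine ⟨max m1 m2, fun M v v' w w' hv hw => ?_⟩
    simp only [Sat]
    rw [h1 M v v' w w' (fun i hi => hv i (lt_max_of_lt_left hi)) (fun i hi => hw i (lt_max_of_lt_left hi)),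
      h2 M.N2 w w' (fun i hi => hw i (lt_max_of_lt_right hi))]
  | imp φ ψ ih1 ih2 =>
    obtain ⟨m1, h1⟩ := ih1
    obtain ⟨m2, h2⟩ := ih2
    refine ⟨max m1 m2, fun M v v' w w' hv hw => ?_⟩
    simp only [Sat]
    rw [h1 M v v' w w' (fun i hi => hv i (lt_max_of_lt_left hi)) (fun i hi => hw i (lt_max_of_lt_left hi)),
      h2 M v v' w w' (fun i hi => hv i (lt_max_of_lt_right hi)) (fun i hi => hw i (lt_max_of_lt_right hi))]
  | allN k t φ ih =>
    obtain ⟨m1, h1⟩ := val_dep t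
    obtain ⟨m2, h2⟩ := ih
    refine ⟨max m1 m2, fun M v v' w w' hv hw => ?_⟩
    simp only [Sat]
    rw [h1 M v v' w w' (fun i hi => hv i (lt_max_of_lt_left hi)) (fun i hi => hw i (lt_max_of_lt_left hi))]
    refine forall_congr' fun a => forall_congr' fun _ => ?_
    exact h2 M _ _ w w' (update_agree (fun i hi => hv i (lt_max_of_lt_right hi)) a)
      (fun i hi => hw i (lt_max_of_lt_right hi))
  | allS k t φ ih =>
    obtain ⟨m1, h1⟩ := val_dep t
    obtain ⟨m2, h2⟩ := ih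
    refine ⟨max m1 m2, fun M v v' w w' hv hw => ?_⟩
    simp only [Sat]
    rw [h1 M v v' w w' (fun i hi => hv i (lt_max_of_lt_left hi)) (fun i hi => hw i (lt_max_of_lt_left hi))]
    refine forall_congr' fun a => forall_congr' fun _ => ?_
    exact h2 M v v' _ _ (fun i hi => hv i (lt_max_of_lt_right hi))
      (update_agree (fun i hi => hw i (lt_max_of_lt_right hi)) a)

/-- bounds for terms. -/
theorem val_bound (t : NTm) (c : ℕ) : ∃ c', ∀ s, 1 ≤ s → ∀ (v : ℕ → ℕ) (w : ℕ → Finset ℕ),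
    (∀ i, v i ≤ 2 ^ (c * s)) → (∀ j, sl (w j) ≤ 2 ^ (c * s)) →
      valN P v w t ≤ 2 ^ (c' * s) := by
  induction t with
  | var i => exact ⟨c, fun s _ v w hv _ => hv i⟩
  | zero => exact ⟨0, fun s _ v w _ _ => by simp⟩
  | one => exact ⟨0, fun s _ v w _ _ => by simp⟩
  | add t u iht ihu =>
    obtain ⟨c1, h1⟩ := iht
    obtain ⟨c2, h2⟩ := ihu
    refine ⟨max c1 c2 + 1, fun s hs v w hv hw => ?_⟩
    have e1 : valN P v w t ≤ 2 ^ (max c1 c2 * s) := (h1 s hs v w hv hw).trans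
      (Nat.pow_le_pow_right (by norm_num) (Nat.mul_le_mul_right _ (le_max_left _ _)))
    have e2 : valN P v w u ≤ 2 ^ (max c1 c2 * s) := (h2 s hs v w hv hw).trans
      (Nat.pow_le_pow_right (by norm_num) (Nat.mul_le_mul_right _ (le_max_right _ _)))
    rw [valN_add]
    calc valN P v w t + valN P v w u ≤ 2 ^ (max c1 c2 * s) * 2 := by omega
      _ ≤ 2 ^ (max c1 c2 * s) * 2 ^ s := Nat.mul_le_mul_left _ (by
          calc 2 = 2 ^ 1 := rfl
            _ ≤ 2 ^ s := Nat.pow_le_pow_right (by norm_num) hs)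
      _ = 2 ^ ((max c1 c2 + 1) * s) := by rw [← pow_add]; congr 1; ring
  | mul t u iht ihu =>
    obtain ⟨c1, h1⟩ := iht
    obtain ⟨c2, h2⟩ := ihu
    refine ⟨c1 + c2, fun s hs v w hv hw => ?_⟩
    rw [valN_mul, add_mul, pow_add]
    exact Nat.mul_le_mul (h1 s hs v w hv hw) (h2 s hs v w hv hw)
  | len j => exact ⟨c, fun s _ v w _ hw => hw j⟩

theorem IsSB0.not {φ : Fm} (h : IsSB0 φ) : IsSB0 (.imp φ .bot) := .imp h .bot

end

end Pool.Agent.H23P
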