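import Pool.Agent.H23P.Apx
import Pool.Agent.H23P.Form

/-!
Approximation of the truth values of `Σ^B_0` formulas.
-/

namespace Pool.Agent.H23P

open Finset

noncomputable section

variable (P : RelS) {p : ℕ} [Fact p.Prime]

/-- All bits of a string-valued function are approximated. -/
def ApS (p : ℕ) [Fact p.Prime] (σ D : ℕ) (F : (Fin (2 ^ σ) → Bool) → Finset ℕ) : Prop :=
  ∀ i, Apx p σ D fun q => i ∈ F q

theorem ApS.mono {σ D D' : ℕ} {F : (Fin (2 ^ σ) → Bool) → Finset ℕ} (hσ : 1 ≤ σ)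
    (h : ApS p σ D F) (hD : D ≤ D') : ApS p σ D' F := fun i => (h i).mono hσ hD

theorem Apx.and_const {σ D : ℕ} {f : (Fin (2 ^ σ) → Bool) → Prop} (h : Apx p σ D f) (Q : Prop) :
    Apx p σ D fun q => f q ∧ Q := by
  by_cases hQ : Q
  · exact h.congr fun q => by tauto
  · exact (Apx.const False).congr fun q => by tauto

theorem Apx.const_imp {σ D : ℕ} {f : (Fin (2 ^ σ) → Bool) → Prop} (h : Apx p σ D f) (Q : Prop) :
    Apx p σ D fun q => Q → f q := by
  by_cases hQ : Q
  · exact h.congr fun q => by tauto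
  · exact (Apx.const True).congr fun q => by tauto

theorem sl_eq_iff {X : Finset ℕ} {B x : ℕ} (hB : sl X ≤ B) :
    sl X = x ↔ (x = 0 ∨ x - 1 ∈ X) ∧ ∀ i ≤ B, (x ≤ i → ¬ i ∈ X) := by
  constructor
  · rintro rfl
    refine ⟨?_, fun i _ hi hiX => absurd (lt_sl hiX) (by omega)⟩
    rcases Nat.eq_zero_or_pos (sl X) with h | h
    · exact Or.inl h
    · right
      have hne : X.Nonempty := by
        rw [Finset.nonempty_iff_ne_empty]
        rintro rfl
        simp [sl] at h
      obtain ⟨i, hi, hi2⟩ := Finset.exists_mem_eq_sup X hne fun i => i + 1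
      have : sl X = i + 1 := hi2
      rw [this, Nat.add_sub_cancel]
      exact hi
  · rintro ⟨h1, h2⟩
    apply le_antisymm
    · refine sl_le fun i hi => ?_
      by_contra hcon
      push Not at hcon
      exact h2 i ((lt_sl hi).le.trans hB) hcon hi
    · rcases h1 with rfl | h1
      · exact Nat.zero_le _
      · have := lt_sl h1
        omega

theorem ap_val (t : NTm) (b D : ℕ) : ∃ D', ∀ σ, 1 ≤ σ → ∀ (v : ℕ → ℕ)
    (E : ℕ → (Fin (2 ^ σ) → Bool) → Finset ℕ), (∀ i, v i ≤ 2 ^ (b * σ)) →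
    (∀ j q, sl (E j q) ≤ 2 ^ (b * σ)) → (∀ j, ApS p σ D (E j)) →
    ∀ x, Apx p σ D' fun q => valN P v (fun j => E j q) t = x := by
  induction t with
  | var i => exact ⟨0, fun σ _ v E _ _ _ x => Apx.const (v i = x)⟩
  | zero => exact ⟨0, fun σ _ v E _ _ _ x => Apx.const ((0 : ℕ) = x)⟩
  | one => exact ⟨0, fun σ _ v E _ _ _ x => Apx.const ((1 : ℕ) = x)⟩
  | add t u iht ihu =>
    obtain ⟨D1, h1⟩ := iht
    obtain ⟨D2, h2⟩ := ihu
    obtain ⟨c1, hc1⟩ := val_bound P t b
    refine ⟨oD p (c1 + 1) (oD p 1 (max D1 D2)), fun σ hσ v E hv hE hA x => ?_⟩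
    refine (Apx.ex_le (c := c1) (B := 2 ^ (c1 * σ)) hσ le_rfl
      (f := fun a q => valN P v (fun j => E j q) t = a ∧ (valN P v (fun j => E j q) u = x - a ∧
        a ≤ x)) fun a _ => ?_).congr fun q => ?_
    · exact Apx.and hσ ((h1 σ hσ v E hv hE hA a).mono hσ (le_max_left _ _))
        (((h2 σ hσ v E hv hE hA (x - a)).mono hσ (le_max_right _ _)).and_const _)
    · rw [valN_add]
      constructor
      · rintro ⟨a, -, ha, hb, hax⟩
        omega
      · intro h
        exact ⟨_, hc1 σ hσ v _ hv fun j => hE j q, rfl, by omega, by omega⟩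
  | mul t u iht ihu =>
    obtain ⟨D1, h1⟩ := iht
    obtain ⟨D2, h2⟩ := ihu
    obtain ⟨c1, hc1⟩ := val_bound P t b
    obtain ⟨c2, hc2⟩ := val_bound P u b
    refine ⟨oD p (c1 + 1) (oD p (c2 + 1) (oD p 1 (max D1 D2))), fun σ hσ v E hv hE hA x => ?_⟩
    refine (Apx.ex_le (c := c1) (B := 2 ^ (c1 * σ)) hσ le_rfl
      (f := fun a q => ∃ a' ≤ 2 ^ (c2 * σ), (valN P v (fun j => E j q) t = a ∧
        (valN P v (fun j => E j q) u = a' ∧ a * a' = x))) fun a _ =>
        Apx.ex_le (c := c2) (B := 2 ^ (c2 * σ)) hσ le_rfl (f := fun a' q =>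
          (valN P v (fun j => E j q) t = a ∧
          (valN P v (fun j => E j q) u = a' ∧ a * a' = x))) fun a' _ => ?_).congr fun q => ?_
    · exact Apx.and hσ ((h1 σ hσ v E hv hE hA a).mono hσ (le_max_left _ _))
        (((h2 σ hσ v E hv hE hA a').mono hσ (le_max_right _ _)).and_const _)
    · rw [valN_mul]
      constructor
      · rintro ⟨a, -, a', -, ha, hb, hax⟩
        rw [ha, hb, hax]
      · intro h
        exact ⟨_, hc1 σ hσ v _ hv (fun j => hE j q), _, hc2 σ hσ v _ hv (fun j => hE j q),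
          rfl, rfl, h⟩
  | len j =>
    refine ⟨oD p 1 (oD p (b + 1) D), fun σ hσ v E hv hE hA x => ?_⟩
    refine (Apx.and hσ (f := fun q => x = 0 ∨ x - 1 ∈ E j q)
      (f' := fun q => ∀ i ≤ 2 ^ (b * σ), (x ≤ i → ¬ i ∈ E j q)) ?_ ?_).congr fun q => ?_
    · by_cases hx : x = 0
      · exact (Apx.const True).congr fun q => by simp [hx]
      · exact ((hA j (x - 1)).mono hσ (le_oD _ _ _)).congr fun q => by simp [hx]
    · exact Apx.all_le (c := b) hσ le_rfl fun i _ => (hA j i).not.const_imp _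
    · rw [valN_len]
      exact (sl_eq_iff (hE j q)).symm

theorem ap_sat {φ : Fm} (hφ : IsSB0 φ) : IsPure φ → ∀ b D : ℕ, ∃ D', ∀ σ, 1 ≤ σ → ∀ (v : ℕ → ℕ)
    (E : ℕ → (Fin (2 ^ σ) → Bool) → Finset ℕ), (∀ i, v i ≤ 2 ^ (b * σ)) →
    (∀ j q, sl (E j q) ≤ 2 ^ (b * σ)) → (∀ j, ApS p σ D (E j)) →
    Apx p σ D' fun q => SatN P v (fun j => E j q) φ := by
  induction hφ with
  | bot => exact fun _ b D => ⟨0, fun σ _ v E _ _ _ => Apx.const _⟩
  | eq t u =>
    intro _ b D
    obtain ⟨D1, h1⟩ := ap_val (p := p) P t b D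
    obtain ⟨D2, h2⟩ := ap_val (p := p) P u b D
    obtain ⟨c1, hc1⟩ := val_bound P t b
    refine ⟨oD p (c1 + 1) (oD p 1 (max D1 D2)), fun σ hσ v E hv hE hA => ?_⟩
    refine (Apx.ex_le (c := c1) (B := 2 ^ (c1 * σ)) hσ le_rfl
      (f := fun a q => valN P v (fun j => E j q) t = a ∧ valN P v (fun j => E j q) u = a)
      fun a _ => ?_).congr fun q => ?_
    · exact Apx.and hσ ((h1 σ hσ v E hv hE hA a).mono hσ (le_max_left _ _))
        ((h2 σ hσ v E hv hE hA a).mono hσ (le_max_right _ _))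
    · rw [satN_eq]
      constructor
      · rintro ⟨a, -, h, h'⟩; rw [h, h']
      · intro h
        exact ⟨_, hc1 σ hσ v _ hv (fun j => hE j q), rfl, h.symm⟩
  | le t u =>
    intro _ b D
    obtain ⟨D1, h1⟩ := ap_val (p := p) P t b D
    obtain ⟨D2, h2⟩ := ap_val (p := p) P u b D
    obtain ⟨c1, hc1⟩ := val_bound P t b
    obtain ⟨c2, hc2⟩ := val_bound P u b
    refine ⟨oD p (c1 + 1) (oD p (c2 + 1) (oD p 1 (max D1 D2))), fun σ hσ v E hv hE hA => ?_⟩
    refine (Apx.ex_le (c := c1) (B := 2 ^ (c1 * σ)) hσ le_rfl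
      (f := fun a q => ∃ a' ≤ 2 ^ (c2 * σ), (valN P v (fun j => E j q) t = a ∧
        (valN P v (fun j => E j q) u = a' ∧ a ≤ a'))) fun a _ =>
        Apx.ex_le (c := c2) (B := 2 ^ (c2 * σ)) hσ le_rfl (f := fun a' q =>
          (valN P v (fun j => E j q) t = a ∧
          (valN P v (fun j => E j q) u = a' ∧ a ≤ a'))) fun a' _ => ?_).congr fun q => ?_
    · exact Apx.and hσ ((h1 σ hσ v E hv hE hA a).mono hσ (le_max_left _ _))
        (((h2 σ hσ v E hv hE hA a').mono hσ (le_max_right _ _)).and_const _)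
    · rw [satN_le]
      constructor
      · rintro ⟨a, -, a', -, ha, hb, hax⟩
        rw [ha, hb]; exact hax
      · intro h
        exact ⟨_, hc1 σ hσ v _ hv (fun j => hE j q), _, hc2 σ hσ v _ hv (fun j => hE j q),
          rfl, rfl, h⟩
  | mem t j =>
    intro _ b D
    obtain ⟨D1, h1⟩ := ap_val (p := p) P t b D
    obtain ⟨c1, hc1⟩ := val_bound P t b
    refine ⟨oD p (c1 + 1) (oD p 1 (max D1 D)), fun σ hσ v E hv hE hA => ?_⟩
    refine (Apx.ex_le (c := c1) (B := 2 ^ (c1 * σ)) hσ le_rfl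
      (f := fun a q => valN P v (fun j => E j q) t = a ∧ a ∈ E j q) fun a _ => ?_).congr
      fun q => ?_
    · exact Apx.and hσ ((h1 σ hσ v E hv hE hA a).mono hσ (le_max_left _ _))
        ((hA j a).mono hσ (le_max_right _ _))
    · rw [satN_mem]
      constructor
      · rintro ⟨a, -, h, h'⟩; rw [h]; exact h'
      · intro h
        exact ⟨_, hc1 σ hσ v _ hv (fun j => hE j q), rfl, h⟩
  | rel i ts Xs =>
    intro h
    cases h
  | imp _ _ ih1 ih2 =>
    intro hp b D
    cases hp with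
    | imp hp1 hp2 =>
      obtain ⟨D1, h1⟩ := ih1 hp1 b D
      obtain ⟨D2, h2⟩ := ih2 hp2 b D
      exact ⟨oD p 1 (max D1 D2), fun σ hσ v E hv hE hA =>
        Apx.imp hσ ((h1 σ hσ v E hv hE hA).mono hσ (le_max_left _ _))
          ((h2 σ hσ v E hv hE hA).mono hσ (le_max_right _ _))⟩
  | @allN k t φ _ ih =>
    intro hp b D
    cases hp with
    | allN _ _ hp =>
      obtain ⟨c1, hc1⟩ := val_bound P t b
      obtain ⟨D1, h1⟩ := ap_val (p := p) P t b D
      obtain ⟨D2, h2⟩ := ih hp (max b c1) D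
      refine ⟨oD p (c1 + 1) (oD p 1 (max (oD p (c1 + 1) D1) D2)), fun σ hσ v E hv hE hA => ?_⟩
      have hpow : ∀ {x y : ℕ}, x ≤ y → 2 ^ (x * σ) ≤ 2 ^ (y * σ) := fun h =>
        Nat.pow_le_pow_right (by norm_num) (Nat.mul_le_mul_right _ h)
      refine (Apx.all_le (c := c1) (B := 2 ^ (c1 * σ)) hσ le_rfl
        (f := fun a q => (∃ a' ≤ 2 ^ (c1 * σ), valN P v (fun j => E j q) t = a' ∧ a ≤ a') →
          SatN P (Function.update v k a) (fun j => E j q) φ) fun a ha =>
          Apx.imp hσ ?_ ?_).congr fun q => ?_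
      · refine Apx.mono hσ (Apx.ex_le (c := c1) (B := 2 ^ (c1 * σ)) hσ le_rfl
          (f := fun a' q => valN P v (fun j => E j q) t = a' ∧ a ≤ a') fun a' _ =>
          (h1 σ hσ v E hv hE hA a').and_const _) (le_max_left _ _)
      · refine Apx.mono hσ (h2 σ hσ (Function.update v k a) E (fun i => ?_)
          (fun j q => (hE j q).trans (hpow (le_max_left _ _))) hA) (le_max_right _ _)
        by_cases hi : i = k
        · subst hi
          rw [Function.update_self]
          exact ha.trans (hpow (le_max_right _ _))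
        · rw [Function.update_of_ne hi]
          exact (hv i).trans (hpow (le_max_left _ _))
      · rw [satN_allN]
        constructor
        · intro h a ha
          have hb := hc1 σ hσ v (fun j => E j q) hv (fun j => hE j q)
          exact h a (ha.trans hb) ⟨_, hb, rfl, ha⟩
        · rintro h a - ⟨a', -, h1, h2⟩
          exact h a (by rw [h1]; exact h2)

end

end Pool.Agent.H23P
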