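import Pool.Agent.H23P.Terms

/-!
The values of a term, as functions of a random string, are covered by few functions all of whose
bits are approximated by polynomials of low degree.
-/

namespace Pool.Agent.H23P

open Finset FirstOrder FirstOrder.Language

noncomputable section

open scoped Classical

variable (P : RelS) {p : ℕ} [Fact p.Prime]

/-- `G` is covered by at most `2 ^ (c σ)` approximable functions. -/
def Cov (p : ℕ) [Fact p.Prime] (c D σ : ℕ) (G : (Fin (2 ^ σ) → Bool) → ℕ × Finset ℕ) : Prop :=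
  ∃ (I : Type) (_ : Fintype I) (nn : I → ℕ) (F : I → (Fin (2 ^ σ) → Bool) → Finset ℕ),
    Fintype.card I ≤ 2 ^ (c * σ) ∧ (∀ i, nn i ≤ 2 ^ (c * σ)) ∧ (∀ i, ApS p σ D (F i)) ∧
    (∀ i q, sl (F i q) ≤ 2 ^ (c * σ)) ∧ ∀ q, ∃ i, G q = (nn i, F i q)

theorem Cov.mono {c c' D D' σ : ℕ} {G : (Fin (2 ^ σ) → Bool) → ℕ × Finset ℕ} (hσ : 1 ≤ σ)
    (h : Cov p c D σ G) (hc : c ≤ c') (hD : D ≤ D') : Cov p c' D' σ G := by
  obtain ⟨I, _, nn, F, h1, h2, h3, h4, h5⟩ := h
  have hp : 2 ^ (c * σ) ≤ 2 ^ (c' * σ) :=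
    Nat.pow_le_pow_right (by norm_num) (Nat.mul_le_mul_right _ hc)
  exact ⟨I, inferInstance, nn, F, h1.trans hp, fun i => (h2 i).trans hp,
    fun i => (h3 i).mono hσ hD, fun i q => (h4 i q).trans hp, h5⟩

/-- One function. -/
theorem Cov.single {c D σ : ℕ} {G : (Fin (2 ^ σ) → Bool) → ℕ × Finset ℕ} {n : ℕ}
    {F : (Fin (2 ^ σ) → Bool) → Finset ℕ} (hn : n ≤ 2 ^ (c * σ)) (hF : ApS p σ D F)
    (hs : ∀ q, sl (F q) ≤ 2 ^ (c * σ)) (h : ∀ q, G q = (n, F q)) : Cov p c D σ G :=
  ⟨Unit, inferInstance, fun _ => n, fun _ => F, by simp [Nat.one_le_two_pow], fun _ => hn,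
    fun _ => hF, fun _ q => hs q, fun q => ⟨(), h q⟩⟩

/-- Coverings of the arguments of a function symbol. -/
theorem Cov.args {l c D σ : ℕ} {G : Fin l → (Fin (2 ^ σ) → Bool) → ℕ × Finset ℕ}
    (h : ∀ i, Cov p c D σ (G i)) {c' D' : ℕ}
    {H : (Fin (2 ^ σ) → Bool) → ℕ × Finset ℕ}
    (hH : ∀ (n : Fin l → ℕ) (F : Fin l → (Fin (2 ^ σ) → Bool) → Finset ℕ),
      (∀ i, n i ≤ 2 ^ (c * σ)) → (∀ i, ApS p σ D (F i)) → (∀ i q, sl (F i q) ≤ 2 ^ (c * σ)) →
      ∃ H' : (Fin (2 ^ σ) → Bool) → ℕ × Finset ℕ, Cov p c' D' σ H' ∧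
        ∀ q, (∀ i, G i q = (n i, F i q)) → H q = H' q) :
    Cov p (c * l + c') D' σ H := by
  choose I hI nn F h1 h2 h3 h4 h5 using h
  have key := fun j : (∀ i, I i) => hH (fun i => nn i (j i)) (fun i => F i (j i))
    (fun i => h2 i _) (fun i => h3 i _) (fun i q => h4 i _ q)
  choose H' hH' hHe using key
  choose J hJ mm K k1 k2 k3 k4 k5 using hH'
  refine ⟨Σ j : (∀ i, I i), J j, inferInstance, fun x => mm x.1 x.2, fun x => K x.1 x.2, ?_,
    ?_, ?_, ?_, ?_⟩
  · rw [Fintype.card_sigma]
    have e1 : Fintype.card (∀ i, I i) ≤ 2 ^ (c * l * σ) := by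
      rw [Fintype.card_pi]
      calc ∏ i, Fintype.card (I i) ≤ ∏ _i : Fin l, 2 ^ (c * σ) :=
            Finset.prod_le_prod' fun i _ => h1 i
        _ = 2 ^ (c * l * σ) := by
            rw [Finset.prod_const, Finset.card_univ, Fintype.card_fin, ← pow_mul]
            congr 1; ring
    calc ∑ j : (∀ i, I i), Fintype.card (J j) ≤ ∑ _j : (∀ i, I i), 2 ^ (c' * σ) :=
          Finset.sum_le_sum fun j _ => k1 j
      _ = Fintype.card (∀ i, I i) * 2 ^ (c' * σ) := by
          rw [Finset.sum_const, Finset.card_univ, smul_eq_mul]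
      _ ≤ 2 ^ (c * l * σ) * 2 ^ (c' * σ) := Nat.mul_le_mul_right _ e1
      _ = 2 ^ ((c * l + c') * σ) := by rw [← pow_add]; congr 1; ring
  · intro x
    refine (k2 x.1 x.2).trans (Nat.pow_le_pow_right (by norm_num) (Nat.mul_le_mul_right _ ?_))
    omega
  · intro x
    exact k3 x.1 x.2
  · intro x q
    refine (k4 x.1 x.2 q).trans (Nat.pow_le_pow_right (by norm_num) (Nat.mul_le_mul_right _ ?_))
    omega
  · intro q
    choose j hj using fun i => h5 i q
    obtain ⟨i, hi⟩ := k5 j q
    exact ⟨⟨j, i⟩, by rw [hHe j q hj, hi]⟩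

theorem apS_const {σ D : ℕ} (X : Finset ℕ) : ApS p σ D fun _ => X := fun i =>
  Apx.const (i ∈ X)

theorem apS_modT {σ D c b : ℕ} (hσ : 1 ≤ σ) {F : (Fin (2 ^ σ) → Bool) → Finset ℕ}
    (hF : ApS p σ D F) (hs : ∀ q, sl (F q) ≤ 2 ^ (c * σ)) :
    ApS p σ (oD p c D) fun q => modT p b (F q) := by
  intro v
  by_cases hv : v < (b + 1) * p
  swap
  · refine (Apx.const False).congr fun q => ?_
    unfold modT
    rw [Finset.mem_filter, Finset.mem_range]
    tauto
  have hp : 0 < p := (Fact.out : p.Prime).pos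
  have h1 := Apx.modp (I := Fin (2 ^ (c * σ))) (c := c) (p := p) (D := D) hσ (by simp)
    (f := fun i q => (i : ℕ) ∈ F q ∧ (i : ℕ) < v / p)
    (fun i => (hF i).and_const _) (r := v % p) (Nat.mod_lt _ hp)
  refine h1.congr fun q => ?_
  unfold modT
  rw [Finset.mem_filter, Finset.mem_range]
  have e : ∀ inst : DecidablePred fun i : Fin (2 ^ (c * σ)) => (i : ℕ) ∈ F q ∧ (i : ℕ) < v / p,
      (@Finset.filter _ (fun i : Fin (2 ^ (c * σ)) => (i : ℕ) ∈ F q ∧ (i : ℕ) < v / p) inst
        univ).card = ((F q).filter fun i => i < v / p).card := by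
    intro inst
    refine Finset.card_bij (fun i _ => (i : ℕ)) ?_ ?_ ?_
    · intro i hi
      simp only [mem_filter, mem_univ, true_and] at hi ⊢
      exact hi
    · intro i _ j _ h
      exact Fin.ext h
    · intro i hi
      rw [Finset.mem_filter] at hi
      exact ⟨⟨i, (lt_sl hi.1).trans_le (hs q)⟩, by simpa using hi, rfl⟩
  rw [e]
  tauto

theorem cov_ev (t : Tr) (b D : ℕ) : ∃ c D', ∀ σ, 1 ≤ σ →
    ∀ E : ℕ × ℕ → (Fin (2 ^ σ) → Bool) → Finset ℕ,
    (∀ x q, sl (E x q) ≤ 2 ^ (b * σ)) → (∀ x, ApS p σ D (E x)) →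
    Cov p c D' σ fun q => ev P p σ (fun x => E x q) t := by
  induction t with
  | var i =>
    rcases i with i | i
    · refine ⟨b, D, fun σ hσ E hE hA => ?_⟩
      exact Cov.single (Nat.zero_le _) (hA i) (hE i) fun q => rfl
    · refine ⟨1, D, fun σ hσ E hE hA => ?_⟩
      exact Cov.single (n := 2 ^ σ) (F := fun _ => ∅) (by rw [one_mul]) (apS_const ∅)
        (fun q => by simp [sl]) fun q => rfl
  | @func l F ts ih =>
    choose c0 D0 h0 using ih
    let c := univ.sup c0
    let D1 := univ.sup D0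
    have hcov : ∀ σ, 1 ≤ σ → ∀ E : ℕ × ℕ → (Fin (2 ^ σ) → Bool) → Finset ℕ,
        (∀ x q, sl (E x q) ≤ 2 ^ (b * σ)) → (∀ x, ApS p σ D (E x)) →
        ∀ i, Cov p c D1 σ fun q => ev P p σ (fun x => E x q) (ts i) := fun σ hσ E hE hA i =>
      (h0 i σ hσ E hE hA).mono hσ (Finset.le_sup (mem_univ i)) (Finset.le_sup (mem_univ i))
    cases F with
    | wit _ cw k φ hφ =>
      refine ⟨c * l + cw * 2 + 1, D1, fun σ hσ E hE hA => ?_⟩
      -- all possible values
      refine ⟨Fin (2 ^ (cw * σ) + 1), inferInstance, fun i => i, fun _ _ => ∅, ?_, ?_, ?_, ?_, ?_⟩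
      · refine (card_fin_le hσ le_rfl).trans (Nat.pow_le_pow_right (by norm_num)
          (Nat.mul_le_mul_right _ ?_))
        omega
      · intro i
        refine (Nat.lt_succ_iff.1 i.2).trans (Nat.pow_le_pow_right (by norm_num)
          (Nat.mul_le_mul_right _ ?_))
        omega
      · intro i; exact apS_const ∅
      · intro i q; simp [sl]
      · intro q
        exact ⟨⟨(ev P p σ (fun x => E x q) (Term.func (L := pL) (PF.wit l cw k φ hφ) ts)).1,
          Nat.lt_succ_iff.2 (leastN_le _ _)⟩, rfl⟩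
    | comp _ cw k φ hφ hφ' =>
      obtain ⟨D2, h2⟩ := ap_sat (p := p) P hφ hφ' (max c cw) D1
      refine ⟨c * l + cw, D2, fun σ hσ E hE hA => ?_⟩
      refine Cov.args (hcov σ hσ E hE hA) fun n F hn hF hs => ?_
      let nn : ℕ → ℕ := fun j => if h : j < l then n ⟨j, h⟩ else 0
      let FF : ℕ → (Fin (2 ^ σ) → Bool) → Finset ℕ := fun j q =>
        if h : j < l then F ⟨j, h⟩ q else ∅
      have hpow : ∀ {x y : ℕ}, x ≤ y → 2 ^ (x * σ) ≤ 2 ^ (y * σ) := fun h =>
        Nat.pow_le_pow_right (by norm_num) (Nat.mul_le_mul_right _ h)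
      refine ⟨fun q => (0, (Finset.range (2 ^ (cw * σ))).filter fun i =>
        SatN P (Function.update nn k i) (fun j => FF j q) φ), ?_, ?_⟩
      · refine Cov.single (Nat.zero_le _) (F := fun q => (Finset.range (2 ^ (cw * σ))).filter
          fun i => SatN P (Function.update nn k i) (fun j => FF j q) φ) ?_ ?_ fun q => rfl
        · intro i
          by_cases hi : i < 2 ^ (cw * σ)
          · refine (h2 σ hσ (Function.update nn k i) FF (fun j => ?_) (fun j q => ?_)
              fun j => ?_).congr fun q => ?_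
            · by_cases hj : j = k
              · subst hj
                rw [Function.update_self]
                exact hi.le.trans (hpow (le_max_right _ _))
              · rw [Function.update_of_ne hj]
                simp only [nn]
                split_ifs with h
                · exact (hn _).trans (hpow (le_max_left _ _))
                · exact Nat.zero_le _
            · simp only [FF]
              split_ifs with h
              · exact (hs _ q).trans (hpow (le_max_left _ _))
              · simp [sl]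
            · simp only [FF]
              split_ifs with h
              · exact hF _
              · exact apS_const ∅
            · rw [Finset.mem_filter, Finset.mem_range]
              tauto
          · refine (Apx.const False).congr fun q => ?_
            rw [Finset.mem_filter, Finset.mem_range]
            tauto
        · intro q
          refine sl_le fun i hi => ?_
          rw [Finset.mem_filter, Finset.mem_range] at hi
          exact hi.1
      · intro q hq
        change pf P p σ (PF.comp l cw k φ hφ hφ') (fun i => ev P p σ (fun x => E x q) (ts i)) = _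
        simp only [pf]
        have e1 : nenv (fun i => ev P p σ (fun x => E x q) (ts i)) = nn := by
          funext j
          simp only [nenv, nn]
          split_ifs with h
          · rw [hq]
          · rfl
        have e2 : senv (fun i => ev P p σ (fun x => E x q) (ts i)) = fun j => FF j q := by
          funext j
          simp only [senv, FF]
          split_ifs with h
          · rw [hq]
          · rfl
        rw [e1, e2]
    | pr =>
      refine ⟨c * 2 + c, D1, fun σ hσ E hE hA => ?_⟩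
      refine Cov.args (hcov σ hσ E hE hA) fun n F hn hF hs => ?_
      refine ⟨fun q => (n 0, F 1 q), Cov.single (hn 0) (hF 1) (hs 1) fun q => rfl, fun q hq => ?_⟩
      change pf P p σ PF.pr (fun i => ev P p σ (fun x => E x q) (ts i)) = _
      simp only [pf]
      rw [hq, hq]
    | md =>
      refine ⟨c * 1 + (c + 1 + p), oD p c D1, fun σ hσ E hE hA => ?_⟩
      refine Cov.args (hcov σ hσ E hE hA) fun n F hn hF hs => ?_
      refine ⟨fun q => (0, modT p (n 0) (F 0 q)), ?_, ?_⟩
      · refine Cov.single (Nat.zero_le _) (apS_modT hσ (hF 0) (hs 0)) (fun q => ?_) fun q => rfl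
        refine sl_le fun i hi => ?_
        unfold modT at hi
        rw [Finset.mem_filter, Finset.mem_range] at hi
        refine hi.1.trans_le ?_
        have h1 := hn 0
        have h2 : p ≤ 2 ^ (p * σ) := by
          calc p ≤ 2 ^ p := Nat.lt_two_pow_self.le
            _ ≤ 2 ^ (p * σ) := Nat.pow_le_pow_right (by norm_num) (Nat.le_mul_of_pos_right _ hσ)
        have h3 : 2 ≤ 2 ^ (1 * σ) := two_le_pow hσ le_rfl
        have h4 : 1 ≤ 2 ^ (c * σ) := Nat.one_le_two_pow
        calc (n 0 + 1) * p ≤ (2 ^ (c * σ) * 2) * 2 ^ (p * σ) := by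
              refine Nat.mul_le_mul ?_ h2
              omega
          _ ≤ (2 ^ (c * σ) * 2 ^ (1 * σ)) * 2 ^ (p * σ) := by gcongr
          _ = 2 ^ ((c + 1 + p) * σ) := by rw [← pow_add, ← pow_add]; congr 1; ring
      · intro q hq
        change pf P p σ PF.md (fun i => ev P p σ (fun x => E x q) (ts i)) = _
        simp only [pf]
        rw [hq]

end

end Pool.Agent.H23P
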