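import Pool.Agent.H23P.Om

/-!
Definability, and the lower bound: every set of the hierarchy is definable in the model.
-/

namespace Pool.Agent.H23P

open Set Filter FirstOrder FirstOrder.Language Pool.Agent.H23 Pool.Agent.H23L

noncomputable section

/-- Contexts: parameters of both sorts, and stacks of bound variables of both sorts. -/
@[ext] structure Cx (M : Two) (k l : ℕ) where
  c : ℕ → M.N1
  d : ℕ → M.N2
  x : Fin k → M.N1
  y : Fin l → M.N2

variable {M : Two} {k l : ℕ}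

/-- The context of two assignments. -/
def cx (k l : ℕ) (v : ℕ → M.N1) (w : ℕ → M.N2) : Cx M k l :=
  ⟨fun i => v (2 * i), fun i => w (2 * i), fun j => v (2 * j + 1), fun j => w (2 * j + 1)⟩

/-- Parameters only. -/
structure Pm (M : Two) where
  c : ℕ → M.N1
  d : ℕ → M.N2

def Cx.p (z : Cx M k l) : Pm M := ⟨z.c, z.d⟩

def Cx.dN (z : Cx M (k + 1) l) : Cx M k l := ⟨z.c, z.d, fun j => z.x j.castSucc, z.y⟩
def Cx.dS (z : Cx M k (l + 1)) : Cx M k l := ⟨z.c, z.d, z.x, fun j => z.y j.castSucc⟩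
def Cx.lN (z : Cx M (k + 1) l) : M.N1 := z.x (Fin.last k)
def Cx.lS (z : Cx M k (l + 1)) : M.N2 := z.y (Fin.last l)
def Cx.pN (z : Cx M k l) (a : M.N1) : Cx M (k + 1) l :=
  ⟨z.c, z.d, Fin.snoc (α := fun _ => M.N1) z.x a, z.y⟩
def Cx.pS (z : Cx M k l) (a : M.N2) : Cx M k (l + 1) :=
  ⟨z.c, z.d, z.x, Fin.snoc (α := fun _ => M.N2) z.y a⟩

@[simp] theorem dN_pN (z : Cx M k l) (a : M.N1) : (z.pN a).dN = z := by
  ext <;> simp [Cx.pN, Cx.dN]
@[simp] theorem lN_pN (z : Cx M k l) (a : M.N1) : (z.pN a).lN = a := by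
  simp [Cx.pN, Cx.lN]
@[simp] theorem dS_pS (z : Cx M k l) (a : M.N2) : (z.pS a).dS = z := by
  ext <;> simp [Cx.pS, Cx.dS]
@[simp] theorem lS_pS (z : Cx M k l) (a : M.N2) : (z.pS a).lS = a := by
  simp [Cx.pS, Cx.lS]

theorem cx_updN (v : ℕ → M.N1) (w : ℕ → M.N2) (a : M.N1) :
    cx (k + 1) l (Function.update v (2 * k + 1) a) w = (cx k l v w).pN a := by
  ext i
  · exact congrArg _ (by rfl) |>.trans (Function.update_of_ne (by omega) _ _)
  · rfl
  · refine Fin.lastCases ?_ (fun j => ?_) i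
    · simp [cx, Cx.pN]
    · have : 2 * (j : ℕ) + 1 ≠ 2 * k + 1 := by have := j.2; omega
      simp only [cx, Cx.pN, Fin.snoc_castSucc, Fin.val_castSucc]
      exact Function.update_of_ne this _ _
  · rfl

theorem cx_updS (v : ℕ → M.N1) (w : ℕ → M.N2) (a : M.N2) :
    cx k (l + 1) v (Function.update w (2 * l + 1) a) = (cx k l v w).pS a := by
  ext i
  · rfl
  · exact congrArg _ (by rfl) |>.trans (Function.update_of_ne (by omega) _ _)
  · rfl
  · refine Fin.lastCases ?_ (fun j => ?_) i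
    · simp [cx, Cx.pS]
    · have : 2 * (j : ℕ) + 1 ≠ 2 * l + 1 := by have := j.2; omega
      simp only [cx, Cx.pS, Fin.snoc_castSucc, Fin.val_castSucc]
      exact Function.update_of_ne this _ _

/-- Numbers given by terms. -/
def TF (F : Cx M k l → M.N1) : Prop := ∃ t : NTm, ∀ v w, t.val M v w = F (cx k l v w)
/-- Strings given by variables. -/
def SV (F : Cx M k l → M.N2) : Prop := ∃ j : ℕ, ∀ v w, (w j : M.N2) = F (cx k l v w)
/-- Relations given by formulas. -/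
def BD (R : Cx M k l → Prop) : Prop :=
  ∃ φ : Fm, IsPure φ ∧ ∀ v w, Sat M v w φ ↔ R (cx k l v w)

theorem TF.par (i : ℕ) : TF (M := M) (k := k) (l := l) fun z => z.c i :=
  ⟨.var (2 * i), fun _ _ => rfl⟩
theorem SV.par (i : ℕ) : SV (M := M) (k := k) (l := l) fun z => z.d i :=
  ⟨2 * i, fun _ _ => rfl⟩
theorem TF.last : TF (M := M) (k := k + 1) (l := l) fun z => z.lN :=
  ⟨.var (2 * k + 1), fun _ _ => rfl⟩
theorem SV.last : SV (M := M) (k := k) (l := l + 1) fun z => z.lS :=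
  ⟨2 * l + 1, fun _ _ => rfl⟩
theorem TF.liftN {F : Cx M k l → M.N1} (h : TF F) : TF fun z : Cx M (k + 1) l => F z.dN := h
theorem TF.liftS {F : Cx M k l → M.N1} (h : TF F) : TF fun z : Cx M k (l + 1) => F z.dS := h
theorem SV.liftN {F : Cx M k l → M.N2} (h : SV F) : SV fun z : Cx M (k + 1) l => F z.dN := h
theorem SV.liftS {F : Cx M k l → M.N2} (h : SV F) : SV fun z : Cx M k (l + 1) => F z.dS := h
theorem TF.zero : TF (M := M) (k := k) (l := l) fun _ => M.zero := ⟨.zero, fun _ _ => rfl⟩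
theorem TF.one : TF (M := M) (k := k) (l := l) fun _ => M.one := ⟨.one, fun _ _ => rfl⟩
theorem TF.add {F G : Cx M k l → M.N1} (h : TF F) (h' : TF G) :
    TF fun z => M.add (F z) (G z) := by
  obtain ⟨t, ht⟩ := h
  obtain ⟨u, hu⟩ := h'
  exact ⟨.add t u, fun v w => by simp only [NTm.val]; rw [ht, hu]⟩
theorem TF.mul {F G : Cx M k l → M.N1} (h : TF F) (h' : TF G) :
    TF fun z => M.mul (F z) (G z) := by
  obtain ⟨t, ht⟩ := h
  obtain ⟨u, hu⟩ := h'
  exact ⟨.mul t u, fun v w => by simp only [NTm.val]; rw [ht, hu]⟩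
theorem TF.len {F : Cx M k l → M.N2} (h : SV F) : TF fun z => M.len (F z) := by
  obtain ⟨j, hj⟩ := h
  exact ⟨.len j, fun v w => by simp only [NTm.val]; rw [hj v w]⟩

theorem BD.le {F G : Cx M k l → M.N1} (h : TF F) (h' : TF G) :
    BD fun z => M.le (F z) (G z) := by
  obtain ⟨t, ht⟩ := h
  obtain ⟨u, hu⟩ := h'
  exact ⟨.le t u, .le _ _, fun v w => by simp only [Sat]; rw [ht, hu]⟩
theorem BD.eq {F G : Cx M k l → M.N1} (h : TF F) (h' : TF G) :
    BD fun z => F z = G z := by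
  obtain ⟨t, ht⟩ := h
  obtain ⟨u, hu⟩ := h'
  exact ⟨.eq t u, .eq _ _, fun v w => by simp only [Sat]; rw [ht, hu]⟩
theorem BD.mem {F : Cx M k l → M.N1} {G : Cx M k l → M.N2} (h : TF F) (h' : SV G) :
    BD fun z => M.mem (F z) (G z) := by
  obtain ⟨t, ht⟩ := h
  obtain ⟨j, hj⟩ := h'
  exact ⟨.mem t j, .mem _ _, fun v w => by simp only [Sat]; rw [ht, hj v w]⟩
theorem BD.imp {R S : Cx M k l → Prop} (h : BD R) (h' : BD S) : BD fun z => R z → S z := by
  obtain ⟨φ, h1, h2⟩ := h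
  obtain ⟨ψ, h3, h4⟩ := h'
  exact ⟨φ.imp ψ, .imp h1 h3, fun v w => by simp only [Sat]; rw [h2, h4]⟩
theorem BD.false : BD (M := M) (k := k) (l := l) fun _ => False := ⟨.bot, .bot, fun _ _ => Iff.rfl⟩
theorem BD.not {R : Cx M k l → Prop} (h : BD R) : BD fun z => ¬ R z := h.imp BD.false
theorem BD.congr {R S : Cx M k l → Prop} (h : BD R) (e : ∀ z, R z ↔ S z) : BD S := by
  obtain ⟨φ, h1, h2⟩ := h
  exact ⟨φ, h1, fun v w => (h2 v w).trans (e _)⟩
theorem BD.and {R S : Cx M k l → Prop} (h : BD R) (h' : BD S) : BD fun z => R z ∧ S z :=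
  (h.imp h'.not).not.congr fun z => by tauto
theorem BD.or {R S : Cx M k l → Prop} (h : BD R) (h' : BD S) : BD fun z => R z ∨ S z :=
  (h.not.imp h').congr fun z => by tauto
theorem BD.iff {R S : Cx M k l → Prop} (h : BD R) (h' : BD S) : BD fun z => (R z ↔ S z) :=
  ((h.imp h').and (h'.imp h)).congr fun z => by tauto
theorem BD.allN {F : Cx M k l → M.N1} (h : TF F) (R : Cx M k l → M.N1 → Prop)
    (hR : BD fun z : Cx M (k + 1) l => R z.dN z.lN) :
    BD fun z => ∀ a, M.le a (F z) → R z a := by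
  obtain ⟨t, ht⟩ := h
  obtain ⟨φ, h1, h2⟩ := hR
  refine ⟨.allN (2 * k + 1) t φ, .allN _ _ h1, fun v w => ?_⟩
  simp only [Sat]
  rw [ht]
  refine forall_congr' fun a => forall_congr' fun _ => ?_
  rw [h2, cx_updN]
  beta_reduce
  rw [dN_pN, lN_pN]
theorem BD.allS {F : Cx M k l → M.N1} (h : TF F) (R : Cx M k l → M.N2 → Prop)
    (hR : BD fun z : Cx M k (l + 1) => R z.dS z.lS) :
    BD fun z => ∀ a, M.le (M.len a) (F z) → R z a := by
  obtain ⟨t, ht⟩ := h
  obtain ⟨φ, h1, h2⟩ := hR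
  refine ⟨.allS (2 * l + 1) t φ, .allS _ _ h1, fun v w => ?_⟩
  simp only [Sat]
  rw [ht]
  refine forall_congr' fun a => forall_congr' fun _ => ?_
  rw [h2, cx_updS]
  beta_reduce
  rw [dS_pS, lS_pS]
theorem BD.exN {F : Cx M k l → M.N1} (h : TF F) (R : Cx M k l → M.N1 → Prop)
    (hR : BD fun z : Cx M (k + 1) l => R z.dN z.lN) :
    BD fun z => ∃ a, M.le a (F z) ∧ R z a :=
  (BD.allN h (fun z a => ¬ R z a) hR.not).not.congr fun z => by push Not; exact Iff.rfl
theorem BD.exS {F : Cx M k l → M.N1} (h : TF F) (R : Cx M k l → M.N2 → Prop)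
    (hR : BD fun z : Cx M k (l + 1) => R z.dS z.lS) :
    BD fun z => ∃ a, M.le (M.len a) (F z) ∧ R z a :=
  (BD.allS h (fun z a => ¬ R z a) hR.not).not.congr fun z => by push Not; exact Iff.rfl

theorem BD.cnt {X Y : Cx M k l → M.N2} {r N : Cx M k l → M.N1} (hX : SV X) (hY : SV Y)
    (hr : TF r) (hN : TF N) : BD fun z => CntR M (X z) (Y z) (r z) (N z) :=
  (BD.allN hN (fun z c => (M.mem c (Y z) ↔ c = M.zero))
    ((BD.mem TF.last hY.liftN).iff (BD.eq TF.last TF.zero))).and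
  (BD.allN hN (fun z i => (M.le (M.add i M.one) (N z) → ∀ c, M.le c (N z) →
    (M.mem (M.add (M.mul (M.add i M.one) (M.add (N z) M.one)) c) (Y z) ↔
      (M.mem (M.add (M.mul (r z) (N z)) i) (X z) ∧ ∃ d, M.le d (N z) ∧ (M.add d M.one = c ∧
        M.mem (M.add (M.mul i (M.add (N z) M.one)) d) (Y z))) ∨
      (¬ M.mem (M.add (M.mul (r z) (N z)) i) (X z) ∧
        M.mem (M.add (M.mul i (M.add (N z) M.one)) c) (Y z)))))
    ((BD.le (TF.last.add TF.one) hN.liftN).imp
      (BD.allN hN.liftN (fun z c =>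
        (M.mem (M.add (M.mul (M.add z.lN M.one) (M.add (N z.dN) M.one)) c) (Y z.dN) ↔
          (M.mem (M.add (M.mul (r z.dN) (N z.dN)) z.lN) (X z.dN) ∧ ∃ d, M.le d (N z.dN) ∧
            (M.add d M.one = c ∧ M.mem (M.add (M.mul z.lN (M.add (N z.dN) M.one)) d) (Y z.dN))) ∨
          (¬ M.mem (M.add (M.mul (r z.dN) (N z.dN)) z.lN) (X z.dN) ∧
            M.mem (M.add (M.mul z.lN (M.add (N z.dN) M.one)) c) (Y z.dN))))
        ((BD.mem (((TF.last.liftN.add TF.one).mul (hN.liftN.liftN.add TF.one)).add TF.last)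
            hY.liftN.liftN).iff
          (((BD.mem ((hr.liftN.liftN.mul hN.liftN.liftN).add TF.last.liftN) hX.liftN.liftN).and
            (BD.exN hN.liftN.liftN (fun z d => (M.add d M.one = z.lN ∧
              M.mem (M.add (M.mul z.dN.lN (M.add (N z.dN.dN) M.one)) d) (Y z.dN.dN)))
              ((BD.eq (TF.last.add TF.one) TF.last.liftN).and
                (BD.mem ((TF.last.liftN.liftN.mul (hN.liftN.liftN.liftN.add TF.one)).add TF.last)
                  hY.liftN.liftN.liftN)))).or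
          ((BD.mem ((hr.liftN.liftN.mul hN.liftN.liftN).add TF.last.liftN) hX.liftN.liftN).not.and
            (BD.mem ((TF.last.liftN.mul (hN.liftN.liftN.add TF.one)).add TF.last)
              hY.liftN.liftN)))))))

/-- The relations with the parameters taken from the context: number parameter `1` is `N`,
string parameter `1` is the string of the zero real. -/
def OmC (z : Pm M) (n : M.N1) : Prop := OmR M (z.c 1) (z.d 1) n
def BitC (z : Pm M) (x : M.N2) (n : M.N1) : Prop := BitR M (z.c 1) x n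

theorem BD.om {n : Cx M k l → M.N1} (hn : TF n) : BD fun z => OmC z.p (n z) :=
  (BD.le (hn.add TF.one) (TF.par 1)).and
    (BD.exS (((TF.par 1).add TF.one).mul ((TF.par 1).add TF.one))
      (fun z y => (CntR M (z.d 1) y (M.add (n z) (n z)) (z.c 1) ∨
        CntR M (z.d 1) y (M.add (M.add (n z) (n z)) M.one) (z.c 1)))
      ((BD.cnt (SV.par 1) SV.last (hn.liftS.add hn.liftS) (TF.par 1)).or
        (BD.cnt (SV.par 1) SV.last ((hn.liftS.add hn.liftS).add TF.one) (TF.par 1))))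

theorem BD.bit {X : Cx M k l → M.N2} {n : Cx M k l → M.N1} (hX : SV X) (hn : TF n) :
    BD fun z => BitC z.p (X z) (n z) :=
  BD.exS (((TF.par 1).add TF.one).mul ((TF.par 1).add TF.one))
    (fun z y => CntR M (X z) y (M.add (M.add (n z) (n z)) M.one) (z.c 1))
    (BD.cnt hX.liftS SV.last ((hn.liftS.add hn.liftS).add TF.one) (TF.par 1))

/-- `z` codes the pair of the reals coded by `x` and `y`. -/
def PairC (e : Pm M) (z x y : M.N2) : Prop :=
  ∀ i, M.le i (e.c 1) → (OmC e i → ((BitC e z (M.add i i) ↔ BitC e x i) ∧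
    (BitC e z (M.add (M.add i i) M.one) ↔ BitC e y i)))

theorem BD.pair {Z X Y : Cx M k l → M.N2} (hZ : SV Z) (hX : SV X) (hY : SV Y) :
    BD fun e => PairC e.p (Z e) (X e) (Y e) :=
  BD.allN (TF.par 1) (fun e i => (OmC e.p i → ((BitC e.p (Z e) (M.add i i) ↔ BitC e.p (X e) i) ∧
    (BitC e.p (Z e) (M.add (M.add i i) M.one) ↔ BitC e.p (Y e) i))))
    ((BD.om TF.last).imp (((BD.bit hZ.liftN (TF.last.add TF.last)).iff
      (BD.bit hX.liftN TF.last)).and
      ((BD.bit hZ.liftN ((TF.last.add TF.last).add TF.one)).iff (BD.bit hY.liftN TF.last))))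

def prM (M : Two) (a b : M.N1) : M.N1 := M.add (M.mul (M.add a b) (M.add a b)) a

theorem TF.pr {F G : Cx M k l → M.N1} (h : TF F) (h' : TF G) : TF fun z => prM M (F z) (G z) :=
  ((h.add h').mul (h.add h')).add h

/-- The relation of the base case; string parameters `2` and `3` code the set. -/
def BaseC (e : Pm M) (a : M.N2) : Prop :=
  ∃ i, M.le i (e.c 1) ∧ (OmC e i ∧ ∀ q, M.le q (e.c 1) → (OmC e q → ∃ j, M.le j (e.c 1) ∧
    (OmC e j ∧ ((BitC e (e.d 3) (prM M (prM M i q) j) ∧ ¬ BitC e a j) ∨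
      (BitC e (e.d 2) (prM M (prM M i q) j) ∧ BitC e a j)))))

theorem BD.base {X : Cx M k l → M.N2} (hX : SV X) : BD fun e => BaseC e.p (X e) :=
  BD.exN (TF.par 1) (fun e i => OmC e.p i ∧ ∀ q, M.le q (e.c 1) → (OmC e.p q → ∃ j,
      M.le j (e.c 1) ∧ (OmC e.p j ∧ ((BitC e.p (e.d 3) (prM M (prM M i q) j) ∧ ¬ BitC e.p (X e) j) ∨
      (BitC e.p (e.d 2) (prM M (prM M i q) j) ∧ BitC e.p (X e) j)))))
    ((BD.om TF.last).and (BD.allN (TF.par 1)
      (fun e q => (OmC e.p q → ∃ j, M.le j (e.c 1) ∧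
        (OmC e.p j ∧ ((BitC e.p (e.d 3) (prM M (prM M e.lN q) j) ∧ ¬ BitC e.p (X e.dN) j) ∨
        (BitC e.p (e.d 2) (prM M (prM M e.lN q) j) ∧ BitC e.p (X e.dN) j)))))
      ((BD.om TF.last).imp (BD.exN (TF.par 1)
        (fun e j => (OmC e.p j ∧
          ((BitC e.p (e.d 3) (prM M (prM M e.dN.lN e.lN) j) ∧ ¬ BitC e.p (X e.dN.dN) j) ∨
          (BitC e.p (e.d 2) (prM M (prM M e.dN.lN e.lN) j) ∧ BitC e.p (X e.dN.dN) j))))
        ((BD.om TF.last).and
          (((BD.bit (SV.par 3) (TF.pr (TF.pr TF.last.liftN.liftN TF.last.liftN) TF.last)).and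
            (BD.bit hX.liftN.liftN.liftN TF.last).not).or
          ((BD.bit (SV.par 2) (TF.pr (TF.pr TF.last.liftN.liftN TF.last.liftN) TF.last)).and
            (BD.bit hX.liftN.liftN.liftN TF.last))))))))

end

end Pool.Agent.H23P
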