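import Pool.Agent.H23P.Defin

/-!
Every set of the hierarchy is definable in the model.
-/

namespace Pool.Agent.H23P

open Set Filter FirstOrder FirstOrder.Language Pool.Agent.H23 Pool.Agent.H23L

noncomputable section

variable {P : RelS} {p : ℕ} [Fact p.Prime] (D : (Y P p).Dat)

open scoped Classical in
/-- The real coded by a string. -/
def rl (a : (M D).N2) : Cantor := fun n => decide (BitR (M D) (eN D) a (nat D n))

theorem rl_eq_true (a : (M D).N2) (n : ℕ) :
    rl D a n = true ↔ BitR (M D) (eN D) a (nat D n) := by simp [rl]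

theorem rl_eU (α : Cantor) : rl D (eU D α) = α := by
  funext n
  have h1 := rl_eq_true D (eU D α) n
  rw [bit_iff D] at h1
  cases h : α n <;> cases h' : rl D (eU D α) n <;> simp_all

/-- Good parameters; number parameter `2` bounds the lengths of the strings of the reals. -/
structure GoodP (D : (Y P p).Dat) (e : Pm (M D)) (g0 g1 : Cantor) : Prop where
  h1 : e.c 1 = eN D
  h2 : e.c 2 = (M D).len (eU D fun _ => false)
  d1 : e.d 1 = eU D fun _ => false
  d2 : e.d 2 = eU D g0
  d3 : e.d 3 = eU D g1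

variable {D}

theorem ex_om {e : Pm (M D)} {g0 g1 : Cantor} (he : GoodP D e g0 g1) (Q : (M D).N1 → Prop) :
    (∃ i, (M D).le i (e.c 1) ∧ (OmC e i ∧ Q i)) ↔ ∃ n, Q (nat D n) := by
  constructor
  · rintro ⟨i, -, h2, h3⟩
    unfold OmC at h2
    rw [he.h1, he.d1] at h2
    obtain ⟨n, rfl⟩ := om_std D _ i h2
    exact ⟨n, h3⟩
  · rintro ⟨n, hn⟩
    refine ⟨nat D n, by rw [he.h1]; exact nat_le_eN D n, ?_, hn⟩
    unfold OmC
    rw [he.h1, he.d1]
    exact om_nat D _ n

theorem all_om {e : Pm (M D)} {g0 g1 : Cantor} (he : GoodP D e g0 g1) (Q : (M D).N1 → Prop) :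
    (∀ i, (M D).le i (e.c 1) → (OmC e i → Q i)) ↔ ∀ n, Q (nat D n) := by
  have h := ex_om he fun i => ¬ Q i
  rw [← not_iff_not] at h
  push Not at h
  constructor
  · intro h1
    exact h.1 h1
  · intro h1
    exact h.2 h1

theorem prM_nat (i j : ℕ) : prM (M D) (nat D i) (nat D j) = nat D (prN i j) := by
  unfold prM prN
  rw [nat_add D, nat_mul D, nat_add D]

theorem pairC_iff {e : Pm (M D)} {g0 g1 : Cantor} (he : GoodP D e g0 g1) (z x y : (M D).N2) :
    PairC e z x y ↔ rl D z = pr2 (rl D x) (rl D y) := by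
  unfold PairC
  rw [all_om he]
  unfold BitC
  rw [he.h1]
  rw [← nat_one D]
  simp only [nat_add D, ← rl_eq_true D]
  constructor
  · intro h
    rw [← pr2_eta (rl D z)]
    congr 1
    · funext n
      have h1 := (h n).1
      unfold fstC
      rw [two_mul]
      cases h2 : rl D z (n + n) <;> cases h3 : rl D x n <;> simp_all
    · funext n
      have h1 := (h n).2
      unfold sndC
      rw [two_mul]
      cases h2 : rl D z (n + n + 1) <;> cases h3 : rl D y n <;> simp_all
  · intro h n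
    have h1 : fstC (rl D z) n = rl D x n := by rw [h, fstC_pr2]
    have h2 : sndC (rl D z) n = rl D y n := by rw [h, sndC_pr2]
    unfold fstC at h1
    unfold sndC at h2
    rw [two_mul] at h1 h2
    rw [h1, h2]
    exact ⟨Iff.rfl, Iff.rfl⟩

theorem len_eU (α β : Cantor) : (M D).le ((M D).len (eU D α)) ((M D).len (eU D β)) := by
  rw [le_M D _ _ (fun s => sl (Ustr (fam D α s))) (fun s => sl (Ustr (fam D β s))) rfl rfl]
  exact Eventually.of_forall fun s => by rw [sl_Ustr, sl_Ustr]

/-- Every set of the hierarchy is definable. -/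
theorem definable (D : (Y P p).Dat) (n : ℕ) : ∀ S : Set Cantor, Sg n S →
    ∃ (g0 g1 : Cantor) (Rl : Pm (M D) → (M D).N2 → Prop),
      (∀ {k l : ℕ} (F : Cx (M D) k l → (M D).N2), SV F → BD fun e => Rl e.p (F e)) ∧
      ∀ (e : Pm (M D)), GoodP D e g0 g1 → ∀ a, (Rl e a ↔ rl D a ∈ S) := by
  induction n with
  | zero =>
    intro S hS
    obtain ⟨g0, g1, hg⟩ := isFs_code hS
    refine ⟨g0, g1, BaseC, fun F hF => BD.base hF, fun e he a => ?_⟩
    rw [hg]
    unfold BaseC
    rw [ex_om he]
    refine exists_congr fun i => ?_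
    rw [all_om he]
    refine forall_congr' fun q => ?_
    rw [ex_om he]
    refine exists_congr fun j => ?_
    rw [prM_nat, prM_nat]
    unfold BitC
    rw [he.h1, he.d2, he.d3, bit_iff D, bit_iff D, ← rl_eq_true D, Bool.not_eq_true]
  | succ n ih =>
    rintro S ⟨R, hR, rfl⟩
    obtain ⟨g0, g1, Rl, h1, h2⟩ := ih R hR
    refine ⟨g0, g1, fun e a => ∃ y, (M D).le ((M D).len y) (e.c 2) ∧ ∃ z,
      (M D).le ((M D).len z) (e.c 2) ∧ (PairC e z a y ∧ ¬ Rl e z), ?_, ?_⟩
    · intro k l F hF
      exact BD.exS (TF.par 2) (fun e y => ∃ z, (M D).le ((M D).len z) (e.c 2) ∧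
        (PairC e.p z (F e) y ∧ ¬ Rl e.p z))
        (BD.exS (TF.par 2) (fun e z => (PairC e.p z (F e.dS) e.lS ∧ ¬ Rl e.p z))
          ((BD.pair SV.last hF.liftS.liftS SV.last.liftS).and (h1 _ SV.last).not))
    · intro e he a
      constructor
      · rintro ⟨y, -, z, -, hp, hz⟩
        rw [pairC_iff he] at hp
        rw [h2 e he, hp] at hz
        exact ⟨rl D y, hz⟩
      · rintro ⟨β, hβ⟩
        refine ⟨eU D β, by rw [he.h2]; exact len_eU _ _, eU D (pr2 (rl D a) β),
          by rw [he.h2]; exact len_eU _ _, ?_, ?_⟩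
        · rw [pairC_iff he, rl_eU D, rl_eU D]
        · rw [h2 e he, rl_eU D]
          exact hβ

end

end Pool.Agent.H23P
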