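import Mathlib

/-!
Functions on the Boolean cube given by polynomials of bounded degree, and the theorem of
Razborov and Smolensky that majority is not approximated by polynomials of low degree.
-/

namespace Pool.Agent.H23P

open Finset

noncomputable section

open scoped Classical

variable {ι : Type} [Fintype ι] [DecidableEq ι] (p : ℕ) [Fact p.Prime]

/-- The monomial of a set of coordinates. -/
def mono (S : Finset ι) : (ι → Bool) → ZMod p := fun x => if ∀ i ∈ S, x i = true then 1 else 0

/-- Polynomial functions of degree at most `d`. -/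
def PD (d : ℕ) : Submodule (ZMod p) ((ι → Bool) → ZMod p) :=
  Submodule.span (ZMod p) (mono p '' {S : Finset ι | S.card ≤ d})

variable {p}

theorem mono_mem {S : Finset ι} {d : ℕ} (h : S.card ≤ d) : mono p S ∈ PD (ι := ι) p d :=
  Submodule.subset_span ⟨S, h, rfl⟩

theorem PD_mono {d e : ℕ} (h : d ≤ e) : PD (ι := ι) p d ≤ PD p e :=
  Submodule.span_mono (Set.image_mono fun _ hS => le_trans hS h)

theorem mono_mul (S T : Finset ι) : mono p S * mono p T = mono p (S ∪ T) := by
  funext x
  simp only [mono, Pi.mul_apply]
  by_cases h1 : ∀ i ∈ S, x i = true <;> by_cases h2 : ∀ i ∈ T, x i = true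
  · rw [if_pos h1, if_pos h2, if_pos, mul_one]
    intro i hi
    rcases Finset.mem_union.1 hi with h | h
    exacts [h1 i h, h2 i h]
  · rw [if_pos h1, if_neg h2, if_neg, mul_zero]
    intro h
    exact h2 fun i hi => h i (Finset.mem_union_right _ hi)
  · rw [if_neg h1, zero_mul, if_neg]
    intro h
    exact h1 fun i hi => h i (Finset.mem_union_left _ hi)
  · rw [if_neg h1, zero_mul, if_neg]
    intro h
    exact h1 fun i hi => h i (Finset.mem_union_left _ hi)

theorem mul_mem {d e : ℕ} {f g : (ι → Bool) → ZMod p} (hf : f ∈ PD (ι := ι) p d)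
    (hg : g ∈ PD (ι := ι) p e) : f * g ∈ PD (ι := ι) p (d + e) := by
  unfold PD at hf
  induction hf using Submodule.span_induction with
  | mem f hf =>
    obtain ⟨S, hS, rfl⟩ := hf
    unfold PD at hg
    induction hg using Submodule.span_induction with
    | mem g hg =>
      obtain ⟨T, hT, rfl⟩ := hg
      rw [mono_mul]
      exact mono_mem ((Finset.card_union_le _ _).trans (Nat.add_le_add hS hT))
    | zero => rw [mul_zero]; exact Submodule.zero_mem _
    | add x y _ _ hx hy => rw [mul_add]; exact Submodule.add_mem _ hx hy
    | smul a x _ hx => rw [mul_smul_comm]; exact Submodule.smul_mem _ _ hx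
  | zero => rw [zero_mul]; exact Submodule.zero_mem _
  | add x y _ _ hx hy => rw [add_mul]; exact Submodule.add_mem _ hx hy
  | smul a x _ hx => rw [smul_mul_assoc]; exact Submodule.smul_mem _ _ hx

theorem one_mem' (d : ℕ) : (1 : (ι → Bool) → ZMod p) ∈ PD (ι := ι) p d := by
  have : (1 : (ι → Bool) → ZMod p) = mono p ∅ := by
    funext x; simp [mono]
  rw [this]
  exact mono_mem (by simp)

theorem const_mem (a : ZMod p) (d : ℕ) : (fun _ => a : (ι → Bool) → ZMod p) ∈ PD (ι := ι) p d := by
  have : (fun _ => a : (ι → Bool) → ZMod p) = a • (1 : (ι → Bool) → ZMod p) := by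
    funext x; simp
  rw [this]
  exact Submodule.smul_mem _ _ (one_mem' d)

theorem pow_mem' {d : ℕ} {f : (ι → Bool) → ZMod p} (hf : f ∈ PD (ι := ι) p d) (k : ℕ) :
    f ^ k ∈ PD (ι := ι) p (k * d) := by
  induction k with
  | zero => rw [pow_zero]; exact one_mem' _
  | succ k ih =>
    rw [pow_succ, Nat.succ_mul]
    exact mul_mem ih hf

/-- A coordinate. -/
def lit (i : ι) : (ι → Bool) → ZMod p := fun x => if x i = true then 1 else 0

theorem lit_mem (i : ι) : lit (p := p) i ∈ PD (ι := ι) p 1 := by
  have : lit (p := p) i = mono p {i} := by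
    funext x; simp [lit, mono]
  rw [this]
  exact mono_mem (by simp)

/-! ### Complementation -/

theorem mono_compl (S : Finset ι) :
    (fun x => mono p S fun i => !x i) ∈ PD (ι := ι) p S.card := by
  induction S using Finset.induction_on with
  | empty =>
    have : (fun x : ι → Bool => mono p (∅ : Finset ι) fun i => !x i) = 1 := by
      funext x; simp [mono]
    rw [this]; exact one_mem' _
  | insert i S hi ih =>
    have : (fun x : ι → Bool => mono p (insert i S) fun i => !x i) =
        (fun x => mono p S fun i => !x i) * (1 - lit i) := by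
      funext x
      simp only [mono, Pi.mul_apply, Pi.sub_apply, Pi.one_apply, lit]
      by_cases h1 : ∀ j ∈ S, (!x j) = true
      · rw [if_pos h1]
        cases h2 : x i
        · rw [if_pos]
          · simp
          · intro j hj
            rcases Finset.mem_insert.1 hj with rfl | hj
            · simp [h2]
            · exact h1 j hj
        · rw [if_neg]
          · simp
          · intro h
            have := h i (Finset.mem_insert_self _ _)
            simp [h2] at this
      · rw [if_neg h1, zero_mul, if_neg]
        intro h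
        exact h1 fun j hj => h j (Finset.mem_insert_of_mem hj)
    rw [this, Finset.card_insert_of_notMem hi]
    exact mul_mem ih (Submodule.sub_mem _ (one_mem' _) (lit_mem i))

theorem compl_mem {d : ℕ} {f : (ι → Bool) → ZMod p} (hf : f ∈ PD (ι := ι) p d) :
    (fun x => f fun i => !x i) ∈ PD (ι := ι) p d := by
  unfold PD at hf
  induction hf using Submodule.span_induction with
  | mem f hf =>
    obtain ⟨S, hS, rfl⟩ := hf
    exact PD_mono hS (mono_compl S)
  | zero => exact Submodule.zero_mem _
  | add x y _ _ hx hy => exact Submodule.add_mem _ hx hy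
  | smul a x _ hx => exact Submodule.smul_mem _ a hx

/-! ### Interpolation -/

/-- The support. -/
def supp (x : ι → Bool) : Finset ι := univ.filter fun i => x i = true

theorem mono_eq (S : Finset ι) (x : ι → Bool) : mono p S x = if S ⊆ supp x then 1 else 0 := by
  unfold mono
  congr 1
  apply propext
  constructor
  · intro h i hi
    simpa [supp] using h i hi
  · intro h i hi
    simpa [supp] using h hi

/-- The indicator. -/
def ind (S : Finset ι) : ι → Bool := fun i => decide (i ∈ S)

theorem ind_supp (x : ι → Bool) : ind (supp x) = x := by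
  funext i
  simp only [ind, supp, mem_filter, mem_univ, true_and]
  cases x i <;> rfl

theorem interp (h : (ι → Bool) → ZMod p) (k : ℕ) : ∃ g ∈ PD (ι := ι) p k,
    ∀ x, (supp x).card ≤ k → g x = h x := by
  induction k with
  | zero =>
    refine ⟨fun _ => h (ind ∅), const_mem _ _, fun x hx => ?_⟩
    have : supp x = ∅ := Finset.card_eq_zero.1 (Nat.le_zero.1 hx)
    rw [← this, ind_supp]
  | succ k ih =>
    obtain ⟨g, hg, hgx⟩ := ih
    let T : Finset (Finset ι) := univ.filter fun S => S.card = k + 1
    refine ⟨g + ∑ S ∈ T, (h (ind S) - g (ind S)) • mono p S, ?_, fun x hx => ?_⟩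
    · refine Submodule.add_mem _ (PD_mono (Nat.le_succ k) hg) (Submodule.sum_mem _ fun S hS => ?_)
      refine Submodule.smul_mem _ _ (mono_mem ?_)
      exact (Finset.mem_filter.1 hS).2.le
    · simp only [Pi.add_apply, Finset.sum_apply, Pi.smul_apply, smul_eq_mul]
      rcases Nat.lt_or_ge (supp x).card (k + 1) with hlt | hge
      · rw [Finset.sum_eq_zero, add_zero, hgx x (by omega)]
        intro S hS
        rw [mono_eq, if_neg, mul_zero]
        intro hsub
        have := Finset.card_le_card hsub
        have := (Finset.mem_filter.1 hS).2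
        omega
      · have hk : (supp x).card = k + 1 := by omega
        rw [Finset.sum_eq_single (supp x)]
        · rw [mono_eq, if_pos (Finset.Subset.refl _), mul_one, ind_supp]
          ring
        · intro S hS hne
          rw [mono_eq, if_neg, mul_zero]
          intro hsub
          apply hne
          refine Finset.eq_of_subset_of_card_le hsub ?_
          have := (Finset.mem_filter.1 hS).2
          omega
        · intro hcon
          exact absurd (show supp x ∈ T from Finset.mem_filter.2 ⟨mem_univ _, hk⟩) hcon

theorem supp_compl (x : ι → Bool) :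
    (supp fun i => !x i).card = Fintype.card ι - (supp x).card := by
  have : (supp fun i => !x i) = (supp x)ᶜ := by
    ext i
    simp only [supp, mem_filter, mem_univ, true_and, mem_compl]
    cases x i <;> simp
  rw [this, Finset.card_compl]

/-! ### The theorem of Razborov and Smolensky -/

theorem card_agree {d m : ℕ} (hm : Fintype.card ι ≤ 2 * m) {g : (ι → Bool) → ZMod p}
    (hg : g ∈ PD (ι := ι) p d) :
    (univ.filter fun x : ι → Bool => g x = if m < (supp x).card then 1 else 0).card ≤
      (univ.filter fun S : Finset ι => S.card ≤ d + m).card := by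
  set G := univ.filter fun x : ι → Bool => g x = if m < (supp x).card then 1 else 0 with hG
  -- restriction of polynomials to `G`
  let r : PD (ι := ι) p (d + m) →ₗ[ZMod p] (G → ZMod p) :=
    (LinearMap.funLeft (ZMod p) (ZMod p) (fun x : G => (x : ι → Bool))).comp (Submodule.subtype _)
  have hsurj : Function.Surjective r := by
    intro h0
    let h : (ι → Bool) → ZMod p := fun x => if hx : x ∈ G then h0 ⟨x, hx⟩ else 0
    obtain ⟨g0, hg0, hg0x⟩ := interp h m
    obtain ⟨g1, hg1, hg1x⟩ := interp (fun x => h fun i => !x i) m
    have hg1' := compl_mem hg1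
    refine ⟨⟨g * (fun x : ι → Bool => g1 fun i => !x i) + (1 - g) * g0, ?_⟩, ?_⟩
    · refine Submodule.add_mem _ (mul_mem hg hg1') (mul_mem ?_ hg0)
      exact Submodule.sub_mem _ (one_mem' _) hg
    · funext ⟨x, hx⟩
      have hx' := (Finset.mem_filter.1 (hG ▸ hx)).2
      change (g * (fun x : ι → Bool => g1 fun i => !x i) + (1 - g) * g0) x = h0 ⟨x, hx⟩
      simp only [Pi.add_apply, Pi.mul_apply, Pi.sub_apply, Pi.one_apply]
      have hh : h x = h0 ⟨x, hx⟩ := by simp only [h]; rw [dif_pos hx]
      by_cases hmx : m < (supp x).card
      · rw [if_pos hmx] at hx'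
        rw [hx', hg1x _ (by rw [supp_compl]; omega), ← hh]
        simp
      · rw [if_neg hmx] at hx'
        rw [hx', hg0x _ (by omega), ← hh]
        simp
  have h1 : Module.finrank (ZMod p) (G → ZMod p) = G.card := by
    rw [Module.finrank_pi, Fintype.card_coe]
  have h2 : Module.finrank (ZMod p) (G → ZMod p) ≤
      Module.finrank (ZMod p) (PD (ι := ι) p (d + m)) :=
    LinearMap.finrank_le_finrank_of_surjective hsurj
  have h3 : Module.finrank (ZMod p) (PD (ι := ι) p (d + m)) ≤
      (univ.filter fun S : Finset ι => S.card ≤ d + m).card := by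
    have e : (mono p '' {S : Finset ι | S.card ≤ d + m}) =
        (((univ.filter fun S : Finset ι => S.card ≤ d + m).image (mono p) :
          Finset ((ι → Bool) → ZMod p)) : Set ((ι → Bool) → ZMod p)) := by
      ext f; simp
    unfold PD
    rw [e]
    exact (finrank_span_finset_le_card _).trans Finset.card_image_le
  omega

theorem central_sq (m : ℕ) : Nat.centralBinom m ^ 2 * (2 * m + 1) ≤ 16 ^ m := by
  induction m with
  | zero => simp
  | succ m ih =>
    have h1 := Nat.succ_mul_centralBinom_succ m
    -- (m+1) c' = 2 (2m+1) c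
    have h2 : (m + 1) ^ 2 * (Nat.centralBinom (m + 1) ^ 2 * (2 * (m + 1) + 1)) ≤
        (m + 1) ^ 2 * 16 ^ (m + 1) := by
      calc (m + 1) ^ 2 * (Nat.centralBinom (m + 1) ^ 2 * (2 * (m + 1) + 1))
          = ((m + 1) * Nat.centralBinom (m + 1)) ^ 2 * (2 * m + 3) := by ring
        _ = (2 * (2 * m + 1) * Nat.centralBinom m) ^ 2 * (2 * m + 3) := by rw [h1]
        _ = (Nat.centralBinom m ^ 2 * (2 * m + 1)) * (4 * ((2 * m + 1) * (2 * m + 3))) := by ring
        _ ≤ 16 ^ m * (4 * (4 * (m + 1) ^ 2)) := by
            refine Nat.mul_le_mul ih (Nat.mul_le_mul_left _ ?_)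
            nlinarith
        _ = (m + 1) ^ 2 * 16 ^ (m + 1) := by ring
    exact Nat.le_of_mul_le_mul_left h2 (by positivity)

theorem card_low {m d : ℕ} (hc : Fintype.card ι = 2 * m) (hd : 16 * (d + 1) ^ 2 ≤ 2 * m + 1) :
    (univ.filter fun S : Finset ι => S.card ≤ d + m).card * 4 ≤ 3 * 2 ^ (2 * m) := by
  have hcount : ∀ j, (univ.filter fun S : Finset ι => S.card = j).card = (2 * m).choose j := by
    intro j
    rw [← hc, ← Finset.card_univ (α := ι), ← Finset.card_powersetCard]
    congr 1
    ext S
    simp [Finset.mem_powersetCard]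
  -- low sets
  have hlow : 2 * (univ.filter fun S : Finset ι => S.card < m).card ≤ 2 ^ (2 * m) := by
    have h1 : (univ.filter fun S : Finset ι => S.card < m).card =
        (univ.filter fun S : Finset ι => m < S.card).card := by
      refine Finset.card_bij (fun S _ => Sᶜ) ?_ ?_ ?_
      · intro S hS
        simp only [mem_filter, mem_univ, true_and] at hS ⊢
        rw [Finset.card_compl]; omega
      · intro S _ T _ h
        exact compl_injective h
      · intro S hS
        refine ⟨Sᶜ, ?_, compl_compl S⟩
        simp only [mem_filter, mem_univ, true_and] at hS ⊢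
        rw [Finset.card_compl]
        have := Finset.card_le_univ S
        omega
    have h2 : Disjoint (univ.filter fun S : Finset ι => S.card < m)
        (univ.filter fun S : Finset ι => m < S.card) := by
      rw [Finset.disjoint_filter]
      intro S _ h; omega
    have h3 := Finset.card_union_of_disjoint h2
    have h4 := Finset.card_le_univ ((univ.filter fun S : Finset ι => S.card < m) ∪
        (univ.filter fun S : Finset ι => m < S.card))
    rw [h3, ← h1, Fintype.card_finset, hc] at h4
    omega
  have hsplit : (univ.filter fun S : Finset ι => S.card ≤ d + m).card ≤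
      (univ.filter fun S : Finset ι => S.card < m).card + (d + 1) * Nat.centralBinom m := by
    have h1 : (univ.filter fun S : Finset ι => S.card ≤ d + m) ⊆
        (univ.filter fun S : Finset ι => S.card < m) ∪
        (Finset.range (d + 1)).biUnion fun j => univ.filter fun S : Finset ι => S.card = m + j := by
      intro S hS
      simp only [mem_filter, mem_univ, true_and] at hS
      simp only [mem_union, mem_filter, mem_univ, true_and, mem_biUnion, mem_range]
      by_cases h : S.card < m
      · exact Or.inl h
      · right
        exact ⟨S.card - m, by omega, by omega⟩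
    refine (Finset.card_le_card h1).trans ((Finset.card_union_le _ _).trans ?_)
    refine Nat.add_le_add_left ?_ _
    refine Finset.card_biUnion_le.trans ?_
    calc ∑ j ∈ Finset.range (d + 1), (univ.filter fun S : Finset ι => S.card = m + j).card
        ≤ ∑ _j ∈ Finset.range (d + 1), Nat.centralBinom m := by
          refine Finset.sum_le_sum fun j _ => ?_
          rw [hcount]
          exact Nat.choose_le_centralBinom _ _
      _ = (d + 1) * Nat.centralBinom m := by simp
  have hcen : 4 * ((d + 1) * Nat.centralBinom m) ≤ 2 ^ (2 * m) := by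
    have h1 := central_sq m
    have h2 : (4 * ((d + 1) * Nat.centralBinom m)) ^ 2 ≤ (2 ^ (2 * m)) ^ 2 := by
      calc (4 * ((d + 1) * Nat.centralBinom m)) ^ 2
          = (16 * (d + 1) ^ 2) * Nat.centralBinom m ^ 2 := by ring
        _ ≤ (2 * m + 1) * Nat.centralBinom m ^ 2 := Nat.mul_le_mul_right _ hd
        _ = Nat.centralBinom m ^ 2 * (2 * m + 1) := by ring
        _ ≤ 16 ^ m := h1
        _ = (2 ^ (2 * m)) ^ 2 := by
            rw [show (16 : ℕ) = 2 ^ 4 by norm_num, ← pow_mul, ← pow_mul]
            congr 1
            ring
    exact (Nat.pow_le_pow_iff_left (by norm_num)).1 h2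
  omega

/-- Majority is not approximated by polynomials of low degree. -/
theorem maj_hard {m d : ℕ} (hc : Fintype.card ι = 2 * m) (hd : 16 * (d + 1) ^ 2 ≤ 2 * m + 1)
    {g : (ι → Bool) → ZMod p} (hg : g ∈ PD (ι := ι) p d) :
    2 ^ (2 * m) ≤
      4 * (univ.filter fun x : ι → Bool => g x ≠ if m < (supp x).card then 1 else 0).card := by
  have h1 := card_agree (m := m) hc.le hg
  have h2 := card_low (ι := ι) hc hd
  have h3 := Finset.card_filter_add_card_filter_not (s := (univ : Finset (ι → Bool)))
    (fun x : ι → Bool => g x = if m < (supp x).card then (1 : ZMod p) else 0)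
  have h4 : (univ : Finset (ι → Bool)).card = 2 ^ (2 * m) := by
    rw [Finset.card_univ, Fintype.card_fun, hc]; simp
  rw [h4] at h3
  have h5 : (univ.filter fun x : ι → Bool => g x ≠ if m < (supp x).card then (1 : ZMod p) else 0) =
      univ.filter fun x : ι → Bool => ¬ (g x = if m < (supp x).card then (1 : ZMod p) else 0) := rfl
  rw [h5]
  omega

end

end Pool.Agent.H23P
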