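import Pool.Agent.H23P.Inst

/-!
Sets of instances which are hard on average for all terms.
-/

namespace Pool.Agent.H23P

open Finset Filter FirstOrder FirstOrder.Language Pool.Agent.H23L

noncomputable section

open scoped Classical

variable (P : RelS) (p : ℕ) [Fact p.Prime]

/-- `S` is hard for the first `K` terms. -/
def GoodS (K σ : ℕ) (S : Finset (Q σ)) : Prop :=
  S.Nonempty ∧ ∀ m < K, ∀ E : ℕ × ℕ → Q σ → Finset ℕ, Simp σ E →
    (S.filter fun q => Valid σ q (ev P p σ (fun x => E x q) (Ten m)).2).card * (2 ^ σ) ^ K ≤ S.card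

theorem eventually_pow_le (C k : ℕ) : ∀ᶠ σ : ℕ in atTop, C * σ ^ k ≤ 2 ^ σ := by
  have h := tendsto_pow_const_div_const_pow_of_one_lt k (r := (2 : ℝ)) (by norm_num)
  have h2 : ∀ᶠ σ : ℕ in atTop, (σ : ℝ) ^ k / 2 ^ σ < 1 / (C + 1) :=
    (tendsto_order.1 h).2 _ (by positivity)
  filter_upwards [h2] with σ hσ
  rw [div_lt_div_iff₀ (by positivity) (by positivity)] at hσ
  have h3 : (C : ℝ) * (σ : ℝ) ^ k ≤ 2 ^ σ := by
    have : (0 : ℝ) ≤ (σ : ℝ) ^ k := by positivity
    nlinarith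
  exact_mod_cast h3

theorem eventually_deg (D : ℕ) : ∀ᶠ σ : ℕ in atTop, 16 * ((D * (3 + 1) * σ) ^ D + 1) ^ 2 ≤ 2 ^ σ := by
  filter_upwards [eventually_pow_le (64 * ((D + 1) * 4) ^ (D * 2)) (D * 2),
    eventually_ge_atTop 1] with σ h1 h2
  refine le_trans ?_ h1
  have h3 : 1 ≤ (((D + 1) * 4) * σ) ^ D := Nat.one_le_pow _ _ (by positivity)
  have h4 : (D * (3 + 1) * σ) ^ D ≤ (((D + 1) * 4) * σ) ^ D := by
    gcongr
    omega
  calc 16 * ((D * (3 + 1) * σ) ^ D + 1) ^ 2
      ≤ 16 * (2 * (((D + 1) * 4) * σ) ^ D) ^ 2 := by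
        gcongr
        omega
    _ = 64 * ((D + 1) * 4) ^ (D * 2) * σ ^ (D * 2) := by
        rw [mul_pow, ← pow_mul, mul_pow]; ring

theorem exists_good (K : ℕ) : ∀ᶠ σ in atTop, ∃ S : Finset (Q σ), GoodS P p K σ S := by
  choose c0 D0 h0 using fun m => cov_ev (p := p) P (Ten m) 4 1
  let D1 := max ((Finset.range K).sup c0) ((Finset.range K).sup D0)
  obtain ⟨D2, h2⟩ := apx_valid (p := p) D1
  let D3 := oD p 1 (max D2 (oD p 2 D1))
  let D4 := oD p (K + 2 + D1) D3
  filter_upwards [eventually_deg D4, eventually_ge_atTop 1] with σ hdeg hσ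
  by_contra hcon
  push Not at hcon
  have hN2 := two_le_N hσ
  -- covering
  let A := {a : ℕ × (ℕ × ℕ → Q σ → Finset ℕ) // a.1 < K ∧ Simp σ a.2}
  let C : A → Q σ → Prop := fun a q => Valid σ q (ev P p σ (fun x => a.1.2 x q) (Ten a.1.1)).2
  have hx : 1 ≤ (2 ^ σ) ^ K := Nat.one_le_pow _ _ (by omega)
  obtain ⟨l, hl, hcov⟩ := greedy_all C ((2 ^ σ) ^ K) (2 ^ σ) hx (by simp) (fun S hS => by
    have h1 := hcon S
    unfold GoodS at h1
    push Not at h1
    obtain ⟨m, hm, E, hE, h3⟩ := h1 hS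
    exact ⟨⟨(m, E), hm, hE⟩, h3⟩)
  -- the functions
  have hC : ∀ a : A, Cov p D1 D1 σ fun q => ev P p σ (fun x => a.1.2 x q) (Ten a.1.1) := by
    intro a
    have h3 := h0 a.1.1 σ hσ a.1.2 a.2.2.1 (fun x => a.2.2.apS hσ x)
    refine h3.mono hσ ?_ ?_
    · exact (Finset.le_sup (f := c0) (Finset.mem_range.2 a.2.1)).trans (le_max_left _ _)
    · exact (Finset.le_sup (f := D0) (Finset.mem_range.2 a.2.1)).trans (le_max_right _ _)
  choose I hI nn F k1 k2 k3 k4 k5 using hC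
  let T := Σ a : Fin l.length, I (l.get a)
  have hT : Fintype.card T ≤ 2 ^ ((K + 2 + D1) * σ) := by
    rw [Fintype.card_sigma]
    calc ∑ a : Fin l.length, Fintype.card (I (l.get a)) ≤ ∑ _a : Fin l.length, 2 ^ (D1 * σ) :=
          Finset.sum_le_sum fun a _ => k1 _
      _ = l.length * 2 ^ (D1 * σ) := by simp
      _ ≤ ((2 ^ σ) ^ K * (2 ^ σ + 1)) * 2 ^ (D1 * σ) := Nat.mul_le_mul_right _ hl
      _ ≤ ((2 ^ σ) ^ K * (2 ^ σ * 2 ^ σ)) * 2 ^ (D1 * σ) := by
          gcongr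
          nlinarith
      _ = 2 ^ ((K + 2 + D1) * σ) := by
          rw [← pow_mul, ← pow_add, ← pow_add, ← pow_add]; congr 1; ring
  have hapx : Apx p σ D4 fun q => ∃ t : T, Valid σ q (F (l.get t.1) t.2 q) ∧
      MajR σ (F (l.get t.1) t.2 q) := by
    refine Apx.ex hσ hT fun t => ?_
    refine Apx.and hσ ?_ ?_
    · exact (h2 σ hσ _ (fun q => k4 _ _ q) (k3 _ _)).mono hσ (le_max_left _ _)
    · exact (apx_maj hσ (k3 _ _)).mono hσ (le_max_right _ _)
  have hmaj : Apx p σ D4 fun q : Q σ => 2 ^ σ < 2 * (supp q).card := by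
    refine hapx.congr fun q => ?_
    constructor
    · rintro ⟨t, h3, h4⟩
      exact (majR_valid h3).1 h4
    · intro h3
      obtain ⟨a, ha, hv⟩ := hcov q
      obtain ⟨i, hi⟩ := List.mem_iff_get.1 ha
      subst hi
      obtain ⟨j, hj⟩ := k5 (l.get i) q
      have h4 : Valid σ q (F (l.get i) j q) := by
        have h5 : Valid σ q (ev P p σ (fun x => (l.get i).1.2 x q) (Ten (l.get i).1.1)).2 := hv
        have hj' : ev P p σ (fun x => (l.get i).1.2 x q) (Ten (l.get i).1.1) =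
          (nn (l.get i) j, F (l.get i) j q) := hj
        rw [hj'] at h5
        exact h5
      exact ⟨⟨i, j⟩, h4, (majR_valid h4).2 h3⟩
  obtain ⟨g, hg, herr⟩ := hmaj 3
  have hm : 2 ^ σ = 2 * 2 ^ (σ - 1) := by
    rw [← pow_succ']; congr 1; omega
  have h3 := maj_hard (ι := Fin (2 ^ σ)) (m := 2 ^ (σ - 1)) (by rw [Fintype.card_fin, hm])
    (hdeg.trans (by rw [← hm]; omega)) hg
  have e : ∀ q : Q σ, bt p (2 ^ σ < 2 * (supp q).card) =
      if 2 ^ (σ - 1) < (supp q).card then 1 else 0 := by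
    intro q
    by_cases h : 2 ^ (σ - 1) < (supp q).card
    · rw [if_pos h, bt_pos (by omega)]
    · rw [if_neg h, bt_neg (by omega)]
  simp only [e] at herr
  rw [← hm] at h3
  set Er := (univ.filter fun x : Q σ => g x ≠ if 2 ^ (σ - 1) < (supp x).card then 1 else 0).card
  have h4 : 8 ≤ 2 ^ (3 * σ) := by
    calc 8 = 2 ^ (3 * 1) := by norm_num
      _ ≤ 2 ^ (3 * σ) := Nat.pow_le_pow_right (by norm_num) (by omega)
  have h5 : 0 < 2 ^ 2 ^ σ := by positivity
  have h6 : Er * 8 ≤ Er * 2 ^ (3 * σ) := Nat.mul_le_mul_left _ h4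
  omega

/-! ### The hard sets -/

omit [Fact p.Prime] in
theorem exists_good_zero (σ : ℕ) : ∃ S : Finset (Q σ), GoodS P p 0 σ S :=
  ⟨univ, univ_nonempty, fun _ hm => absurd hm (Nat.not_lt_zero _)⟩

/-- Number of terms handled at stage `s`. -/
def Kf (s : ℕ) : ℕ := Nat.findGreatest (fun K => ∃ S : Finset (Q (s + 1)), GoodS P p K (s + 1) S) s

omit [Fact p.Prime] in
theorem Kf_spec (s : ℕ) : ∃ S : Finset (Q (s + 1)), GoodS P p (Kf P p s) (s + 1) S :=
  Nat.findGreatest_spec (P := fun K => ∃ S : Finset (Q (s + 1)), GoodS P p K (s + 1) S)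
    (Nat.zero_le s) (exists_good_zero P p (s + 1))

/-- The hard set. -/
def HS (s : ℕ) : Finset (Q (s + 1)) := (Kf_spec P p s).choose

omit [Fact p.Prime] in
theorem HS_good (s : ℕ) : GoodS P p (Kf P p s) (s + 1) (HS P p s) := (Kf_spec P p s).choose_spec

theorem Kf_tend (K : ℕ) : ∀ᶠ s in atTop, K ≤ Kf P p s := by
  have h := (tendsto_add_atTop_nat 1).eventually (exists_good P p K)
  filter_upwards [h, eventually_ge_atTop K] with s h1 h2
  exact Nat.le_findGreatest h2 h1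

/-! ### Strings of families of instances -/

/-- The string of a family of instances. -/
def Ustr {σ : ℕ} (x : Fin (2 ^ σ) × Bool → Q σ) : Finset ℕ :=
  insert (2 * 2 ^ σ * 2 ^ σ) ((range (2 * 2 ^ σ * 2 ^ σ)).filter fun v =>
    ∃ h1 : v / 2 ^ σ / 2 < 2 ^ σ, ∃ h2 : v % 2 ^ σ < 2 ^ σ,
      x (⟨v / 2 ^ σ / 2, h1⟩, decide (v / 2 ^ σ % 2 = 1)) ⟨v % 2 ^ σ, h2⟩ = true)

/-- Index of a block. -/
def bi (k : ℕ) (ε : Bool) : ℕ := 2 * k + if ε then 1 else 0

theorem mem_Ustr {σ : ℕ} (x : Fin (2 ^ σ) × Bool → Q σ) (k : Fin (2 ^ σ)) (ε : Bool)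
    (i : Fin (2 ^ σ)) : bi k ε * 2 ^ σ + i ∈ Ustr x ↔ x (k, ε) i = true := by
  have hN : 0 < 2 ^ σ := by positivity
  have e1 : (bi k ε * 2 ^ σ + i) / 2 ^ σ = bi k ε := by
    rw [mul_comm, Nat.mul_add_div hN, Nat.div_eq_of_lt i.2, add_zero]
  have e2 : (bi k ε * 2 ^ σ + i) % 2 ^ σ = i := by
    rw [mul_comm, Nat.mul_add_mod, Nat.mod_eq_of_lt i.2]
  have e3 : bi k ε / 2 = k := by
    unfold bi
    cases ε
    · simp
    · rw [if_pos rfl]; omega
  have e4 : decide (bi k ε % 2 = 1) = ε := by unfold bi; cases ε <;> simp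
  have e5 : bi k ε * 2 ^ σ + i < 2 * 2 ^ σ * 2 ^ σ := by
    have h1 : bi k ε + 1 ≤ 2 * 2 ^ σ := by
      have := k.2
      unfold bi
      split_ifs <;> omega
    calc bi k ε * 2 ^ σ + i < bi k ε * 2 ^ σ + 2 ^ σ := by have := i.2; omega
      _ = (bi k ε + 1) * 2 ^ σ := by ring
      _ ≤ _ := Nat.mul_le_mul_right _ h1
  unfold Ustr
  rw [mem_insert, mem_filter, mem_range]
  constructor
  · rintro (h | ⟨-, h1, h2, h3⟩)
    · omega
    · have e6 : (⟨(bi k ε * 2 ^ σ + i) / 2 ^ σ / 2, h1⟩ : Fin (2 ^ σ)) = k := 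
        Fin.ext ((congrArg (fun a => a / 2) e1).trans e3)
      have e7 : (⟨(bi k ε * 2 ^ σ + i) % 2 ^ σ, h2⟩ : Fin (2 ^ σ)) = i := Fin.ext e2
      rw [e6, e7, e1, e4] at h3
      exact h3
  · intro h
    refine Or.inr ⟨e5, by rw [e1, e3]; exact k.2, by rw [e2]; exact i.2, ?_⟩
    have e6 : ∀ h1, (⟨(bi k ε * 2 ^ σ + i) / 2 ^ σ / 2, h1⟩ : Fin (2 ^ σ)) = k := fun h1 =>
      Fin.ext ((congrArg (fun a => a / 2) e1).trans e3)
    have e7 : ∀ h2, (⟨(bi k ε * 2 ^ σ + i) % 2 ^ σ, h2⟩ : Fin (2 ^ σ)) = i := fun h2 => Fin.ext e2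
    rw [e6, e7, e1, e4]
    exact h

theorem sl_Ustr {σ : ℕ} (x : Fin (2 ^ σ) × Bool → Q σ) : sl (Ustr x) = 2 * 2 ^ σ * 2 ^ σ + 1 := by
  apply le_antisymm
  · refine sl_le fun i hi => ?_
    unfold Ustr at hi
    rw [mem_insert, mem_filter, mem_range] at hi
    rcases hi with h | h
    · omega
    · omega
  · exact lt_sl (mem_insert_self _ _)

theorem Ustr_le {σ : ℕ} (hσ : 1 ≤ σ) (x : Fin (2 ^ σ) × Bool → Q σ) :
    sl (Ustr x) ≤ 2 ^ (4 * σ) := by
  rw [sl_Ustr, N4]
  have h := two_le_N hσ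
  set N := 2 ^ σ
  have h1 : 4 ≤ N * N := by nlinarith
  nlinarith

/-- Every bit of the string is constant or a bit of one given instance. -/
theorem Ustr_simp {σ : ℕ} (y0 : Fin (2 ^ σ) × Bool → Q σ) (τ : Fin (2 ^ σ) × Bool) (v : ℕ) :
    (∀ q, v ∈ Ustr (Function.update y0 τ q)) ∨ (∀ q, v ∉ Ustr (Function.update y0 τ q)) ∨
    ∃ i, ∀ q, (v ∈ Ustr (Function.update y0 τ q) ↔ q i = true) := by
  have hN : 0 < 2 ^ σ := by positivity
  by_cases h0 : v = 2 * 2 ^ σ * 2 ^ σ
  · left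
    intro q
    rw [h0]
    exact mem_insert_self _ _
  by_cases h1 : v < 2 * 2 ^ σ * 2 ^ σ
  swap
  · right; left
    intro q hv
    unfold Ustr at hv
    rw [mem_insert, mem_filter, mem_range] at hv
    tauto
  have h2 : v / 2 ^ σ / 2 < 2 ^ σ := by
    rw [Nat.div_div_eq_div_mul]
    apply Nat.div_lt_of_lt_mul
    calc v < 2 * 2 ^ σ * 2 ^ σ := h1
      _ = 2 ^ σ * 2 * 2 ^ σ := by ring
  have h3 : v % 2 ^ σ < 2 ^ σ := Nat.mod_lt _ hN
  have key : ∀ x : Fin (2 ^ σ) × Bool → Q σ, v ∈ Ustr x ↔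
      x (⟨v / 2 ^ σ / 2, h2⟩, decide (v / 2 ^ σ % 2 = 1)) ⟨v % 2 ^ σ, h3⟩ = true := by
    intro x
    unfold Ustr
    rw [mem_insert, mem_filter, mem_range]
    constructor
    · rintro (h | ⟨_, _, _, h⟩)
      · exact absurd h h0
      · exact h
    · intro h
      exact Or.inr ⟨h1, h2, h3, h⟩
  by_cases hτ : (⟨v / 2 ^ σ / 2, h2⟩, decide (v / 2 ^ σ % 2 = 1)) = τ
  · right; right
    refine ⟨⟨v % 2 ^ σ, h3⟩, fun q => ?_⟩
    rw [key, hτ, Function.update_self]
  · by_cases hy : y0 (⟨v / 2 ^ σ / 2, h2⟩, decide (v / 2 ^ σ % 2 = 1)) ⟨v % 2 ^ σ, h3⟩ = true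
    · left
      intro q
      rw [key, Function.update_of_ne hτ]
      exact hy
    · right; left
      intro q
      rw [key, Function.update_of_ne hτ]
      exact hy

/-- The values attached to a family of instances. -/
def genR {σ : ℕ} (x : Fin (2 ^ σ) × Bool → Q σ) : ℕ → Bool → Finset ℕ
  | 0, _ => Ustr x
  | k + 1, b => if h : k < 2 ^ σ then Tab (x (⟨k, h⟩, b)) else ∅

theorem sl_genR {σ : ℕ} (hσ : 1 ≤ σ) (x : Fin (2 ^ σ) × Bool → Q σ) (i : ℕ) (b : Bool) :
    sl (genR x i b) ≤ 2 ^ (4 * σ) := by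
  cases i with
  | zero => exact Ustr_le hσ x
  | succ k =>
    simp only [genR]
    split_ifs
    · exact sl_Tab hσ _
    · simp [sl]

/-- Families of hard instances. -/
abbrev XX (s : ℕ) : Type := Fin (2 ^ (s + 1)) × Bool → {q // q ∈ HS P p s}

/-- Forgetting hardness. -/
def raw {s : ℕ} (x : XX P p s) : Fin (2 ^ (s + 1)) × Bool → Q (s + 1) := fun a => (x a).1

omit [Fact p.Prime] in
variable {P p} in
theorem raw_update {s : ℕ} (x : XX P p s) (τ : Fin (2 ^ (s + 1)) × Bool)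
    (z : {q // q ∈ HS P p s}) :
    raw P p (Function.update x τ z) = Function.update (raw P p x) τ z.1 := by
  funext a
  unfold raw
  by_cases h : a = τ
  · subst h; simp
  · simp [Function.update_of_ne h]

theorem hard_aux (m e s : ℕ) (hm : m < Kf P p s) (he : e ≤ Kf P p s) (J : ℕ → Prop)
    (x' : ℕ → XX P p s) (dig : ℕ → ℕ → Bool) (η : ℕ → Bool) (hη : ∀ j, J j → dig j = η)
    (k : ℕ) (hk : k < 2 ^ (s + 1)) (b : Bool) (hcond : nv (Ten m) ≤ k + 1 ∨ η k ≠ b)
    (S : Finset (XX P p s))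
    (hS : ∀ z ∈ S, ∀ E : ℕ × ℕ → Finset ℕ,
      (∀ j i, J j → E (j, i) = genR (raw P p z) i (dig j (i - 1))) →
      (∀ j i, ¬ J j → E (j, i) = genR (raw P p (x' j)) i (dig j (i - 1))) →
      ∃ h : k < 2 ^ (s + 1), Valid (s + 1) (z (⟨k, h⟩, b)).1 (ev P p (s + 1) E (Ten m)).2) :
    S.card * (2 ^ (s + 1)) ^ e ≤ Fintype.card (XX P p s) := by
  have hcard : Fintype.card (XX P p s) =
      Fintype.card {q // q ∈ HS P p s} ^ Fintype.card (Fin (2 ^ (s + 1)) × Bool) := by
    rw [Fintype.card_fun]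
  rw [hcard]
  have hS2 : S = univ.filter fun z => z ∈ S := by ext; simp
  rw [hS2]
  refine Sys.count_fiber (fun z => z ∈ S) (⟨k, hk⟩, b) _ fun y0 => ?_
  set τ : Fin (2 ^ (s + 1)) × Bool := (⟨k, hk⟩, b) with hτ
  let EE : ℕ × ℕ → Q (s + 1) → Finset ℕ := fun a q =>
    if a.1 < nv (Ten m) ∧ a.2 < nv (Ten m) then
      (if J a.1 then genR (Function.update (raw P p y0) τ q) a.2 (dig a.1 (a.2 - 1))
        else genR (raw P p (x' a.1)) a.2 (dig a.1 (a.2 - 1)))
    else ∅
  have hsimp : Simp (s + 1) EE := by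
    constructor
    · intro a q
      simp only [EE]
      split_ifs
      · exact sl_genR (by omega) _ _ _
      · exact sl_genR (by omega) _ _ _
      · simp [sl]
    · rintro ⟨j, i⟩ v
      simp only [EE]
      by_cases h1 : j < nv (Ten m) ∧ i < nv (Ten m)
      swap
      · right; left
        intro q
        rw [if_neg h1]
        simp
      · by_cases h2 : J j
        swap
        · by_cases h3 : v ∈ genR (raw P p (x' j)) i (dig j (i - 1))
          · left; intro q; rw [if_pos h1, if_neg h2]; exact h3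
          · right; left; intro q; rw [if_pos h1, if_neg h2]; exact h3
        · simp only [if_pos h1, if_pos h2]
          cases i with
          | zero => exact Ustr_simp _ _ _
          | succ k' =>
            simp only [genR]
            by_cases h3 : k' < 2 ^ (s + 1)
            swap
            · right; left; intro q; rw [dif_neg h3]; simp
            · simp only [dif_pos h3]
              have h4 : (⟨k', h3⟩, dig j (k' + 1 - 1)) ≠ τ := by
                intro h5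
                rw [hτ, Prod.mk.injEq, Fin.mk.injEq, Nat.add_sub_cancel, hη j h2] at h5
                rcases hcond with h6 | h6
                · omega
                · rw [h5.1] at h5
                  exact h6 h5.2
              by_cases h5 : v ∈ Tab (raw P p y0 (⟨k', h3⟩, dig j (k' + 1 - 1)))
              · left; intro q; rw [Function.update_of_ne h4]; exact h5
              · right; left; intro q; rw [Function.update_of_ne h4]; exact h5
  have hgood := (HS_good P p s).2 m hm EE hsimp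
  have hle : (univ.filter fun z => Function.update y0 τ z ∈ S).card ≤
      ((HS P p s).filter fun q => Valid (s + 1) q
        (ev P p (s + 1) (fun x => EE x q) (Ten m)).2).card := by
    refine Finset.card_le_card_of_injOn (fun z => z.1) ?_ (fun a _ b _ h => Subtype.ext h)
    intro z hz
    simp only [coe_filter, mem_univ, true_and, Set.mem_ofPred_eq] at hz
    simp only [coe_filter, Set.mem_ofPred_eq]
    refine ⟨z.2, ?_⟩
    let E : ℕ × ℕ → Finset ℕ := fun a =>
      if J a.1 then genR (raw P p (Function.update y0 τ z)) a.2 (dig a.1 (a.2 - 1))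
        else genR (raw P p (x' a.1)) a.2 (dig a.1 (a.2 - 1))
    obtain ⟨_, h1⟩ := hS _ hz E (fun j i hj => if_pos hj) (fun j i hj => if_neg hj)
    rw [← hτ, Function.update_self] at h1
    have h2 : ev P p (s + 1) E (Ten m) = ev P p (s + 1) (fun x => EE x z.1) (Ten m) := by
      apply nv_spec
      intro j hj i hi
      simp only [E, EE]
      rw [if_pos (show j < nv (Ten m) ∧ i < nv (Ten m) from ⟨hj, hi⟩), raw_update]
    rw [h2] at h1
    exact h1
  have hN : 1 ≤ 2 ^ (s + 1) := Nat.one_le_two_pow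
  calc (univ.filter fun z => Function.update y0 τ z ∈ S).card * (2 ^ (s + 1)) ^ e
      ≤ ((HS P p s).filter fun q => Valid (s + 1) q
        (ev P p (s + 1) (fun x => EE x q) (Ten m)).2).card * (2 ^ (s + 1)) ^ Kf P p s :=
        Nat.mul_le_mul hle (Nat.pow_le_pow_right hN he)
    _ ≤ (HS P p s).card := hgood
    _ = Fintype.card {q // q ∈ HS P p s} := by simp

/-- The system. -/
def Y : Sys (Finset ℕ) where
  n := fun s => 2 ^ (s + 1)
  n_ge := fun s => two_le_N (by omega)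
  X := fun s => XX P p s
  fX := fun s => inferInstance
  nX := fun s => ⟨fun _ => ⟨(HS_good P p s).1.choose, (HS_good P p s).1.choose_spec⟩⟩
  gen := fun s x i b => genR (raw P p x) i b
  f := fun m s E => (ev P p (s + 1) E (Ten m)).1
  df := fun m => nv (Ten m)
  cf := fun m => (ev_num (Ten m)).choose
  f_dep := fun m s E E' h => by rw [nv_spec (Ten m) h]
  f_bd := fun m s E => by
    rw [← pow_mul, mul_comm]
    exact (ev_num (Ten m)).choose_spec P p (s + 1) E
  bad := fun m s x k b E => ∃ h : k < 2 ^ (s + 1),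
    Valid (s + 1) (x (⟨k, h⟩, b)).1 (ev P p (s + 1) E (Ten m)).2
  dg := fun m => nv (Ten m)
  bad_dep := fun m s x k b E E' h h1 => by
    obtain ⟨h2, h3⟩ := h1
    exact ⟨h2, by rw [← nv_spec (Ten m) h]; exact h3⟩
  L := fun s => 2 ^ (s + 1)
  L_le := fun s => le_rfl
  hard := fun m e => by
    filter_upwards [Kf_tend P p (max (m + 1) e)] with s hs
    intro J x' dig η hη k hk b hc S hS
    exact hard_aux P p m e s (by omega) (by omega) J x' dig η hη k hk b hc S hS

end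

end Pool.Agent.H23P
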