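import Pool.Agent.H23P.Cov

/-!
Instances (random strings), their tables of counts, and the hardness of finding the table.
-/

namespace Pool.Agent.H23P

open Finset FirstOrder FirstOrder.Language

noncomputable section

open scoped Classical

/-- Instances. -/
abbrev Q (σ : ℕ) := Fin (2 ^ σ) → Bool

/-- Number of true positions below `i`. -/
def cnt {σ : ℕ} (q : Q σ) (i : ℕ) : ℕ := (univ.filter fun j : Fin (2 ^ σ) => (j : ℕ) < i ∧ q j = true).card

theorem cnt_zero {σ : ℕ} (q : Q σ) : cnt q 0 = 0 := by simp [cnt]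

theorem cnt_succ {σ : ℕ} (q : Q σ) {i : ℕ} (h : i < 2 ^ σ) :
    cnt q (i + 1) = cnt q i + if q ⟨i, h⟩ = true then 1 else 0 := by
  unfold cnt
  by_cases hq : q ⟨i, h⟩ = true
  · rw [if_pos hq]
    have : (univ.filter fun j : Fin (2 ^ σ) => (j : ℕ) < i + 1 ∧ q j = true) =
        insert ⟨i, h⟩ (univ.filter fun j : Fin (2 ^ σ) => (j : ℕ) < i ∧ q j = true) := by
      ext j
      simp only [mem_filter, mem_univ, true_and, mem_insert]
      constructor
      · rintro ⟨h1, h2⟩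
        rcases Nat.lt_succ_iff_lt_or_eq.1 h1 with h3 | h3
        · exact Or.inr ⟨h3, h2⟩
        · exact Or.inl (Fin.ext h3)
      · rintro (rfl | ⟨h1, h2⟩)
        · exact ⟨Nat.lt_succ_self _, hq⟩
        · exact ⟨h1.trans (Nat.lt_succ_self _), h2⟩
    rw [this, Finset.card_insert_of_notMem (by simp)]
  · rw [if_neg hq, add_zero]
    congr 1
    ext j
    simp only [mem_filter, mem_univ, true_and]
    constructor
    · rintro ⟨h1, h2⟩
      refine ⟨?_, h2⟩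
      rcases Nat.lt_succ_iff_lt_or_eq.1 h1 with h3 | h3
      · exact h3
      · exfalso
        apply hq
        have : j = ⟨i, h⟩ := Fin.ext h3
        rw [← this]; exact h2
    · rintro ⟨h1, h2⟩
      exact ⟨h1.trans (Nat.lt_succ_self _), h2⟩

theorem cnt_le {σ : ℕ} (q : Q σ) (i : ℕ) : cnt q i ≤ 2 ^ σ := by
  unfold cnt
  refine (Finset.card_le_univ _).trans ?_
  simp

theorem cnt_full {σ : ℕ} (q : Q σ) : cnt q (2 ^ σ) = (supp q).card := by
  unfold cnt supp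
  congr 1
  ext j
  simp

/-- `y` is the table of counts of `q`. -/
def Valid (σ : ℕ) (q : Q σ) (y : Finset ℕ) : Prop :=
  (∀ c ≤ 2 ^ σ, (c ∈ y ↔ c = 0)) ∧ ∀ i, ∀ h : i < 2 ^ σ, ∀ c ≤ 2 ^ σ,
    ((i + 1) * (2 ^ σ + 1) + c ∈ y ↔
      (q ⟨i, h⟩ = true ∧ ∃ d ≤ 2 ^ σ, d + 1 = c ∧ i * (2 ^ σ + 1) + d ∈ y) ∨
      (¬ q ⟨i, h⟩ = true ∧ i * (2 ^ σ + 1) + c ∈ y))

theorem valid_iff {σ : ℕ} {q : Q σ} {y : Finset ℕ} : Valid σ q y ↔
    ∀ i ≤ 2 ^ σ, ∀ c ≤ 2 ^ σ, (i * (2 ^ σ + 1) + c ∈ y ↔ c = cnt q i) := by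
  constructor
  · rintro ⟨h1, h2⟩ i
    induction i with
    | zero =>
      intro _ c hc
      rw [cnt_zero, zero_mul, zero_add]
      exact h1 c hc
    | succ i ih =>
      intro hi c hc
      have hi' : i < 2 ^ σ := hi
      rw [h2 i hi' c hc, cnt_succ q hi']
      have ih' := ih hi'.le
      by_cases hq : q ⟨i, hi'⟩ = true
      · rw [if_pos hq]
        constructor
        · rintro (⟨-, d, hd, h3, h4⟩ | ⟨h3, -⟩)
          · rw [ih' d hd] at h4
            omega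
          · exact absurd hq h3
        · intro h3
          refine Or.inl ⟨hq, cnt q i, cnt_le q i, h3.symm, ?_⟩
          rw [ih' _ (cnt_le q i)]
      · rw [if_neg hq, add_zero]
        constructor
        · rintro (⟨h3, -⟩ | ⟨-, h3⟩)
          · exact absurd h3 hq
          · exact (ih' c hc).1 h3
        · intro h3
          exact Or.inr ⟨hq, (ih' c hc).2 h3⟩
  · intro h
    refine ⟨fun c hc => ?_, fun i hi c hc => ?_⟩
    · have := h 0 (Nat.zero_le _) c hc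
      rw [cnt_zero, zero_mul, zero_add] at this
      exact this
    · rw [h (i + 1) hi c hc, cnt_succ q hi]
      by_cases hq : q ⟨i, hi⟩ = true
      · rw [if_pos hq]
        constructor
        · intro h3
          refine Or.inl ⟨hq, cnt q i, cnt_le q i, h3.symm, ?_⟩
          rw [h i hi.le _ (cnt_le q i)]
        · rintro (⟨-, d, hd, h3, h4⟩ | ⟨h3, -⟩)
          · rw [h i hi.le d hd] at h4
            omega
          · exact absurd hq h3
      · rw [if_neg hq, add_zero]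
        constructor
        · intro h3
          exact Or.inr ⟨hq, (h i hi.le c hc).2 h3⟩
        · rintro (⟨h3, -⟩ | ⟨-, h3⟩)
          · exact absurd h3 hq
          · exact (h i hi.le c hc).1 h3

/-- The table of counts. -/
def Tab {σ : ℕ} (q : Q σ) : Finset ℕ :=
  (range ((2 ^ σ + 1) * (2 ^ σ + 1))).filter fun v => v % (2 ^ σ + 1) = cnt q (v / (2 ^ σ + 1))

theorem valid_Tab {σ : ℕ} (q : Q σ) : Valid σ q (Tab q) := by
  rw [valid_iff]
  intro i hi c hc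
  unfold Tab
  have hc' : c < 2 ^ σ + 1 := Nat.lt_succ_of_le hc
  have e1 : (i * (2 ^ σ + 1) + c) % (2 ^ σ + 1) = c := by
    rw [mul_comm, Nat.mul_add_mod, Nat.mod_eq_of_lt hc']
  have e2 : (i * (2 ^ σ + 1) + c) / (2 ^ σ + 1) = i := by
    rw [mul_comm, Nat.mul_add_div (by omega), Nat.div_eq_of_lt hc', add_zero]
  rw [mem_filter, mem_range, e1, e2]
  have : i * (2 ^ σ + 1) + c < (2 ^ σ + 1) * (2 ^ σ + 1) := by nlinarith
  exact ⟨fun h => h.2, fun h => ⟨this, h⟩⟩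

theorem two_le_N {σ : ℕ} (hσ : 1 ≤ σ) : 2 ≤ 2 ^ σ := by
  calc 2 = 2 ^ 1 := rfl
    _ ≤ 2 ^ σ := Nat.pow_le_pow_right (by norm_num) hσ

theorem N4 (σ : ℕ) : 2 ^ (4 * σ) = 2 ^ σ * 2 ^ σ * (2 ^ σ * 2 ^ σ) := by
  rw [← pow_add, ← pow_add]; congr 1; ring

theorem sl_Tab {σ : ℕ} (hσ : 1 ≤ σ) (q : Q σ) : sl (Tab q) ≤ 2 ^ (4 * σ) := by
  refine sl_le fun i hi => ?_
  unfold Tab at hi
  rw [mem_filter, mem_range] at hi
  refine hi.1.trans_le ?_
  rw [N4]
  have h := two_le_N hσ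
  refine Nat.mul_le_mul ?_ ?_ <;> nlinarith

/-- The string of an instance. -/
def qs {σ : ℕ} (q : Q σ) : Finset ℕ :=
  Finset.image (fun i : Fin (2 ^ σ) => (i : ℕ)) (univ.filter fun i : Fin (2 ^ σ) => q i = true)

theorem mem_qs {σ : ℕ} {q : Q σ} {i : ℕ} (h : i < 2 ^ σ) : i ∈ qs q ↔ q ⟨i, h⟩ = true := by
  unfold qs
  rw [mem_image]
  constructor
  · rintro ⟨j, hj, rfl⟩
    exact (mem_filter.1 hj).2
  · intro hq
    exact ⟨⟨i, h⟩, by simpa using hq, rfl⟩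

theorem sl_qs {σ : ℕ} (q : Q σ) : sl (qs q) ≤ 2 ^ σ := by
  refine sl_le fun i hi => ?_
  unfold qs at hi
  rw [mem_image] at hi
  obtain ⟨j, -, rfl⟩ := hi
  exact j.2

/-- Simple environments: every bit is constant or a bit of the instance. -/
def Simp (σ : ℕ) (E : ℕ × ℕ → Q σ → Finset ℕ) : Prop :=
  (∀ x q, sl (E x q) ≤ 2 ^ (4 * σ)) ∧ ∀ x v, (∀ q, v ∈ E x q) ∨ (∀ q, v ∉ E x q) ∨
    ∃ i, ∀ q, (v ∈ E x q ↔ q i = true)

variable (P : RelS) {p : ℕ} [Fact p.Prime]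

theorem Simp.apS {σ : ℕ} (hσ : 1 ≤ σ) {E : ℕ × ℕ → Q σ → Finset ℕ} (h : Simp σ E) (x : ℕ × ℕ) :
    ApS p σ 1 (E x) := by
  intro v
  rcases h.2 x v with h1 | h1 | ⟨i, h1⟩
  · exact (Apx.const True).congr fun q => by simp [h1 q]
  · exact (Apx.const False).congr fun q => by simp [h1 q]
  · exact (Apx.lit i hσ le_rfl).congr fun q => (h1 q).symm

/-! ### Formulas -/

def fNot (φ : Fm) : Fm := .imp φ .bot
def fAnd (φ ψ : Fm) : Fm := fNot (.imp φ (fNot ψ))
def fOr (φ ψ : Fm) : Fm := .imp (fNot φ) ψ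
def fIff (φ ψ : Fm) : Fm := fAnd (.imp φ ψ) (.imp ψ φ)
def fExN (k : ℕ) (t : NTm) (φ : Fm) : Fm := fNot (.allN k t (fNot φ))

theorem sat_fNot (M : Two) (v : ℕ → M.N1) (w : ℕ → M.N2) (φ : Fm) :
    Sat M v w (fNot φ) ↔ ¬ Sat M v w φ := Iff.rfl
theorem sat_fAnd (M : Two) (v : ℕ → M.N1) (w : ℕ → M.N2) (φ ψ : Fm) :
    Sat M v w (fAnd φ ψ) ↔ Sat M v w φ ∧ Sat M v w ψ := by
  simp only [fAnd, sat_fNot, Sat]; tauto
theorem sat_fOr (M : Two) (v : ℕ → M.N1) (w : ℕ → M.N2) (φ ψ : Fm) :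
    Sat M v w (fOr φ ψ) ↔ Sat M v w φ ∨ Sat M v w ψ := by
  simp only [fOr, sat_fNot, Sat]; tauto
theorem sat_fIff (M : Two) (v : ℕ → M.N1) (w : ℕ → M.N2) (φ ψ : Fm) :
    Sat M v w (fIff φ ψ) ↔ (Sat M v w φ ↔ Sat M v w ψ) := by
  simp only [fIff, sat_fAnd, Sat]; tauto
theorem sat_fExN (M : Two) (v : ℕ → M.N1) (w : ℕ → M.N2) (k : ℕ) (t : NTm) (φ : Fm) :
    Sat M v w (fExN k t φ) ↔ ∃ a, M.le a (t.val M v w) ∧ Sat M (Function.update v k a) w φ := by
  simp only [fExN, sat_fNot, Sat]; push Not; rfl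

/-- `y` is the table of counts of block `r` of `x`, blocks having size `N`. -/
def CntR (M : Two) (x y : M.N2) (r N : M.N1) : Prop :=
  (∀ c, M.le c N → (M.mem c y ↔ c = M.zero)) ∧
  ∀ i, M.le i N → (M.le (M.add i M.one) N → ∀ c, M.le c N →
    (M.mem (M.add (M.mul (M.add i M.one) (M.add N M.one)) c) y ↔
      (M.mem (M.add (M.mul r N) i) x ∧ ∃ d, M.le d N ∧ (M.add d M.one = c ∧
        M.mem (M.add (M.mul i (M.add N M.one)) d) y)) ∨
      (¬ M.mem (M.add (M.mul r N) i) x ∧ M.mem (M.add (M.mul i (M.add N M.one)) c) y)))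

/-- `CntR` as a formula: numbers `0 = r`, `1 = N`, strings `0 = x`, `1 = y`. -/
def fCnt : Fm :=
  fAnd (.allN 2 (.var 1) (fIff (.mem (.var 2) 1) (.eq (.var 2) .zero)))
    (.allN 2 (.var 1) (.imp (.le (.add (.var 2) .one) (.var 1)) (.allN 3 (.var 1)
      (fIff (.mem (.add (.mul (.add (.var 2) .one) (.add (.var 1) .one)) (.var 3)) 1)
        (fOr (fAnd (.mem (.add (.mul (.var 0) (.var 1)) (.var 2)) 0)
          (fExN 4 (.var 1) (fAnd (.eq (.add (.var 4) .one) (.var 3))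
            (.mem (.add (.mul (.var 2) (.add (.var 1) .one)) (.var 4)) 1))))
        (fAnd (fNot (.mem (.add (.mul (.var 0) (.var 1)) (.var 2)) 0))
          (.mem (.add (.mul (.var 2) (.add (.var 1) .one)) (.var 3)) 1)))))))

theorem isSB0_fCnt : IsSB0 fCnt := by
  unfold fCnt fIff fAnd fOr fExN fNot
  repeat' first | exact .bot | exact .mem _ _ | exact .le _ _ | exact .eq _ _ | apply IsSB0.imp | apply IsSB0.allN

theorem isPure_fCnt : IsPure fCnt := by
  unfold fCnt fIff fAnd fOr fExN fNot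
  repeat' first | exact .bot | exact .mem _ _ | exact .le _ _ | exact .eq _ _ | apply IsPure.imp | apply IsPure.allN

theorem sat_fCnt (M : Two) (v : ℕ → M.N1) (w : ℕ → M.N2) :
    Sat M v w fCnt ↔ CntR M (w 0) (w 1) (v 0) (v 1) := by
  unfold fCnt CntR
  simp only [sat_fAnd, sat_fOr, sat_fExN, sat_fIff, sat_fNot, Sat, NTm.val, Function.update_self,
    Function.update_of_ne (show (0 : ℕ) ≠ 2 by norm_num),
    Function.update_of_ne (show (0 : ℕ) ≠ 3 by norm_num),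
    Function.update_of_ne (show (1 : ℕ) ≠ 2 by norm_num),
    Function.update_of_ne (show (1 : ℕ) ≠ 3 by norm_num),
    Function.update_of_ne (show (1 : ℕ) ≠ 4 by norm_num),
    Function.update_of_ne (show (2 : ℕ) ≠ 3 by norm_num),
    Function.update_of_ne (show (2 : ℕ) ≠ 4 by norm_num),
    Function.update_of_ne (show (3 : ℕ) ≠ 4 by norm_num)]

/-- The meaning of `CntR` in the standard structure. -/
theorem cntR_std {σ r : ℕ} {x y : Finset ℕ} {q : Q σ}
    (hb : ∀ i, ∀ h : i < 2 ^ σ, (r * 2 ^ σ + i ∈ x ↔ q ⟨i, h⟩ = true)) :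
    CntR (std P) x y r (2 ^ σ : ℕ) ↔ Valid σ q y := by
  have h1 : CntR (std P) x y r (2 ^ σ : ℕ) ↔ (∀ c : ℕ, c ≤ 2 ^ σ → (c ∈ y ↔ c = 0)) ∧
      ∀ i : ℕ, i ≤ 2 ^ σ → (i + 1 ≤ 2 ^ σ → ∀ c : ℕ, c ≤ 2 ^ σ →
        ((i + 1) * (2 ^ σ + 1) + c ∈ y ↔
        (r * 2 ^ σ + i ∈ x ∧ ∃ d : ℕ, d ≤ 2 ^ σ ∧ (d + 1 = c ∧ i * (2 ^ σ + 1) + d ∈ y)) ∨
        (¬ r * 2 ^ σ + i ∈ x ∧ i * (2 ^ σ + 1) + c ∈ y))) := Iff.rfl
  rw [h1]
  unfold Valid
  refine and_congr Iff.rfl ⟨fun h i hi c hc => ?_, fun h i _ hi c hc => ?_⟩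
  · rw [h i hi.le hi c hc, hb i hi]
  · rw [h i hi c hc, hb i hi]

/-! ### Majority -/

def MajR (σ : ℕ) (y : Finset ℕ) : Prop :=
  ∃ c ≤ 2 ^ σ, 2 ^ σ + 1 ≤ c + c ∧ 2 ^ σ * (2 ^ σ + 1) + c ∈ y

theorem majR_valid {σ : ℕ} {q : Q σ} {y : Finset ℕ} (h : Valid σ q y) :
    MajR σ y ↔ 2 ^ σ < 2 * (supp q).card := by
  rw [valid_iff] at h
  unfold MajR
  constructor
  · rintro ⟨c, hc, h1, h2⟩
    rw [h _ le_rfl c hc, cnt_full] at h2
    omega
  · intro h1
    refine ⟨cnt q (2 ^ σ), cnt_le q _, ?_, ?_⟩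
    · rw [cnt_full]; omega
    · rw [h _ le_rfl _ (cnt_le q _)]

/-- No relations. -/
def P0 : RelS := fun _ _ _ => False

theorem apx_valid (D : ℕ) : ∃ D', ∀ σ, 1 ≤ σ → ∀ F : Q σ → Finset ℕ,
    (∀ q, sl (F q) ≤ 2 ^ (D * σ)) → ApS p σ D F → Apx p σ D' fun q => Valid σ q (F q) := by
  obtain ⟨D', hD'⟩ := ap_sat (p := p) P0 isSB0_fCnt isPure_fCnt (max D 1) (max D 1)
  refine ⟨D', fun σ hσ F hF hA => ?_⟩
  have hp : ∀ {x y : ℕ}, x ≤ y → 2 ^ (x * σ) ≤ 2 ^ (y * σ) := fun h =>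
    Nat.pow_le_pow_right (by norm_num) (Nat.mul_le_mul_right _ h)
  refine (hD' σ hσ (fun i => if i = 0 then 0 else 2 ^ σ) (fun j q => if j = 0 then qs q else F q)
    (fun i => ?_) (fun j q => ?_) (fun j => ?_)).congr fun q => ?_
  · split_ifs
    · exact Nat.zero_le _
    · exact le_trans (by rw [one_mul]) (hp (le_max_right D 1))
  · split_ifs
    · exact (sl_qs q).trans (le_trans (by rw [one_mul]) (hp (le_max_right D 1)))
    · exact (hF q).trans (hp (le_max_left _ _))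
  · split_ifs
    · intro i
      by_cases hi : i < 2 ^ σ
      · exact (Apx.lit ⟨i, hi⟩ hσ (le_max_right D 1)).congr fun q => (mem_qs hi).symm
      · refine (Apx.const False).congr fun q => ?_
        constructor
        · exact False.elim
        · intro h
          exact hi ((lt_sl h).trans_le (sl_qs q))
    · exact hA.mono hσ (le_max_left _ _)
  · have h1 := sat_fCnt (std P0) (fun i => if i = 0 then (0 : ℕ) else (2 ^ σ : ℕ))
      (fun j => if j = 0 then qs q else F q)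
    refine h1.trans ?_
    exact cntR_std P0 (x := qs q) (y := F q) (r := 0) fun i hi => by
      rw [zero_mul, zero_add]; exact mem_qs hi

theorem apx_maj {σ D : ℕ} (hσ : 1 ≤ σ) {F : Q σ → Finset ℕ} (hA : ApS p σ D F) :
    Apx p σ (oD p 2 D) fun q => MajR σ (F q) := by
  refine Apx.ex_le (c := 1) (B := 2 ^ σ) hσ (by rw [one_mul])
    (f := fun c q => 2 ^ σ + 1 ≤ c + c ∧ 2 ^ σ * (2 ^ σ + 1) + c ∈ F q) fun a _ => ?_
  exact ((hA _).and_const _).congr fun q => by tauto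

/-! ### Covering all instances is impossible -/

theorem pow_aux (a n : ℕ) : a ^ n * (a + n) ≤ a * (a + 1) ^ n := by
  induction n with
  | zero => simp
  | succ n ih =>
    have h1 : (a + 1) * (a ^ n * (a + n)) ≤ a * (a + 1) ^ (n + 1) := by
      calc (a + 1) * (a ^ n * (a + n)) ≤ (a + 1) * (a * (a + 1) ^ n) := Nat.mul_le_mul_left _ ih
        _ = a * (a + 1) ^ (n + 1) := by ring
    refine le_trans ?_ h1
    have h2 : a ^ (n + 1) * (a + (n + 1)) = a * (a ^ n * (a + n)) + a ^ n * a := by ring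
    have h3 : (a + 1) * (a ^ n * (a + n)) = a * (a ^ n * (a + n)) + a ^ n * (a + n) := by ring
    rw [h2, h3]
    gcongr
    omega

theorem pow_aux2 (x : ℕ) (hx : 1 ≤ x) : 2 * (x - 1) ^ x ≤ x ^ x := by
  obtain ⟨a, rfl⟩ : ∃ a, x = a + 1 := ⟨x - 1, by omega⟩
  rw [Nat.add_sub_cancel]
  rcases Nat.eq_zero_or_pos a with rfl | ha
  · simp
  have h1 := pow_aux a a
  have h2 : 2 * a ^ a ≤ (a + 1) ^ a := by
    have : a * (2 * a ^ a) ≤ a * (a + 1) ^ a := by
      calc a * (2 * a ^ a) = a ^ a * (a + a) := by ring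
        _ ≤ _ := h1
    exact Nat.le_of_mul_le_mul_left this ha
  calc 2 * a ^ (a + 1) = a * (2 * a ^ a) := by ring
    _ ≤ (a + 1) * (a + 1) ^ a := Nat.mul_le_mul (Nat.le_succ a) h2
    _ = (a + 1) ^ (a + 1) := by ring

theorem greedy {A X : Type} [Fintype X] (C : A → X → Prop) (x : ℕ) (hx : 1 ≤ x)
    (h : ∀ S : Finset X, S.Nonempty → ∃ a, S.card < (S.filter (C a)).card * x) (r : ℕ) :
    ∃ l : List A, l.length ≤ r ∧
      (univ.filter fun q => ∀ a ∈ l, ¬ C a q).card * x ^ r ≤ Fintype.card X * (x - 1) ^ r := by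
  induction r with
  | zero => exact ⟨[], le_rfl, by simp⟩
  | succ r ih =>
    obtain ⟨l, hl, hc⟩ := ih
    set S := univ.filter fun q => ∀ a ∈ l, ¬ C a q with hS
    rcases S.eq_empty_or_nonempty with h0 | h0
    · refine ⟨l, by omega, ?_⟩
      rw [← hS, h0]
      simp
    · obtain ⟨a, ha⟩ := h S h0
      refine ⟨a :: l, by simp; omega, ?_⟩
      have e : (univ.filter fun q => ∀ b ∈ a :: l, ¬ C b q) = S.filter fun q => ¬ C a q := by
        ext q
        simp only [hS, mem_filter, mem_univ, true_and, List.mem_cons, forall_eq_or_imp]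
        tauto
      rw [e]
      have h1 := Finset.card_filter_add_card_filter_not (s := S) (C a)
      set u := (S.filter (C a)).card
      set w := (S.filter fun q => ¬ C a q).card
      have h2 : w * x ≤ S.card * (x - 1) := by
        obtain ⟨y, rfl⟩ : ∃ y, x = y + 1 := ⟨x - 1, by omega⟩
        rw [Nat.add_sub_cancel]
        nlinarith
      calc w * x ^ (r + 1) = (w * x) * x ^ r := by ring
        _ ≤ (S.card * (x - 1)) * x ^ r := Nat.mul_le_mul_right _ h2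
        _ = (S.card * x ^ r) * (x - 1) := by ring
        _ ≤ (Fintype.card X * (x - 1) ^ r) * (x - 1) := Nat.mul_le_mul_right _ hc
        _ = Fintype.card X * (x - 1) ^ (r + 1) := by ring

theorem greedy_all {A X : Type} [Fintype X] (C : A → X → Prop) (x N : ℕ) (hx : 1 ≤ x)
    (hN : Fintype.card X ≤ 2 ^ N)
    (h : ∀ S : Finset X, S.Nonempty → ∃ a, S.card < (S.filter (C a)).card * x) :
    ∃ l : List A, l.length ≤ x * (N + 1) ∧ ∀ q, ∃ a ∈ l, C a q := by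
  obtain ⟨l, hl, hc⟩ := greedy C x hx h (x * (N + 1))
  refine ⟨l, hl, fun q => ?_⟩
  by_contra hcon
  push Not at hcon
  have h1 : 1 ≤ (univ.filter fun q => ∀ a ∈ l, ¬ C a q).card :=
    Finset.card_pos.2 ⟨q, by simpa using hcon⟩
  have h2 : 2 ^ (N + 1) * (x - 1) ^ (x * (N + 1)) ≤ x ^ (x * (N + 1)) := by
    rw [pow_mul, pow_mul, ← mul_pow]
    exact Nat.pow_le_pow_left (pow_aux2 x hx) _
  have h3 : 0 < x ^ (x * (N + 1)) := pow_pos hx _
  have h4 : x ^ (x * (N + 1)) ≤ 2 ^ N * (x - 1) ^ (x * (N + 1)) := by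
    calc x ^ (x * (N + 1)) = 1 * x ^ (x * (N + 1)) := (one_mul _).symm
      _ ≤ _ := Nat.mul_le_mul_right _ h1
      _ ≤ _ := hc
      _ ≤ _ := Nat.mul_le_mul_right _ hN
  rw [pow_succ] at h2
  nlinarith

end

end Pool.Agent.H23P
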