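import Mathlib

/-!
The two-sorted language of bounded arithmetic (numbers and strings, i.e. finite sets of numbers),
with additional relation symbols, its structures, its standard structures, and the classes of
bounded formulas.
-/

namespace Pool.Agent.H23P

/-- Number terms, built from number variables `x_i`, `0`, `1`, `+`, `·` and the lengths `|X_j|`
of string variables `X_j`. -/
inductive NTm : Type
  | var (i : ℕ) : NTm
  | zero : NTm
  | one : NTm
  | add (t u : NTm) : NTm
  | mul (t u : NTm) : NTm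
  | len (j : ℕ) : NTm

/-- Bounded formulas: built from `⊥`, `t = u`, `t ≤ u`, `X_j(t)` (also written `t ∈ X_j`) and the
atomic formulas `P_i(t_1, …, t_k, X_{j_1}, …, X_{j_l})` of additional relation symbols `P_i`, by
implication and by the bounded quantifiers `∀ x_k ≤ t` and `∀ X_k (|X_k| ≤ t → …)`. Negation is
`φ → ⊥`, and `∃` is `¬ ∀ ¬`. -/
inductive Fm : Type
  | bot : Fm
  | eq (t u : NTm) : Fm
  | le (t u : NTm) : Fm
  | mem (t : NTm) (j : ℕ) : Fm
  | rel (i : ℕ) (ts : List NTm) (Xs : List ℕ) : Fm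
  | imp (φ ψ : Fm) : Fm
  | allN (k : ℕ) (t : NTm) (φ : Fm) : Fm
  | allS (k : ℕ) (t : NTm) (φ : Fm) : Fm

/-- Structures for the language: `N1` is the sort of numbers, `N2` the sort of strings, and
`rel i` interprets the relation symbol `P_i` (of every arity). -/
structure Two where
  N1 : Type
  N2 : Type
  zero : N1
  one : N1
  add : N1 → N1 → N1
  mul : N1 → N1 → N1
  le : N1 → N1 → Prop
  len : N2 → N1
  mem : N1 → N2 → Prop
  rel : ℕ → List N1 → List N2 → Prop

/-- The value of a number term, `v` and `w` being the assignments of the two sorts of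
variables. -/
def NTm.val (M : Two) (v : ℕ → M.N1) (w : ℕ → M.N2) : NTm → M.N1
  | .var i => v i
  | .zero => M.zero
  | .one => M.one
  | .add t u => M.add (t.val M v w) (u.val M v w)
  | .mul t u => M.mul (t.val M v w) (u.val M v w)
  | .len j => M.len (w j)

/-- Truth of a formula in a structure. In the quantifiers the bounding term is evaluated before
the variable is assigned. -/
def Sat (M : Two) : (ℕ → M.N1) → (ℕ → M.N2) → Fm → Prop
  | _, _, .bot => False
  | v, w, .eq t u => t.val M v w = u.val M v w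
  | v, w, .le t u => M.le (t.val M v w) (u.val M v w)
  | v, w, .mem t j => M.mem (t.val M v w) (w j)
  | v, w, .rel i ts Xs => M.rel i (ts.map fun t => t.val M v w) (Xs.map w)
  | v, w, .imp φ ψ => Sat M v w φ → Sat M v w ψ
  | v, w, .allN k t φ => ∀ a : M.N1, M.le a (t.val M v w) → Sat M (Function.update v k a) w φ
  | v, w, .allS k t φ => ∀ X : M.N2, M.le (M.len X) (t.val M v w) →
      Sat M v (Function.update w k X) φ

/-- The standard structure with relations `P`: numbers are the natural numbers, strings are the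
finite sets of natural numbers, and `|X|` is `1 + max X` (`0` if `X` is empty). -/
def std (P : ℕ → List ℕ → List (Finset ℕ) → Prop) : Two where
  N1 := ℕ
  N2 := Finset ℕ
  zero := 0
  one := 1
  add := fun a b => a + b
  mul := fun a b => a * b
  le := fun a b => a ≤ b
  len := fun X => X.sup fun i => i + 1
  mem := fun i X => i ∈ X
  rel := P

/-- `Σ^B_0(P)` formulas: no string quantifiers. -/
inductive IsSB0 : Fm → Prop
  | bot : IsSB0 .bot
  | eq (t u : NTm) : IsSB0 (.eq t u)
  | le (t u : NTm) : IsSB0 (.le t u)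
  | mem (t : NTm) (j : ℕ) : IsSB0 (.mem t j)
  | rel (i : ℕ) (ts : List NTm) (Xs : List ℕ) : IsSB0 (.rel i ts Xs)
  | imp {φ ψ : Fm} : IsSB0 φ → IsSB0 ψ → IsSB0 (.imp φ ψ)
  | allN (k : ℕ) (t : NTm) {φ : Fm} : IsSB0 φ → IsSB0 (.allN k t φ)

/-- Formulas without the additional relation symbols. -/
inductive IsPure : Fm → Prop
  | bot : IsPure .bot
  | eq (t u : NTm) : IsPure (.eq t u)
  | le (t u : NTm) : IsPure (.le t u)
  | mem (t : NTm) (j : ℕ) : IsPure (.mem t j)
  | imp {φ ψ : Fm} : IsPure φ → IsPure ψ → IsPure (.imp φ ψ)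
  | allN (k : ℕ) (t : NTm) {φ : Fm} : IsPure φ → IsPure (.allN k t φ)
  | allS (k : ℕ) (t : NTm) {φ : Fm} : IsPure φ → IsPure (.allS k t φ)

/-- `IsSP true i φ`: `φ` is a `Σ^B_i(P)` formula; `IsSP false i φ`: `φ` is a `Π^B_i(P)` formula
(the general classes: bounded number quantifiers are not counted). Implication respects polarity,
in particular negation exchanges the two classes; `∀ X_k` keeps `Π^B_{i+1}` (hence `∃ X_k`, which
is `¬ ∀ X_k ¬`, keeps `Σ^B_{i+1}`). -/
inductive IsSP : Bool → ℕ → Fm → Prop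
  | base {b : Bool} {i : ℕ} {φ : Fm} : IsSB0 φ → IsSP b i φ
  | up {b c : Bool} {i : ℕ} {φ : Fm} : IsSP b i φ → IsSP c (i + 1) φ
  | imp {b : Bool} {i : ℕ} {φ ψ : Fm} : IsSP (!b) i φ → IsSP b i ψ → IsSP b i (.imp φ ψ)
  | allN {b : Bool} {i : ℕ} (k : ℕ) (t : NTm) {φ : Fm} : IsSP b i φ → IsSP b i (.allN k t φ)
  | allS {i : ℕ} (k : ℕ) (t : NTm) {φ : Fm} : IsSP false (i + 1) φ →
      IsSP false (i + 1) (.allS k t φ)

/-- The numeral `1 + … + 1` (`k` times, starting from `0`) in a structure. -/
def Two.num (M : Two) : ℕ → M.N1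
  | 0 => M.zero
  | k + 1 => M.add (M.num k) M.one

/-- `Y` codes the numbers of elements of `X` below `0, 1, …, b` modulo `p`: the number
`i * p + c` (`i ≤ b`, `c < p`) is in `Y` iff `X` has `c` modulo `p` elements below `i`. (Stated by
recursion on `i`.) -/
def CountsMod (M : Two) (p : ℕ) (X : M.N2) (b : M.N1) (Y : M.N2) : Prop :=
  (∀ c < p, M.mem (M.num c) Y ↔ c = 0) ∧
  ∀ i, M.le (M.add i M.one) b → ∀ c < p,
    (M.mem (M.add (M.mul (M.add i M.one) (M.num p)) (M.num c)) Y ↔
      (M.mem i X ∧ M.mem (M.add (M.mul i (M.num p)) (M.num ((c + p - 1) % p))) Y) ∨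
      (¬ M.mem i X ∧ M.mem (M.add (M.mul i (M.num p)) (M.num c)) Y))

end Pool.Agent.H23P
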