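import Pool.Agent.H23P.Hard

/-!
The two-sorted model.
-/

namespace Pool.Agent.H23P

open Set Filter FirstOrder FirstOrder.Language Pool.Agent.H23 Pool.Agent.H23L

noncomputable section

/-- The ultrafilter. -/
abbrev HF : Filter ℕ := ((hyperfilter ℕ : Ultrafilter ℕ) : Filter ℕ)

variable {P : RelS} {p : ℕ} [Fact p.Prime] (D : (Y P p).Dat)

/-- Evaluation of a term at stage `s`, the variables being given by reals. -/
def tv (t : Tr) (A : ℕ → Cantor) (s : ℕ) : ℕ × Finset ℕ := ev P p (s + 1) (D.env A s) t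

theorem tv_rel (f : ℕ → ℕ) (t : Tr) (A : ℕ → Cantor) (s : ℕ) :
    tv D (rel f t) A s = tv D t (A ∘ f) s := by
  unfold tv
  rw [ev_rel]
  rfl

theorem env_le (A : ℕ → Cantor) (s : ℕ) (q : ℕ × ℕ) : sl (D.env A s q) ≤ 2 ^ (4 * (s + 1)) :=
  sl_genR (by omega) _ _ _

theorem tv_bound (t : Tr) : ∃ c, ∀ s, ∀ A : ℕ → Cantor,
    (tv D t A s).1 ≤ 2 ^ (c * (s + 1)) ∧ sl (tv D t A s).2 ≤ 2 ^ (c * (s + 1)) := by
  obtain ⟨c1, h1⟩ := ev_num t
  obtain ⟨c2, h2⟩ := ev_str t p 4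
  have hp : ∀ {a b σ : ℕ}, a ≤ b → 2 ^ (a * σ) ≤ 2 ^ (b * σ) := fun h =>
    Nat.pow_le_pow_right (by norm_num) (Nat.mul_le_mul_right _ h)
  refine ⟨max c1 c2, fun s A => ⟨(h1 P p (s + 1) _).trans (hp (le_max_left _ _)),
    (h2 P (s + 1) (by omega) _ (env_le D A s)).trans (hp (le_max_right _ _))⟩⟩

/-- The environments given by terms and reals. -/
def nE (T : ℕ → Tr) (A : ℕ → Cantor) (s : ℕ) : ℕ → ℕ := fun i => (tv D (T i) A s).1
def sE (T : ℕ → Tr) (A : ℕ → Cantor) (s : ℕ) : ℕ → Finset ℕ := fun i => (tv D (T i) A s).2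

theorem tv_wit {φ : Fm} (hφ : IsSB0 φ) (k c : ℕ) (T : ℕ → Tr) : ∃ W : Tr, ∀ A s,
    (tv D W A s).1 = leastN (2 ^ (c * (s + 1))) fun i =>
      SatN P (Function.update (nE D T A s) k i) (sE D T A s) φ := by
  obtain ⟨W, hW⟩ := exists_wit hφ k c T
  exact ⟨W, fun A s => hW P p _ _⟩

theorem tv_comp {φ : Fm} (hφ : IsSB0 φ) (h' : IsPure φ) (k c : ℕ) (T : ℕ → Tr) : ∃ W : Tr,
    ∀ A s i, (i ∈ (tv D W A s).2 ↔ i < 2 ^ (c * (s + 1)) ∧
      SatN P (Function.update (nE D T A s) k i) (sE D T A s) φ) := by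
  obtain ⟨W, hW⟩ := exists_comp hφ h' k c T
  exact ⟨W, fun A s i => hW P p _ _ _⟩

theorem env_bound (T : ℕ → Tr) (m : ℕ) : ∃ c, ∀ s, ∀ A : ℕ → Cantor, ∀ i < m,
    nE D T A s i ≤ 2 ^ (c * (s + 1)) ∧ sl (sE D T A s i) ≤ 2 ^ (c * (s + 1)) := by
  choose c hc using fun i => tv_bound D (T i)
  refine ⟨(Finset.range m).sup c, fun s A i hi => ?_⟩
  have hp : 2 ^ (c i * (s + 1)) ≤ 2 ^ ((Finset.range m).sup c * (s + 1)) :=
    Nat.pow_le_pow_right (by norm_num) (Nat.mul_le_mul_right _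
      (Finset.le_sup (f := c) (Finset.mem_range.2 hi)))
  exact ⟨(hc i s A).1.trans hp, (hc i s A).2.trans hp⟩

/-- Values of number terms are bounded. -/
theorem tval_bound (t : NTm) (T : ℕ → Tr) : ∃ c, ∀ s, ∀ A : ℕ → Cantor,
    valN P (nE D T A s) (sE D T A s) t ≤ 2 ^ (c * (s + 1)) := by
  obtain ⟨m, hm⟩ := val_dep t
  obtain ⟨c, hc⟩ := env_bound D T m
  obtain ⟨c', hc'⟩ := val_bound P t c
  refine ⟨c', fun s A => ?_⟩
  have h1 : valN P (nE D T A s) (sE D T A s) t =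
      valN P (fun i => if i < m then nE D T A s i else 0)
        (fun i => if i < m then sE D T A s i else ∅) t := by
    apply hm (std P)
    · intro i hi; simp [hi]
    · intro i hi; simp [hi]
  rw [h1]
  apply hc' (s + 1) (by omega)
  · intro i
    split_ifs with h
    · exact (hc s A i h).1
    · exact Nat.zero_le _
  · intro i
    split_ifs with h
    · exact (hc s A i h).2
    · simp [sl]

/-- Values of number terms are given by terms. -/
theorem exists_tval (t : NTm) (T : ℕ → Tr) : ∃ W : Tr, ∀ A : ℕ → Cantor, ∀ s,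
    (tv D W A s).1 = valN P (nE D T A s) (sE D T A s) t := by
  obtain ⟨m, hm⟩ := val_dep t
  obtain ⟨c, hc⟩ := tval_bound D t T
  obtain ⟨W, hW⟩ := tv_wit D (IsSB0.eq (.var m) t) m c T
  refine ⟨W, fun A s => ?_⟩
  have h1 : ∀ i, valN P (Function.update (nE D T A s) m i) (sE D T A s) t =
      valN P (nE D T A s) (sE D T A s) t := by
    intro i
    apply hm (std P)
    · intro j hj
      exact Function.update_of_ne (by omega) _ _
    · intro j _; rfl
  rw [hW]
  apply leastN_eq (hc s A)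
  · rw [satN_eq, valN_var, Function.update_self, h1]
  · intro j hj
    rw [satN_eq, valN_var, Function.update_self, h1]
    omega

/-! ### The model -/

/-- germs -/
abbrev G1 := Germ HF ℕ
abbrev G2 := Germ HF (Finset ℕ)

def g1 (t : Tr) (A : ℕ → Cantor) : G1 := ((fun s => (tv D t A s).1 : ℕ → ℕ) : G1)
def g2 (t : Tr) (A : ℕ → Cantor) : G2 := ((fun s => (tv D t A s).2 : ℕ → Finset ℕ) : G2)

def T1 : Type := {x : G1 // ∃ t A, x = g1 D t A}
def T2 : Type := {x : G2 // ∃ t A, x = g2 D t A}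

def e1 (t : Tr) (A : ℕ → Cantor) : T1 D := ⟨g1 D t A, t, A, rfl⟩
def e2 (t : Tr) (A : ℕ → Cantor) : T2 D := ⟨g2 D t A, t, A, rfl⟩

theorem e1_surj (x : T1 D) : ∃ t A, x = e1 D t A := by
  obtain ⟨x, t, A, rfl⟩ := x
  exact ⟨t, A, rfl⟩
theorem e2_surj (x : T2 D) : ∃ t A, x = e2 D t A := by
  obtain ⟨x, t, A, rfl⟩ := x
  exact ⟨t, A, rfl⟩

theorem e1_eq {t u : Tr} {A B : ℕ → Cantor} : e1 D t A = e1 D u B ↔
    ∀ᶠ s in HF, (tv D t A s).1 = (tv D u B s).1 :=
  ⟨fun h => Germ.coe_eq.1 (congrArg Subtype.val h), fun h => Subtype.ext (Germ.coe_eq.2 h)⟩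

theorem e2_eq {t u : Tr} {A B : ℕ → Cantor} : e2 D t A = e2 D u B ↔
    ∀ᶠ s in HF, (tv D t A s).2 = (tv D u B s).2 :=
  ⟨fun h => Germ.coe_eq.1 (congrArg Subtype.val h), fun h => Subtype.ext (Germ.coe_eq.2 h)⟩

theorem hf_of_atTop {R : ℕ → Prop} (h : ∀ᶠ s in atTop, R s) : ∀ᶠ s in HF, R s :=
  Nat.hyperfilter_le_atTop h

theorem hf_ge (n : ℕ) : ∀ᶠ s in HF, n ≤ s := hf_of_atTop (eventually_ge_atTop n)

theorem e1_rel (f : ℕ → ℕ) (t : Tr) (A : ℕ → Cantor) :
    e1 D (rel f t) A = e1 D t (A ∘ f) := by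
  rw [e1_eq]
  exact Eventually.of_forall fun s => by rw [tv_rel]
theorem e2_rel (f : ℕ → ℕ) (t : Tr) (A : ℕ → Cantor) :
    e2 D (rel f t) A = e2 D t (A ∘ f) := by
  rw [e2_eq]
  exact Eventually.of_forall fun s => by rw [tv_rel]

@[simp] theorem e1_prT (t u : Tr) (A : ℕ → Cantor) : e1 D (prT t u) A = e1 D t A := rfl
@[simp] theorem e2_prT (t u : Tr) (A : ℕ → Cantor) : e2 D (prT t u) A = e2 D u A := rfl

/-- Representation of countably many elements of both sorts by terms in the same reals. -/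
theorem rep (v : ℕ → T1 D) (w : ℕ → T2 D) : ∃ (T : ℕ → Tr) (A : ℕ → Cantor),
    (v = fun i => e1 D (T i) A) ∧ w = fun i => e2 D (T i) A := by
  choose t A hv using fun i => e1_surj D (v i)
  choose u B hw using fun i => e2_surj D (w i)
  let C : ℕ → Cantor := joinA fun i => if i % 2 = 0 then A (i / 2) else B (i / 2)
  refine ⟨fun i => prT (rel (Nat.pair (2 * i)) (t i)) (rel (Nat.pair (2 * i + 1)) (u i)), C, ?_, ?_⟩
  · funext i
    rw [e1_prT, e1_rel, hv i]
    congr 1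
    funext j
    have h1 : 2 * i % 2 = 0 := by omega
    have h2 : 2 * i / 2 = i := by omega
    simp [C, joinA]
  · funext i
    rw [e2_prT, e2_rel, hw i]
    congr 1
    funext j
    have h1 : (2 * i + 1) % 2 = 1 := by omega
    have h2 : (2 * i + 1) / 2 = i := by omega
    simp [C, joinA, h1, h2]

theorem closed_val (t : NTm) (v : ℕ → T1 D) (w : ℕ → T2 D) :
    ∃ (x : T1 D), ∀ (T : ℕ → Tr) (A : ℕ → Cantor), (v = fun i => e1 D (T i) A) →
      (w = fun i => e2 D (T i) A) →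
      x.1 = ((fun s => valN P (nE D T A s) (sE D T A s) t : ℕ → ℕ) : G1) := by
  obtain ⟨T, A, hv, hw⟩ := rep D v w
  obtain ⟨W, hW⟩ := exists_tval D t T
  obtain ⟨m, hm⟩ := val_dep t
  refine ⟨e1 D W A, fun T' A' hv' hw' => ?_⟩
  change ((fun s => (tv D W A s).1 : ℕ → ℕ) : G1) = _
  rw [Germ.coe_eq]
  have h1 : ∀ i, ∀ᶠ s in HF, (tv D (T i) A s).1 = (tv D (T' i) A' s).1 := fun i =>
    (e1_eq D).1 (congrFun (hv.symm.trans hv') i)
  have h2 : ∀ i, ∀ᶠ s in HF, (tv D (T i) A s).2 = (tv D (T' i) A' s).2 := fun i =>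
    (e2_eq D).1 (congrFun (hw.symm.trans hw') i)
  have h3 : ∀ᶠ s in HF, ∀ i ∈ Finset.range m, (tv D (T i) A s).1 = (tv D (T' i) A' s).1 ∧
      (tv D (T i) A s).2 = (tv D (T' i) A' s).2 := by
    rw [Filter.eventually_all_finset]
    exact fun i _ => (h1 i).and (h2 i)
  filter_upwards [h3] with s hs
  rw [hW A s]
  apply hm (std P)
  · intro i hi; exact (hs i (Finset.mem_range.2 hi)).1
  · intro i hi; exact (hs i (Finset.mem_range.2 hi)).2

def dT : Tr := .var (.inl (0, 0))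
def dA : ℕ → Cantor := fun _ _ => false

theorem ex_val (t : NTm) (v : ℕ → T1 D) (w : ℕ → T2 D) (g : G1)
    (h : ∀ (T : ℕ → Tr) (A : ℕ → Cantor), (v = fun i => e1 D (T i) A) →
      (w = fun i => e2 D (T i) A) →
      g = ((fun s => valN P (nE D T A s) (sE D T A s) t : ℕ → ℕ) : G1)) :
    ∃ u A, g = g1 D u A := by
  obtain ⟨x, hx⟩ := closed_val D t v w
  obtain ⟨T, A, hv, hw⟩ := rep D v w
  obtain ⟨u, B, h2⟩ := x.2
  exact ⟨u, B, by rw [h T A hv hw, ← hx T A hv hw, h2]⟩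

def seq2 {α : Type} (x y : α) : ℕ → α := fun i => if i = 0 then x else y

/-- Representatives. -/
def rp1 (x : T1 D) (s : ℕ) : ℕ := (tv D x.2.choose x.2.choose_spec.choose s).1
def rp2 (x : T2 D) (s : ℕ) : Finset ℕ := (tv D x.2.choose x.2.choose_spec.choose s).2

theorem rp1_spec (x : T1 D) : x.1 = ((rp1 D x : ℕ → ℕ) : G1) := x.2.choose_spec.choose_spec
theorem rp2_spec (x : T2 D) : x.1 = ((rp2 D x : ℕ → Finset ℕ) : G2) := x.2.choose_spec.choose_spec

/-- The model. -/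
def M : Two where
  N1 := T1 D
  N2 := T2 D
  zero := ⟨((fun _ => 0 : ℕ → ℕ) : G1), ex_val D .zero (fun _ => e1 D dT dA)
    (fun _ => e2 D dT dA) _ fun _ _ _ _ => rfl⟩
  one := ⟨((fun _ => 1 : ℕ → ℕ) : G1), ex_val D .one (fun _ => e1 D dT dA) (fun _ => e2 D dT dA) _
    fun _ _ _ _ => rfl⟩
  add := fun x y => ⟨x.1 + y.1, ex_val D (.add (.var 0) (.var 1)) (seq2 x y)
    (fun _ => e2 D dT dA) _ fun T A hv _ => by
      have h0 : x = e1 D (T 0) A := congrFun hv 0
      have h1 : y = e1 D (T 1) A := congrFun hv 1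
      rw [h0, h1]
      rfl⟩
  mul := fun x y => ⟨x.1 * y.1, ex_val D (.mul (.var 0) (.var 1)) (seq2 x y)
    (fun _ => e2 D dT dA) _ fun T A hv _ => by
      have h0 : x = e1 D (T 0) A := congrFun hv 0
      have h1 : y = e1 D (T 1) A := congrFun hv 1
      rw [h0, h1]
      rfl⟩
  le := fun x y => x.1 ≤ y.1
  len := fun X => ⟨X.1.map sl, ex_val D (.len 0) (fun _ => e1 D dT dA)
    (fun _ => X) _ fun T A _ hw => by
      have h0 : X = e2 D (T 0) A := congrFun hw 0
      rw [h0]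
      rfl⟩
  mem := fun x X => Germ.LiftRel (fun (i : ℕ) (Y : Finset ℕ) => i ∈ Y) x.1 X.1
  rel := fun i xs Xs => ∀ᶠ s in HF, P i (xs.map fun x => rp1 D x s) (Xs.map fun X => rp2 D X s)

/-- Elements of the model. -/
def x1 (t : Tr) (A : ℕ → Cantor) : (M D).N1 := e1 D t A
def x2 (t : Tr) (A : ℕ → Cantor) : (M D).N2 := e2 D t A

theorem x1_surj (x : (M D).N1) : ∃ t A, x = x1 D t A := e1_surj D x
theorem x2_surj (x : (M D).N2) : ∃ t A, x = x2 D t A := e2_surj D x

theorem x1_eq {t u : Tr} {A B : ℕ → Cantor} : x1 D t A = x1 D u B ↔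
    ∀ᶠ s in HF, (tv D t A s).1 = (tv D u B s).1 := e1_eq D
theorem x2_eq {t u : Tr} {A B : ℕ → Cantor} : x2 D t A = x2 D u B ↔
    ∀ᶠ s in HF, (tv D t A s).2 = (tv D u B s).2 := e2_eq D
theorem x1_rel (f : ℕ → ℕ) (t : Tr) (A : ℕ → Cantor) :
    x1 D (rel f t) A = x1 D t (A ∘ f) := e1_rel D f t A
theorem x2_rel (f : ℕ → ℕ) (t : Tr) (A : ℕ → Cantor) :
    x2 D (rel f t) A = x2 D t (A ∘ f) := e2_rel D f t A
@[simp] theorem x1_prT (t u : Tr) (A : ℕ → Cantor) : x1 D (prT t u) A = x1 D t A := rfl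
@[simp] theorem x2_prT (t u : Tr) (A : ℕ → Cantor) : x2 D (prT t u) A = x2 D u A := rfl
theorem repM (v : ℕ → (M D).N1) (w : ℕ → (M D).N2) : ∃ (T : ℕ → Tr) (A : ℕ → Cantor),
    (v = fun i => x1 D (T i) A) ∧ w = fun i => x2 D (T i) A := rep D v w

/-- The underlying germs. -/
def u1 (x : (M D).N1) : G1 := Subtype.val (p := fun x => ∃ t A, x = g1 D t A) x
def u2 (x : (M D).N2) : G2 := Subtype.val (p := fun x => ∃ t A, x = g2 D t A) x

/-- Representatives. -/
def r1 (x : (M D).N1) : ℕ → ℕ := rp1 D x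
def r2 (x : (M D).N2) : ℕ → Finset ℕ := rp2 D x

theorem r1_spec (x : (M D).N1) : u1 D x = ((r1 D x : ℕ → ℕ) : G1) := rp1_spec D x
theorem r2_spec (x : (M D).N2) : u2 D x = ((r2 D x : ℕ → Finset ℕ) : G2) := rp2_spec D x

theorem u1_inj {x y : (M D).N1} : x = y ↔ u1 D x = u1 D y := by
  constructor
  · rintro rfl; rfl
  · intro h; exact Subtype.ext h

theorem val_M (t : NTm) (T : ℕ → Tr) (A : ℕ → Cantor) :
    u1 D (t.val (M D) (fun i => x1 D (T i) A) (fun i => x2 D (T i) A)) =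
      ((fun s => valN P (nE D T A s) (sE D T A s) t : ℕ → ℕ) : G1) := by
  induction t with
  | var i => rfl
  | zero => rfl
  | one => rfl
  | add t u iht ihu =>
    change (u1 D (t.val (M D) _ _) + u1 D (u.val (M D) _ _) : G1) = _
    rw [iht, ihu]
    rfl
  | mul t u iht ihu =>
    change (u1 D (t.val (M D) _ _) * u1 D (u.val (M D) _ _) : G1) = _
    rw [iht, ihu]
    rfl
  | len j => rfl

theorem le_M (x y : (M D).N1) (f g : ℕ → ℕ) (hx : u1 D x = (f : G1)) (hy : u1 D y = (g : G1)) :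
    (M D).le x y ↔ ∀ᶠ s in HF, f s ≤ g s := by
  change u1 D x ≤ u1 D y ↔ _
  rw [hx, hy, Germ.coe_le]
  exact Iff.rfl

theorem mem_M (x : (M D).N1) (X : (M D).N2) (f : ℕ → ℕ) (F : ℕ → Finset ℕ)
    (hx : u1 D x = (f : G1)) (hX : u2 D X = (F : G2)) :
    (M D).mem x X ↔ ∀ᶠ s in HF, f s ∈ F s := by
  change Germ.LiftRel (fun (i : ℕ) (Y : Finset ℕ) => i ∈ Y) (u1 D x) (u2 D X) ↔ _
  rw [hx, hX]
  exact Iff.rfl

/-- Updating environments given by terms. -/
theorem upd_x1 (T : ℕ → Tr) (A : ℕ → Cantor) (k : ℕ) (W : Tr) :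
    (fun i => x1 D (Function.update T k (prT W (T k)) i) A) =
      Function.update (fun i => x1 D (T i) A) k (x1 D W A) := by
  funext i
  by_cases h : i = k
  · subst h; simp
  · simp [h]

theorem upd_x2 (T : ℕ → Tr) (A : ℕ → Cantor) (k : ℕ) (W : Tr) :
    (fun i => x2 D (Function.update T k (prT W (T k)) i) A) = fun i => x2 D (T i) A := by
  funext i
  by_cases h : i = k
  · subst h; simp
  · simp [h]

theorem upd_nE (T : ℕ → Tr) (A : ℕ → Cantor) (s k : ℕ) (W : Tr) :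
    nE D (Function.update T k (prT W (T k))) A s =
      Function.update (nE D T A s) k (tv D W A s).1 := by
  funext i
  unfold nE
  by_cases h : i = k
  · subst h; simp [tv]
  · simp [h]

theorem upd_sE (T : ℕ → Tr) (A : ℕ → Cantor) (s k : ℕ) (W : Tr) :
    sE D (Function.update T k (prT W (T k))) A s = sE D T A s := by
  funext i
  unfold sE
  by_cases h : i = k
  · subst h; simp [tv]
  · simp [h]

theorem nE_rel (f : ℕ → ℕ) (T : ℕ → Tr) (A : ℕ → Cantor) (s : ℕ) :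
    nE D (fun i => rel f (T i)) A s = nE D T (A ∘ f) s := by
  funext i; unfold nE; rw [tv_rel]
theorem sE_rel (f : ℕ → ℕ) (T : ℕ → Tr) (A : ℕ → Cantor) (s : ℕ) :
    sE D (fun i => rel f (T i)) A s = sE D T (A ∘ f) s := by
  funext i; unfold sE; rw [tv_rel]

theorem map_r1 (l : List NTm) (T : ℕ → Tr) (A : ℕ → Cantor) : ∀ᶠ s in HF,
    ((l.map fun t => t.val (M D) (fun i => x1 D (T i) A) (fun i => x2 D (T i) A)).map
      fun x => r1 D x s) = l.map fun t => valN P (nE D T A s) (sE D T A s) t := by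
  induction l with
  | nil => exact Eventually.of_forall fun s => rfl
  | cons t l ih =>
    have h1 : ∀ᶠ s in HF, r1 D (t.val (M D) (fun i => x1 D (T i) A) (fun i => x2 D (T i) A)) s =
        valN P (nE D T A s) (sE D T A s) t := by
      have := (r1_spec D (t.val (M D) (fun i => x1 D (T i) A) (fun i => x2 D (T i) A))).symm.trans
        (val_M D t T A)
      exact Germ.coe_eq.1 this
    filter_upwards [ih, h1] with s hs1 hs2
    simp only [List.map_cons]
    rw [hs1, hs2]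

theorem map_r2 (l : List ℕ) (T : ℕ → Tr) (A : ℕ → Cantor) : ∀ᶠ s in HF,
    ((l.map fun i => x2 D (T i) A).map fun X => r2 D X s) = l.map (sE D T A s) := by
  induction l with
  | nil => exact Eventually.of_forall fun s => rfl
  | cons t l ih =>
    have h1 : ∀ᶠ s in HF, r2 D (x2 D (T t) A) s = sE D T A s t := by
      have h2 : u2 D (x2 D (T t) A) = ((fun s => sE D T A s t : ℕ → Finset ℕ) : G2) := rfl
      exact Germ.coe_eq.1 ((r2_spec D (x2 D (T t) A)).symm.trans h2)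
    filter_upwards [ih, h1] with s hs1 hs2
    simp only [List.map_cons]
    rw [hs1, hs2]

/-- Elementarity. -/
theorem elem {φ : Fm} (hφ : IsSB0 φ) : ∀ (T : ℕ → Tr) (A : ℕ → Cantor),
    (Sat (M D) (fun i => x1 D (T i) A) (fun i => x2 D (T i) A) φ ↔
      ∀ᶠ s in HF, SatN P (nE D T A s) (sE D T A s) φ) := by
  induction hφ with
  | bot =>
    intro T A
    simp only [Sat, satN_bot, Filter.eventually_const]
  | eq t u =>
    intro T A
    simp only [Sat, satN_eq]
    rw [u1_inj, val_M D t T A, val_M D u T A, Germ.coe_eq]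
    exact Iff.rfl
  | le t u =>
    intro T A
    exact le_M D _ _ _ _ (val_M D t T A) (val_M D u T A)
  | mem t j =>
    intro T A
    exact mem_M D _ _ _ _ (val_M D t T A) rfl
  | rel i ts Xs =>
    intro T A
    have h : Sat (M D) (fun i => x1 D (T i) A) (fun i => x2 D (T i) A) (.rel i ts Xs) ↔
        ∀ᶠ s in HF, P i ((ts.map fun t => t.val (M D) (fun i => x1 D (T i) A)
          (fun i => x2 D (T i) A)).map fun x => r1 D x s)
          ((Xs.map fun i => x2 D (T i) A).map fun X => r2 D X s) := Iff.rfl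
    rw [h]
    apply eventually_congr
    filter_upwards [map_r1 D ts T A, map_r2 D Xs T A] with s h1 h2
    rw [h1, h2]
    exact Iff.rfl
  | imp _ _ ih1 ih2 =>
    intro T A
    simp only [Sat, satN_imp]
    rw [ih1, ih2, Ultrafilter.eventually_imp]
  | @allN k t φ hφ ih =>
    intro T A
    simp only [Sat, satN_allN]
    constructor
    · intro h
      by_contra hcon
      rw [← Ultrafilter.eventually_not] at hcon
      obtain ⟨c, hc⟩ := tval_bound D t T
      obtain ⟨W, hW⟩ := tv_wit D hφ.not k c T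
      have hWs : ∀ᶠ s in HF, (tv D W A s).1 ≤ valN P (nE D T A s) (sE D T A s) t ∧
          ¬ SatN P (Function.update (nE D T A s) k (tv D W A s).1) (sE D T A s) φ := by
        filter_upwards [hcon] with s hs
        push Not at hs
        obtain ⟨a, ha1, ha2⟩ := hs
        rw [hW]
        have hex : ∃ i, i ≤ 2 ^ (c * (s + 1)) ∧ SatN P (Function.update (nE D T A s) k i)
            (sE D T A s) (.imp φ .bot) := ⟨a, ha1.trans (hc s A), fun h => ha2 h⟩
        refine ⟨?_, fun h => leastN_spec hex h⟩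
        by_contra hlt
        push Not at hlt
        exact leastN_min (ha1.trans_lt hlt) fun h => ha2 h
      have h1 := h (x1 D W A) ((le_M D _ _ _ _ rfl (val_M D t T A)).2 (hWs.mono fun s hs => hs.1))
      rw [← upd_x1, ← upd_x2 D T A k W, ih] at h1
      obtain ⟨s, hs1, hs2⟩ := (h1.and hWs).exists
      rw [upd_nE, upd_sE] at hs1
      exact hs2.2 hs1
    · intro h a ha
      obtain ⟨u, B, rfl⟩ := x1_surj D a
      let T' : ℕ → Tr := fun i => rel (fun i => 2 * i) (T i)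
      let u' : Tr := rel (fun i => 2 * i + 1) u
      let A' := ilv A B
      have e1 : (fun i => x1 D (T i) A) = fun i => x1 D (T' i) A' := by
        funext i; rw [x1_rel, ilv_even]
      have e2 : (fun i => x2 D (T i) A) = fun i => x2 D (T' i) A' := by
        funext i; rw [x2_rel, ilv_even]
      have e3 : x1 D u B = x1 D u' A' := by rw [x1_rel, ilv_odd]
      have e4 : ∀ s, nE D T' A' s = nE D T A s := by intro s; rw [nE_rel, ilv_even]
      have e5 : ∀ s, sE D T' A' s = sE D T A s := by intro s; rw [sE_rel, ilv_even]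
      rw [e3] at ha ⊢
      have ha' := (le_M D _ _ _ _ rfl (val_M D t T A)).1 ha
      rw [e1, e2, ← upd_x1, ← upd_x2 D T' A' k u', ih]
      filter_upwards [h, ha'] with s hs1 hs2
      rw [upd_nE, upd_sE, e4, e5]
      exact hs1 _ hs2

theorem elem' {φ : Fm} (hφ : IsSB0 φ) {v : ℕ → (M D).N1} {w : ℕ → (M D).N2} {T : ℕ → Tr}
    {A : ℕ → Cantor} (hv : v = fun i => x1 D (T i) A) (hw : w = fun i => x2 D (T i) A) :
    Sat (M D) v w φ ↔ ∀ᶠ s in HF, SatN P (nE D T A s) (sE D T A s) φ := by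
  subst hv hw
  exact elem D hφ T A

/-- True `Σ^B_0` formulas hold in the model. -/
theorem M_true {φ : Fm} (hφ : IsSB0 φ) (h : ∀ v w, Sat (std P) v w φ) (v : ℕ → (M D).N1)
    (w : ℕ → (M D).N2) : Sat (M D) v w φ := by
  obtain ⟨T, A, hv, hw⟩ := repM D v w
  exact (elem' D hφ hv hw).2 (Eventually.of_forall fun s => h _ _)

end

end Pool.Agent.H23P
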