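import Pool.Agent.H23P.Model

/-!
The two-sorted model: extensionality, comprehension, the least number principle and counting.
-/

namespace Pool.Agent.H23P

open Set Filter FirstOrder FirstOrder.Language Pool.Agent.H23 Pool.Agent.H23L

noncomputable section

variable {P : RelS} {p : ℕ} [Fact p.Prime] (D : (Y P p).Dat)

theorem M_ext (X Y : (M D).N2) (h : ∀ i, (M D).mem i X ↔ (M D).mem i Y) : X = Y := by
  obtain ⟨T, A, -, hw⟩ := repM D (fun _ => x1 D dT dA) (seq2 X Y)
  have hX : X = x2 D (T 0) A := congrFun hw 0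
  have hY : Y = x2 D (T 1) A := congrFun hw 1
  by_contra hne
  have h1 : ¬ ∀ᶠ s in HF, (tv D (T 0) A s).2 = (tv D (T 1) A s).2 := by
    rw [← x2_eq, ← hX, ← hY]; exact hne
  rw [← Ultrafilter.eventually_not] at h1
  obtain ⟨c0, h0⟩ := tv_bound D (T 0)
  obtain ⟨c1, h1'⟩ := tv_bound D (T 1)
  let φ : Fm := .imp (.imp (.imp (.mem (.var 0) 0) (.mem (.var 0) 1))
    (.imp (.imp (.mem (.var 0) 1) (.mem (.var 0) 0)) .bot)) .bot
  have hφ : IsSB0 (.imp φ .bot) := by
    refine .imp (.imp (.imp (.imp (.mem _ _) (.mem _ _)) (.imp (.imp (.mem _ _) (.mem _ _)) .bot))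
      .bot) .bot
  obtain ⟨W, hW⟩ := tv_wit D hφ 0 (max c0 c1) T
  have hWs : ∀ᶠ s in HF, ¬ ((tv D W A s).1 ∈ (tv D (T 0) A s).2 ↔
      (tv D W A s).1 ∈ (tv D (T 1) A s).2) := by
    filter_upwards [h1] with s hs
    rw [Finset.ext_iff] at hs
    push Not at hs
    obtain ⟨i, hi⟩ := hs
    have hib : i ≤ 2 ^ (max c0 c1 * (s + 1)) := by
      have hp : ∀ {a b : ℕ}, a ≤ b → 2 ^ (a * (s + 1)) ≤ 2 ^ (b * (s + 1)) := fun h =>
        Nat.pow_le_pow_right (by norm_num) (Nat.mul_le_mul_right _ h)
      rcases hi with hi | hi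
      · exact ((lt_sl hi.1).le.trans (h0 s A).2).trans (hp (le_max_left _ _))
      · exact ((lt_sl hi.2).le.trans (h1' s A).2).trans (hp (le_max_right _ _))
    have key : ∀ i : ℕ, SatN P (Function.update (nE D T A s) 0 i) (sE D T A s) (.imp φ .bot) ↔
        ¬ (i ∈ (tv D (T 0) A s).2 ↔ i ∈ (tv D (T 1) A s).2) := by
      intro i
      simp only [φ, satN_imp, satN_mem, satN_bot, valN_var, Function.update_self, sE]
      tauto
    have hex : ∃ i, i ≤ 2 ^ (max c0 c1 * (s + 1)) ∧ SatN P (Function.update (nE D T A s) 0 i)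
        (sE D T A s) (.imp φ .bot) := ⟨i, hib, (key i).2 (by tauto)⟩
    rw [hW]
    exact (key _).1 (leastN_spec hex)
  have h2 := h (x1 D W A)
  rw [mem_M D (x1 D W A) X _ _ rfl (congrArg (u2 D) hX),
    mem_M D (x1 D W A) Y _ _ rfl (congrArg (u2 D) hY)] at h2
  have h3 : ∀ᶠ s in HF, ((tv D W A s).1 ∈ (tv D (T 0) A s).2 ↔
      (tv D W A s).1 ∈ (tv D (T 1) A s).2) := by
    simp only [iff_iff_implies_and_implies]
    rw [Filter.eventually_and, Ultrafilter.eventually_imp, Ultrafilter.eventually_imp]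
    exact ⟨h2.1, h2.2⟩
  obtain ⟨s, hs1, hs2⟩ := (h3.and hWs).exists
  exact hs2 hs1

/-- Comprehension. -/
theorem M_comp {φ : Fm} (hφ : IsSB0 φ) (hφ' : IsPure φ) (k : ℕ) (v : ℕ → (M D).N1)
    (w : ℕ → (M D).N2) (b : (M D).N1) : ∃ X : (M D).N2, (M D).le ((M D).len X) b ∧
    ∀ i : (M D).N1, (M D).le i b → i ≠ b →
      ((M D).mem i X ↔ Sat (M D) (Function.update v k i) w φ) := by
  obtain ⟨m, hm⟩ := sat_dep φ
  let j0 := max m (k + 1)
  have hj0k : j0 ≠ k := by omega
  obtain ⟨T, A, hv, hw⟩ := repM D (Function.update v j0 b) w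
  have hb : b = x1 D (T j0) A := by
    have := congrFun hv j0
    rw [Function.update_self] at this
    exact this
  obtain ⟨c, hc⟩ := tv_bound D (T j0)
  let ψ : Fm := .imp (.imp (.le (.add (.var k) .one) (.var j0)) (.imp φ .bot)) .bot
  have hψ : IsSB0 ψ := .imp (.imp (.le _ _) (.imp hφ .bot)) .bot
  have hψ' : IsPure ψ := .imp (.imp (.le _ _) (.imp hφ' .bot)) .bot
  obtain ⟨W, hW⟩ := tv_comp D hψ hψ' k c T
  have hWs : ∀ s, ∀ i, (i ∈ (tv D W A s).2 ↔ i < (tv D (T j0) A s).1 ∧
      SatN P (Function.update (nE D T A s) k i) (sE D T A s) φ) := by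
    intro s i
    rw [hW]
    simp only [ψ, satN_imp, satN_le, satN_bot, valN_add, valN_var, valN_one,
      Function.update_self, Function.update_of_ne hj0k]
    have h1 := (hc s A).1
    have h2 : nE D T A s j0 = (tv D (T j0) A s).1 := rfl
    rw [h2]
    constructor
    · rintro ⟨-, h3⟩
      constructor
      · by_contra h4
        exact h3 fun h5 => absurd h5 (by omega)
      · by_contra h4
        exact h3 fun _ => h4
    · rintro ⟨h3, h4⟩
      exact ⟨h3.trans_le h1, fun h5 => h5 (by omega) h4⟩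
  refine ⟨x2 D W A, ?_, fun i hi hib => ?_⟩
  · refine (le_M D _ _ (fun s => sl (tv D W A s).2) _ rfl (congrArg (u1 D) hb)).2 ?_
    exact Eventually.of_forall fun s => sl_le fun i hi => ((hWs s i).1 hi).1
  · obtain ⟨u, B, rfl⟩ := x1_surj D i
    let T' : ℕ → Tr := fun i => rel (fun i => 2 * i) (T i)
    let u' : Tr := rel (fun i => 2 * i + 1) u
    let A' := ilv A B
    have e1 : Function.update v j0 b = fun i => x1 D (T' i) A' := by
      rw [hv]; funext i; rw [x1_rel, ilv_even]
    have e2 : w = fun i => x2 D (T' i) A' := by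
      rw [hw]; funext i; rw [x2_rel, ilv_even]
    have e3 : x1 D u B = x1 D u' A' := by rw [x1_rel, ilv_odd]
    have e4 : ∀ s, nE D T' A' s = nE D T A s := by intro s; rw [nE_rel, ilv_even]
    have e5 : ∀ s, sE D T' A' s = sE D T A s := by intro s; rw [sE_rel, ilv_even]
    have h1 : Sat (M D) (Function.update v k (x1 D u B)) w φ ↔
        Sat (M D) (Function.update (Function.update v j0 b) k (x1 D u B)) w φ := by
      refine hm (M D) _ _ w w (update_agree (fun j hj => ?_) _) fun _ _ => rfl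
      exact (Function.update_of_ne (by omega) _ _).symm
    rw [h1, e3, elem' D hφ (T := Function.update T' k (prT u' (T' k))) (A := A')
      (by rw [e1, upd_x1]) (by rw [upd_x2]; exact e2),
      mem_M D (x1 D u' A') (x2 D W A) _ _ rfl rfl]
    have hlt : ∀ᶠ s in HF, (tv D u' A' s).1 < (tv D (T j0) A s).1 := by
      rw [e3, le_M D (x1 D u' A') b _ _ rfl (congrArg (u1 D) hb)] at hi
      rw [e3, hb, Ne, x1_eq] at hib
      have h2 : ∀ᶠ s in HF, ¬ (tv D u' A' s).1 = (tv D (T j0) A s).1 :=
        Ultrafilter.eventually_not.2 hib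
      filter_upwards [hi, h2] with s hs1 hs2
      exact lt_of_le_of_ne hs1 hs2
    apply eventually_congr
    filter_upwards [hlt] with s hs
    rw [hWs s, upd_nE, upd_sE, e4, e5]
    exact ⟨fun h => h.2, fun h => ⟨hs, h⟩⟩

/-- The least number principle, for all formulas without string quantifiers. -/
theorem M_least {φ : Fm} (hφ : IsSB0 φ) (k : ℕ) (v : ℕ → (M D).N1) (w : ℕ → (M D).N2)
    (a : (M D).N1) (ha : Sat (M D) (Function.update v k a) w φ) :
    ∃ b : (M D).N1, Sat (M D) (Function.update v k b) w φ ∧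
      ∀ c : (M D).N1, Sat (M D) (Function.update v k c) w φ → (M D).le b c := by
  obtain ⟨m, hm⟩ := sat_dep φ
  obtain ⟨T, A, hv, hw⟩ := repM D (Function.update v k a) w
  have hak : a = x1 D (T k) A := by
    have := congrFun hv k
    rw [Function.update_self] at this
    exact this
  obtain ⟨c, hc⟩ := tv_bound D (T k)
  obtain ⟨W, hW⟩ := tv_wit D hφ k c T
  have hsat : ∀ᶠ s in HF, SatN P (nE D T A s) (sE D T A s) φ := (elem' D hφ hv hw).1 ha
  have hself : ∀ s, Function.update (nE D T A s) k (tv D (T k) A s).1 = nE D T A s := by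
    intro s
    exact Function.update_eq_self _ _
  have hWs : ∀ᶠ s in HF, SatN P (Function.update (nE D T A s) k (tv D W A s).1) (sE D T A s) φ ∧
      ∀ j < (tv D W A s).1, ¬ SatN P (Function.update (nE D T A s) k j) (sE D T A s) φ := by
    filter_upwards [hsat] with s hs
    have hex : ∃ i, i ≤ 2 ^ (c * (s + 1)) ∧ SatN P (Function.update (nE D T A s) k i)
        (sE D T A s) φ := ⟨(tv D (T k) A s).1, (hc s A).1, by rw [hself]; exact hs⟩
    rw [hW]
    exact ⟨leastN_spec hex, fun j hj => leastN_min hj⟩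
  have hupd : ∀ x : (M D).N1, Function.update (Function.update v k a) k x =
      Function.update v k x := fun x => Function.update_idem _ _ _
  have hsatU : ∀ (u : Tr) (B : ℕ → Cantor), Sat (M D) (Function.update v k (x1 D u B)) w φ ↔
      ∀ᶠ s in HF, SatN P (Function.update (nE D T A s) k (tv D u B s).1) (sE D T A s) φ := by
    intro u B
    let T' : ℕ → Tr := fun i => rel (fun i => 2 * i) (T i)
    let u' : Tr := rel (fun i => 2 * i + 1) u
    let A' := ilv A B
    have e1 : Function.update v k a = fun i => x1 D (T' i) A' := by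
      rw [hv]; funext i; rw [x1_rel, ilv_even]
    have e2 : w = fun i => x2 D (T' i) A' := by
      rw [hw]; funext i; rw [x2_rel, ilv_even]
    have e3 : x1 D u B = x1 D u' A' := by rw [x1_rel, ilv_odd]
    have e4 : ∀ s, nE D T' A' s = nE D T A s := by intro s; rw [nE_rel, ilv_even]
    have e5 : ∀ s, sE D T' A' s = sE D T A s := by intro s; rw [sE_rel, ilv_even]
    have e6 : ∀ s, tv D u' A' s = tv D u B s := by intro s; rw [tv_rel, ilv_odd]
    rw [← hupd, e3, elem' D hφ (T := Function.update T' k (prT u' (T' k))) (A := A')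
      (by rw [e1, upd_x1]) (by rw [upd_x2]; exact e2)]
    apply eventually_congr
    refine Eventually.of_forall fun s => ?_
    rw [upd_nE, upd_sE, e4, e5, e6]
  refine ⟨x1 D W A, ?_, fun b hb => ?_⟩
  · rw [hsatU]
    exact hWs.mono fun s hs => hs.1
  · obtain ⟨u, B, rfl⟩ := x1_surj D b
    rw [hsatU] at hb
    refine (le_M D _ _ _ _ rfl rfl).2 ?_
    filter_upwards [hWs, hb] with s h1 h2
    by_contra hlt
    push Not at hlt
    exact h1.2 _ hlt h2

theorem u1_num (k : ℕ) : u1 D ((M D).num k) = ((fun _ => k : ℕ → ℕ) : G1) := by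
  induction k with
  | zero => rfl
  | succ k ih =>
    change (u1 D ((M D).num k) + ((fun _ => 1 : ℕ → ℕ) : G1) : G1) = _
    rw [ih]
    rfl

theorem u1_add (x y : (M D).N1) : u1 D ((M D).add x y) = u1 D x + u1 D y := rfl
theorem u1_mul (x y : (M D).N1) : u1 D ((M D).mul x y) = u1 D x * u1 D y := rfl
theorem u1_one : u1 D (M D).one = ((fun _ => 1 : ℕ → ℕ) : G1) := rfl

theorem mem_modT {p b : ℕ} (X : Finset ℕ) {i c : ℕ} (hi : i ≤ b) (hc : c < p) :
    i * p + c ∈ modT p b X ↔ (X.filter fun j => j < i).card % p = c := by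
  have hp : 0 < p := by omega
  have e1 : (i * p + c) / p = i := by
    rw [mul_comm, Nat.mul_add_div hp, Nat.div_eq_of_lt hc, add_zero]
  have e2 : (i * p + c) % p = c := by rw [mul_comm, Nat.mul_add_mod, Nat.mod_eq_of_lt hc]
  unfold modT
  rw [Finset.mem_filter, Finset.mem_range, e1, e2]
  have : i * p + c < (b + 1) * p := by nlinarith
  exact ⟨fun h => h.2, fun h => ⟨this, h⟩⟩

theorem count_step (X : Finset ℕ) (i : ℕ) : (X.filter fun j => j < i + 1).card =
    (X.filter fun j => j < i).card + if i ∈ X then 1 else 0 := by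
  by_cases h : i ∈ X
  · rw [if_pos h]
    have : (X.filter fun j => j < i + 1) = insert i (X.filter fun j => j < i) := by
      ext j
      simp only [Finset.mem_filter, Finset.mem_insert]
      constructor
      · rintro ⟨h1, h2⟩
        rcases Nat.lt_succ_iff_lt_or_eq.1 h2 with h3 | h3
        · exact Or.inr ⟨h1, h3⟩
        · exact Or.inl h3
      · rintro (rfl | ⟨h1, h2⟩)
        · exact ⟨h, Nat.lt_succ_self _⟩
        · exact ⟨h1, h2.trans (Nat.lt_succ_self _)⟩
    rw [this, Finset.card_insert_of_notMem (by simp)]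
  · rw [if_neg h, add_zero]
    congr 1
    ext j
    simp only [Finset.mem_filter]
    constructor
    · rintro ⟨h1, h2⟩
      refine ⟨h1, lt_of_le_of_ne (Nat.lt_succ_iff.1 h2) ?_⟩
      rintro rfl
      exact h h1
    · rintro ⟨h1, h2⟩
      exact ⟨h1, h2.trans (Nat.lt_succ_self _)⟩

/-- The recursion for the table modulo `p`. -/
theorem modT_succ {p b : ℕ} (hp : 1 < p) (X : Finset ℕ) {i c : ℕ} (hi : i + 1 ≤ b) (hc : c < p) :
    (i + 1) * p + c ∈ modT p b X ↔
      (i ∈ X ∧ i * p + (c + p - 1) % p ∈ modT p b X) ∨ (i ∉ X ∧ i * p + c ∈ modT p b X) := by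
  rw [mem_modT X hi hc, mem_modT X (by omega) hc, mem_modT X (by omega) (Nat.mod_lt _ (by omega)),
    count_step]
  by_cases h : i ∈ X
  · rw [if_pos h]
    simp only [h, true_and, not_true, false_and, or_false]
    set u := (X.filter fun j => j < i).card
    have key : ∀ u : ℕ, (u + 1) % p = c ↔ u % p = (c + p - 1) % p := by
      intro u
      constructor
      · intro h1
        have h2 : (c + p - 1) ≡ u [MOD p] := by
          have h3 : c ≡ u + 1 [MOD p] := by
            unfold Nat.ModEq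
            rw [h1, Nat.mod_eq_of_lt hc]
          have h4 : c + p - 1 + 1 ≡ u + 1 [MOD p] := by
            have h5 : c + p - 1 + 1 = c + p := by omega
            rw [h5]
            calc c + p ≡ c [MOD p] := by unfold Nat.ModEq; simp
              _ ≡ u + 1 [MOD p] := h3
          exact Nat.ModEq.add_right_cancel' 1 h4
        exact h2.symm
      · intro h1
        have h2 : u ≡ c + p - 1 [MOD p] := h1
        have h3 : u + 1 ≡ c [MOD p] := by
          calc u + 1 ≡ c + p - 1 + 1 [MOD p] := Nat.ModEq.add_right 1 h2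
            _ = c + p := by omega
            _ ≡ c [MOD p] := by unfold Nat.ModEq; simp
        unfold Nat.ModEq at h3
        rw [h3, Nat.mod_eq_of_lt hc]
    exact key u
  · rw [if_neg h]
    simp only [h, false_and, not_false_eq_true, true_and, false_or, add_zero]

theorem x2_mem (W : Tr) (B : ℕ → Cantor) (x : (M D).N1) (f : ℕ → ℕ) (hx : u1 D x = (f : G1)) :
    (M D).mem x (x2 D W B) ↔ ∀ᶠ s in HF, f s ∈ (tv D W B s).2 :=
  mem_M D _ _ _ _ hx rfl

/-- Counting modulo `p`. -/
theorem M_count (X : (M D).N2) (b : (M D).N1) : ∃ Y : (M D).N2, CountsMod (M D) p X b Y := by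
  have hp1 : 1 < p := (Fact.out : p.Prime).one_lt
  obtain ⟨T, A, hv, hw⟩ := repM D (fun _ => b) (fun _ => X)
  have hb : b = x1 D (T 0) A := congrFun hv 0
  have hX : X = x2 D (T 0) A := congrFun hw 0
  refine ⟨x2 D (mdT (T 0)) A, fun c hc => ?_, fun i hi c hc => ?_⟩
  · rw [x2_mem D _ _ _ _ (u1_num D c)]
    have : ∀ s, (c ∈ (tv D (mdT (T 0)) A s).2 ↔ c = 0) := by
      intro s
      have h1 := mem_modT (b := (tv D (T 0) A s).1) (tv D (T 0) A s).2 (i := 0) (Nat.zero_le _) hc
      rw [zero_mul, zero_add] at h1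
      refine h1.trans ?_
      simp
      omega
    simp only [this]
    exact Filter.eventually_const
  · have hi' : ∀ᶠ s in HF, r1 D i s + 1 ≤ (tv D (T 0) A s).1 := by
      have h1 : u1 D ((M D).add i (M D).one) = ((fun s => r1 D i s + 1 : ℕ → ℕ) : G1) := by
        rw [u1_add, r1_spec D i, u1_one]
        rfl
      exact (le_M D _ _ _ _ h1 (congrArg (u1 D) hb)).1 hi
    have g1 : u1 D ((M D).add ((M D).mul ((M D).add i (M D).one) ((M D).num p)) ((M D).num c)) =
        ((fun s => (r1 D i s + 1) * p + c : ℕ → ℕ) : G1) := by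
      rw [u1_add, u1_mul, u1_add, r1_spec D i, u1_one, u1_num, u1_num]
      rfl
    have g2 : ∀ c' : ℕ, u1 D ((M D).add ((M D).mul i ((M D).num p)) ((M D).num c')) =
        ((fun s => r1 D i s * p + c' : ℕ → ℕ) : G1) := by
      intro c'
      rw [u1_add, u1_mul, r1_spec D i, u1_num, u1_num]
      rfl
    rw [x2_mem D _ _ _ _ g1, x2_mem D _ _ _ _ (g2 _), x2_mem D _ _ _ _ (g2 _),
      mem_M D i X _ _ (r1_spec D i) (congrArg (u2 D) hX),
      ← Ultrafilter.eventually_not, ← Filter.eventually_and, ← Filter.eventually_and,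
      ← Ultrafilter.eventually_or]
    apply eventually_congr
    filter_upwards [hi'] with s hs
    exact modT_succ hp1 _ hs hc

end

end Pool.Agent.H23P
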