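import Pool.Agent.H23P.Upper

/-!
Definability of the standard numbers in the model, and decoding of reals.
-/

namespace Pool.Agent.H23P

open Set Filter FirstOrder FirstOrder.Language Pool.Agent.H23 Pool.Agent.H23L

noncomputable section

/-- The relations defining the standard numbers and the bits of a real. -/
def OmR (M : Two) (N : M.N1) (u : M.N2) (n : M.N1) : Prop :=
  M.le (M.add n M.one) N ∧ ∃ y, M.le (M.len y) (M.mul (M.add N M.one) (M.add N M.one)) ∧
    (CntR M u y (M.add n n) N ∨ CntR M u y (M.add (M.add n n) M.one) N)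
def BitR (M : Two) (N : M.N1) (x : M.N2) (n : M.N1) : Prop :=
  ∃ y, M.le (M.len y) (M.mul (M.add N M.one) (M.add N M.one)) ∧
    CntR M x y (M.add (M.add n n) M.one) N

variable {P : RelS} {p : ℕ} [Fact p.Prime] (D : (Y P p).Dat)

theorem cntR_M (X Z : (M D).N2) (r N : (M D).N1) (F G : ℕ → Finset ℕ) (f g : ℕ → ℕ)
    (hX : u2 D X = (F : G2)) (hZ : u2 D Z = (G : G2)) (hr : u1 D r = (f : G1))
    (hN : u1 D N = (g : G1)) :
    CntR (M D) X Z r N ↔ ∀ᶠ s in HF, CntR (std P) (F s) (G s) (f s) (g s) := by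
  obtain ⟨T, A, hv, hw⟩ := repM D (seq2 r N) (seq2 X Z)
  have h0 : x1 D (T 0) A = r := (congrFun hv 0).symm
  have h1 : x1 D (T 1) A = N := (congrFun hv 1).symm
  have h2 : x2 D (T 0) A = X := (congrFun hw 0).symm
  have h3 : x2 D (T 1) A = Z := (congrFun hw 1).symm
  have h := elem D isSB0_fCnt T A
  rw [sat_fCnt, h0, h1, h2, h3] at h
  rw [h]
  have g0 : ∀ᶠ s in HF, nE D T A s 0 = f s := by
    rw [← h0] at hr; exact Germ.coe_eq.1 hr
  have g1 : ∀ᶠ s in HF, nE D T A s 1 = g s := by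
    rw [← h1] at hN; exact Germ.coe_eq.1 hN
  have g2 : ∀ᶠ s in HF, sE D T A s 0 = F s := by
    rw [← h2] at hX; exact Germ.coe_eq.1 hX
  have g3 : ∀ᶠ s in HF, sE D T A s 1 = G s := by
    rw [← h3] at hZ; exact Germ.coe_eq.1 hZ
  apply eventually_congr
  filter_upwards [g0, g1, g2, g3] with s a0 a1 a2 a3
  have h5 : SatN P (nE D T A s) (sE D T A s) fCnt ↔
      CntR (std P) (sE D T A s 0) (sE D T A s 1) (nE D T A s 0) (nE D T A s 1) :=
    sat_fCnt (std P) _ _
  rw [h5, a0, a1, a2, a3]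

/-- Standard numbers. -/
def nat (n : ℕ) : (M D).N1 := (M D).num n

theorem u1_nat (n : ℕ) : u1 D (nat D n) = ((fun _ => n : ℕ → ℕ) : G1) := u1_num D n

theorem nat_add (m n : ℕ) : (M D).add (nat D m) (nat D n) = nat D (m + n) := by
  rw [u1_inj, u1_add, u1_nat, u1_nat, u1_nat]
  rfl
theorem nat_mul (m n : ℕ) : (M D).mul (nat D m) (nat D n) = nat D (m * n) := by
  rw [u1_inj, u1_mul, u1_nat, u1_nat, u1_nat]
  rfl
theorem nat_one : nat D 1 = (M D).one := by
  rw [u1_inj, u1_nat]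
  rfl

def szT : Tr := .var (.inr ())

/-- The parameter `N`. -/
def eN : (M D).N1 := x1 D szT dA
/-- The string of a real. -/
def eU (α : Cantor) : (M D).N2 := x2 D dT (fun _ => α)
/-- The witness of a real. -/
def eW (α : Cantor) (k : ℕ) : (M D).N2 := x2 D (.var (.inl (0, k + 1))) (fun _ => α)

theorem u1_eN : u1 D (eN D) = ((fun s => 2 ^ (s + 1) : ℕ → ℕ) : G1) := rfl

/-- The family of instances of a real. -/
def fam (α : Cantor) (s : ℕ) : Fin (2 ^ (s + 1)) × Bool → Q (s + 1) :=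
  raw P p (D.leaf s (ndR α (D.N s)))

theorem u2_eU (α : Cantor) :
    u2 D (eU D α) = ((fun s => Ustr (fam D α s) : ℕ → Finset ℕ) : G2) := rfl

theorem u2_eW (α : Cantor) (k : ℕ) :
    u2 D (eW D α k) = ((fun s => genR (fam D α s) (k + 1) (α k) : ℕ → Finset ℕ) : G2) := rfl

theorem nat_le_eN (n : ℕ) : (M D).le (nat D n) (eN D) := by
  rw [le_M D _ _ _ _ (u1_nat D n) (u1_eN D)]
  filter_upwards [hf_ge n] with s hs
  exact (hs.trans (Nat.le_succ s)).trans Nat.lt_two_pow_self.le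

/-- Bound for the witnesses. -/
def bN (M : Two) (N : M.N1) : M.N1 := M.mul (M.add N M.one) (M.add N M.one)

theorem u1_bN : u1 D (bN (M D) (eN D)) =
    ((fun s => (2 ^ (s + 1) + 1) * (2 ^ (s + 1) + 1) : ℕ → ℕ) : G1) := by
  unfold bN
  rw [u1_mul, u1_add, u1_eN, u1_one]
  rfl

theorem sl_Tab' {σ : ℕ} (q : Q σ) : sl (Tab q) ≤ (2 ^ σ + 1) * (2 ^ σ + 1) := by
  refine sl_le fun i hi => ?_
  unfold Tab at hi
  rw [Finset.mem_filter, Finset.mem_range] at hi
  exact hi.1

theorem len_eW (α : Cantor) (k : ℕ) : (M D).le ((M D).len (eW D α k)) (bN (M D) (eN D)) := by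
  rw [le_M D _ _ (fun s => sl (genR (fam D α s) (k + 1) (α k))) _ rfl (u1_bN D)]
  refine Eventually.of_forall fun s => ?_
  simp only [genR]
  split_ifs
  · exact sl_Tab' _
  · simp [sl]

theorem u1_blk (n : (M D).N1) (f : ℕ → ℕ) (hn : u1 D n = (f : G1)) (ε : Bool) :
    u1 D (if ε then (M D).add ((M D).add n n) (M D).one else (M D).add n n) =
      ((fun s => bi (f s) ε : ℕ → ℕ) : G1) := by
  cases ε
  · simp only [Bool.false_eq_true, if_false]
    rw [u1_add, hn]
    change (((fun s => f s + f s : ℕ → ℕ) : G1)) = _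
    congr 1
    funext s
    unfold bi
    simp
    omega
  · simp only [if_true]
    rw [u1_add, u1_add, hn, u1_one]
    change (((fun s => f s + f s + 1 : ℕ → ℕ) : G1)) = _
    congr 1
    funext s
    unfold bi
    simp
    omega

/-- The block relation with a real. -/
theorem cnt_blk (α : Cantor) (y : (M D).N2) (G : ℕ → Finset ℕ) (hy : u2 D y = (G : G2))
    (n : (M D).N1) (f : ℕ → ℕ) (hn : u1 D n = (f : G1)) (hlt : ∀ᶠ s in HF, f s < 2 ^ (s + 1))
    (ε : Bool) :
    CntR (M D) (eU D α) y (if ε then (M D).add ((M D).add n n) (M D).one else (M D).add n n)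
      (eN D) ↔ ∀ᶠ s in HF, ∃ h : f s < 2 ^ (s + 1), Valid (s + 1) (fam D α s (⟨f s, h⟩, ε)) (G s) := by
  rw [cntR_M D _ _ _ _ _ _ _ _ (u2_eU D α) hy (u1_blk D n f hn ε) (u1_eN D)]
  apply eventually_congr
  filter_upwards [hlt] with s hs
  have h := cntR_std P (σ := s + 1) (r := bi (f s) ε) (x := Ustr (fam D α s)) (y := G s)
    (q := fam D α s (⟨f s, hs⟩, ε)) (fun i hi => mem_Ustr (fam D α s) ⟨f s, hs⟩ ε ⟨i, hi⟩)
  rw [h]
  exact ⟨fun h => ⟨hs, h⟩, fun h => h.2⟩

theorem std_lt (k : ℕ) : ∀ᶠ s in HF, (fun _ : ℕ => k) s < 2 ^ (s + 1) := by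
  filter_upwards [hf_ge k] with s hs
  have : k < 2 ^ k := Nat.lt_two_pow_self
  exact this.trans_le (Nat.pow_le_pow_right (by norm_num) (by omega))

theorem par_node (α : Cantor) (k : ℕ) :
    CntR (M D) (eU D α) (eW D α k)
      (if α k then (M D).add ((M D).add (nat D k) (nat D k)) (M D).one else
        (M D).add (nat D k) (nat D k)) (eN D) := by
  rw [cnt_blk D α _ _ (u2_eW D α k) (nat D k) _ (u1_nat D k) (std_lt k)]
  filter_upwards [std_lt k] with s hs
  refine ⟨hs, ?_⟩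
  simp only [genR]
  rw [dif_pos hs]
  exact valid_Tab _

theorem om_nat (α : Cantor) (k : ℕ) : OmR (M D) (eN D) (eU D α) (nat D k) := by
  refine ⟨?_, eW D α k, len_eW D _ _, ?_⟩
  · rw [← nat_one, nat_add]
    exact nat_le_eN D _
  · have h := par_node D α k
    cases hα : α k
    · rw [hα] at h
      exact Or.inl h
    · rw [hα] at h
      exact Or.inr h

/-- No element of the model is a table for a block which it should not have. -/
theorem no_cnt (α : Cantor) (y : (M D).N2) (n : (M D).N1) (f : ℕ → ℕ) (hn : u1 D n = (f : G1))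
    (hlt : ∀ᶠ s in HF, f s < 2 ^ (s + 1)) (ε : Bool)
    (h : (∀ k, ∀ᶠ s in HF, k ≤ f s) ∨ (∀ᶠ s in HF, α (f s) ≠ ε)) :
    ¬ CntR (M D) (eU D α) y (if ε then (M D).add ((M D).add n n) (M D).one else (M D).add n n)
      (eN D) := by
  intro hc
  obtain ⟨u, B, rfl⟩ := x2_surj D y
  let A' : ℕ → Cantor := fun i => if i = 0 then α else B (i - 1)
  let W : Tr := rel (fun i => i + 1) u
  have hA' : A' ∘ (fun i => i + 1) = B := by funext i; simp [A']
  have hW : x2 D u B = x2 D W A' := by rw [x2_rel, hA']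
  rw [hW, cnt_blk D α _ _ rfl n f hn hlt ε] at hc
  obtain ⟨m, hm⟩ := Ten_surj W
  have hcond : ∀ᶠ s in HF, (Y P p).dg m ≤ f s + 1 ∨ A' 0 (f s) ≠ ε := by
    rcases h with h | h
    · filter_upwards [h ((Y P p).dg m)] with s hs
      exact Or.inl (hs.trans (Nat.le_succ _))
    · filter_upwards [h] with s hs
      exact Or.inr hs
  obtain ⟨s, h1, h2, h3, h4⟩ := (hc.and (hcond.and (hlt.and
    (hf_of_atTop (D.tend (max (m + 1) ((Y P p).dg m))))))).exists
  refine D.avoid (m := m) (s := s) (by omega) (by omega) A' (j := 0) (by omega) (k := f s) h3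
    (b := ε) h2 ?_
  obtain ⟨h5, h6⟩ := h1
  refine ⟨h5, ?_⟩
  rw [hm]
  exact h6

theorem bit_iff (α : Cantor) (k : ℕ) : BitR (M D) (eN D) (eU D α) (nat D k) ↔ α k = true := by
  constructor
  · rintro ⟨y, -, h1⟩
    by_contra hα
    refine no_cnt D α y (nat D k) _ (u1_nat D k) (std_lt k) true (Or.inr ?_) h1
    exact Eventually.of_forall fun s => hα
  · intro hα
    refine ⟨eW D α k, len_eW D _ _, ?_⟩
    have h := par_node D α k
    rw [hα] at h
    exact h

theorem om_std (α : Cantor) (n : (M D).N1) (h : OmR (M D) (eN D) (eU D α) n) :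
    ∃ k, n = nat D k := by
  obtain ⟨hle, y, -, hpar⟩ := h
  by_contra hcon
  push Not at hcon
  have hr := r1_spec D n
  have hlt : ∀ᶠ s in HF, r1 D n s < 2 ^ (s + 1) := by
    have h1 : u1 D ((M D).add n (M D).one) = ((fun s => r1 D n s + 1 : ℕ → ℕ) : G1) := by
      rw [u1_add, hr, u1_one]; rfl
    exact (le_M D _ _ _ _ h1 (u1_eN D)).1 hle
  have hne : ∀ k, ∀ᶠ s in HF, r1 D n s ≠ k := by
    intro k
    apply Ultrafilter.eventually_not.2
    intro h2
    apply hcon k
    rw [u1_inj, u1_nat, hr]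
    exact Germ.coe_eq.2 h2
  have hge : ∀ k, ∀ᶠ s in HF, k ≤ r1 D n s := by
    intro k
    have h1 : ∀ᶠ s in HF, ∀ j ∈ Finset.range k, r1 D n s ≠ j := by
      rw [Filter.eventually_all_finset]
      exact fun j _ => hne j
    filter_upwards [h1] with s hs
    by_contra hlt
    push Not at hlt
    exact hs _ (Finset.mem_range.2 hlt) rfl
  rcases hpar with hpar | hpar
  · exact no_cnt D α y n _ hr hlt false (Or.inl hge) hpar
  · exact no_cnt D α y n _ hr hlt true (Or.inl hge) hpar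

end

end Pool.Agent.H23P
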