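import Pool.Agent.H23P.ApxF

/-!
Terms for the elements of the model.
-/

namespace Pool.Agent.H23P

open Set Filter FirstOrder FirstOrder.Language

noncomputable section

/-- Function symbols: least witnesses, comprehension, pairing and counting modulo a prime. -/
inductive PF : ℕ → Type
  | wit (l c k : ℕ) (φ : Fm) (h : IsSB0 φ) : PF l
  | comp (l c k : ℕ) (φ : Fm) (h : IsSB0 φ) (h' : IsPure φ) : PF l
  | pr : PF 2
  | md : PF 1

def pL : Language := ⟨PF, fun _ => Empty⟩

abbrev Tr := pL.Term ((ℕ × ℕ) ⊕ Unit)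

def nenv {l : ℕ} (a : Fin l → ℕ × Finset ℕ) : ℕ → ℕ := fun j =>
  if h : j < l then (a ⟨j, h⟩).1 else 0
def senv {l : ℕ} (a : Fin l → ℕ × Finset ℕ) : ℕ → Finset ℕ := fun j =>
  if h : j < l then (a ⟨j, h⟩).2 else ∅

open scoped Classical in
/-- The least `i ≤ B` with `R i`, or `0`. -/
def leastN (B : ℕ) (R : ℕ → Prop) : ℕ := if h : ∃ i, i ≤ B ∧ R i then Nat.find h else 0

theorem leastN_le (B : ℕ) (R : ℕ → Prop) : leastN B R ≤ B := by
  classical
  unfold leastN
  split_ifs with h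
  · exact (Nat.find_spec h).1
  · exact Nat.zero_le _

theorem leastN_spec {B : ℕ} {R : ℕ → Prop} (h : ∃ i, i ≤ B ∧ R i) : R (leastN B R) := by
  classical
  unfold leastN
  rw [dif_pos h]
  exact (Nat.find_spec h).2

theorem leastN_min {B : ℕ} {R : ℕ → Prop} {i : ℕ} (hi : i < leastN B R) : ¬ R i := by
  classical
  unfold leastN at hi
  split_ifs at hi with h
  · intro hR
    exact Nat.find_min h hi ⟨hi.le.trans (Nat.find_spec h).1, hR⟩
  · exact absurd hi (Nat.not_lt_zero _)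

theorem leastN_eq {B : ℕ} {R : ℕ → Prop} {i : ℕ} (hi : i ≤ B) (h : R i) (hlt : ∀ j < i, ¬ R j) :
    leastN B R = i := by
  classical
  have hex : ∃ i, i ≤ B ∧ R i := ⟨i, hi, h⟩
  unfold leastN
  rw [dif_pos hex]
  refine (Nat.find_eq_iff hex).2 ⟨⟨hi, h⟩, fun j hj hR => hlt j hj hR.2⟩

theorem leastN_none {B : ℕ} {R : ℕ → Prop} (h : ¬ ∃ i, i ≤ B ∧ R i) : leastN B R = 0 := by
  unfold leastN
  rw [dif_neg h]

/-- The table of the numbers of elements below `0, …, b` modulo `p`. -/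
def modT (p b : ℕ) (X : Finset ℕ) : Finset ℕ :=
  (Finset.range ((b + 1) * p)).filter fun v => (X.filter fun i => i < v / p).card % p = v % p

variable (P : RelS) (p : ℕ)

open scoped Classical in
/-- Interpretation of the function symbols at stage `s`. -/
def pf (σ : ℕ) : ∀ {l : ℕ}, PF l → (Fin l → ℕ × Finset ℕ) → ℕ × Finset ℕ
  | _, .wit _ c k φ _, a =>
    (leastN (2 ^ (c * σ)) fun i => SatN P (Function.update (nenv a) k i) (senv a) φ, ∅)
  | _, .comp _ c k φ _ _, a =>
    (0, (Finset.range (2 ^ (c * σ))).filter fun i =>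
      SatN P (Function.update (nenv a) k i) (senv a) φ)
  | _, .pr, a => ((a 0).1, (a 1).2)
  | _, .md, a => (0, modT p (a 0).1 (a 0).2)

/-- Evaluation of terms. -/
def ev (σ : ℕ) (E : ℕ × ℕ → Finset ℕ) : Tr → ℕ × Finset ℕ
  | .var (.inl q) => (0, E q)
  | .var (.inr _) => (2 ^ σ, ∅)
  | .func F ts => pf P p σ F fun i => ev σ E (ts i)

/-! ### Enumeration -/

def encT : NTm → ℕ
  | .var i => Nat.pair 0 i
  | .zero => Nat.pair 1 0
  | .one => Nat.pair 2 0
  | .add t u => Nat.pair 3 (Nat.pair (encT t) (encT u))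
  | .mul t u => Nat.pair 4 (Nat.pair (encT t) (encT u))
  | .len j => Nat.pair 5 j

theorem encT_inj : Function.Injective encT := by
  intro t
  induction t with
  | var i => intro u h; cases u <;> simp_all [encT, Nat.pair_eq_pair]
  | zero => intro u h; cases u <;> simp_all [encT, Nat.pair_eq_pair]
  | one => intro u h; cases u <;> simp_all [encT, Nat.pair_eq_pair]
  | add t t' ih ih' =>
    intro u h
    cases u <;> simp only [encT, Nat.pair_eq_pair] at h <;> try omega
    rw [ih h.2.1, ih' h.2.2]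
  | mul t t' ih ih' =>
    intro u h
    cases u <;> simp only [encT, Nat.pair_eq_pair] at h <;> try omega
    rw [ih h.2.1, ih' h.2.2]
  | len j => intro u h; cases u <;> simp_all [encT, Nat.pair_eq_pair]

instance : Countable NTm := encT_inj.countable

instance : Encodable NTm := Encodable.ofCountable _

def encF : Fm → ℕ
  | .bot => Nat.pair 0 0
  | .eq t u => Nat.pair 1 (Nat.pair (encT t) (encT u))
  | .le t u => Nat.pair 2 (Nat.pair (encT t) (encT u))
  | .mem t j => Nat.pair 3 (Nat.pair (encT t) j)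
  | .imp φ ψ => Nat.pair 4 (Nat.pair (encF φ) (encF ψ))
  | .allN k t φ => Nat.pair 5 (Nat.pair k (Nat.pair (encT t) (encF φ)))
  | .allS k t φ => Nat.pair 6 (Nat.pair k (Nat.pair (encT t) (encF φ)))
  | .rel i ts Xs => Nat.pair 7 (Nat.pair i (Nat.pair (Encodable.encode ts) (Encodable.encode Xs)))

theorem encF_inj : Function.Injective encF := by
  intro φ
  induction φ with
  | bot => intro ψ h; cases ψ <;> simp_all [encF, Nat.pair_eq_pair]
  | eq t u =>
    intro ψ h
    cases ψ <;> simp only [encF, Nat.pair_eq_pair] at h <;> try omega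
    rw [encT_inj h.2.1, encT_inj h.2.2]
  | le t u =>
    intro ψ h
    cases ψ <;> simp only [encF, Nat.pair_eq_pair] at h <;> try omega
    rw [encT_inj h.2.1, encT_inj h.2.2]
  | mem t j =>
    intro ψ h
    cases ψ <;> simp only [encF, Nat.pair_eq_pair] at h <;> try omega
    rw [encT_inj h.2.1, h.2.2]
  | rel i ts Xs =>
    intro ψ h
    cases ψ <;> simp only [encF, Nat.pair_eq_pair] at h <;> try omega
    rw [h.2.1, Encodable.encode_injective h.2.2.1, Encodable.encode_injective h.2.2.2]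
  | imp φ φ' ih ih' =>
    intro ψ h
    cases ψ <;> simp only [encF, Nat.pair_eq_pair] at h <;> try omega
    rw [ih h.2.1, ih' h.2.2]
  | allN k t φ ih =>
    intro ψ h
    cases ψ <;> simp only [encF, Nat.pair_eq_pair] at h <;> try omega
    rw [h.2.1, encT_inj h.2.2.1, ih h.2.2.2]
  | allS k t φ ih =>
    intro ψ h
    cases ψ <;> simp only [encF, Nat.pair_eq_pair] at h <;> try omega
    rw [h.2.1, encT_inj h.2.2.1, ih h.2.2.2]

instance : Countable Fm := encF_inj.countable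

instance : Countable (Σ n, PF n) := by
  let Src := (ℕ × ℕ × ℕ × {φ : Fm // IsSB0 φ}) ⊕ (ℕ × ℕ × ℕ × {φ : Fm // IsSB0 φ ∧ IsPure φ}) ⊕
    Bool
  have hS : Countable Src := inferInstance
  have : Function.Surjective (fun q : Src => (match q with
      | Sum.inl ⟨l, c, k, ⟨φ, h⟩⟩ => ⟨l, .wit l c k φ h⟩
      | Sum.inr (Sum.inl ⟨l, c, k, ⟨φ, h⟩⟩) => ⟨l, .comp l c k φ h.1 h.2⟩
      | Sum.inr (Sum.inr false) => ⟨2, .pr⟩
      | Sum.inr (Sum.inr true) => ⟨1, .md⟩ : Σ n, PF n)) := by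
    rintro ⟨l, F⟩
    cases F with
    | wit _ c k φ h => exact ⟨Sum.inl ⟨_, c, k, ⟨φ, h⟩⟩, rfl⟩
    | comp _ c k φ h h' => exact ⟨Sum.inr (Sum.inl ⟨_, c, k, ⟨φ, h, h'⟩⟩), rfl⟩
    | pr => exact ⟨Sum.inr (Sum.inr false), rfl⟩
    | md => exact ⟨Sum.inr (Sum.inr true), rfl⟩
  exact this.countable

instance : Countable (Σ n, pL.Functions n) := inferInstanceAs (Countable (Σ n, PF n))

instance : Countable Tr := inferInstanceAs (Countable (pL.Term ((ℕ × ℕ) ⊕ Unit)))

instance : Inhabited Tr := ⟨.var (.inl (0, 0))⟩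

theorem exists_enum : ∃ T : ℕ → Tr, Function.Surjective T := exists_surjective_nat Tr

/-- An enumeration of all terms. -/
def Ten : ℕ → Tr := exists_enum.choose

theorem Ten_surj : Function.Surjective Ten := exists_enum.choose_spec

theorem ev_dep (t : Tr) : ∃ N, ∀ (P : RelS) (p σ : ℕ) (E E' : ℕ × ℕ → Finset ℕ),
    (∀ j < N, ∀ i < N, E (j, i) = E' (j, i)) → ev P p σ E t = ev P p σ E' t := by
  induction t with
  | var i =>
    rcases i with ⟨j, i⟩ | κ
    · refine ⟨max j i + 1, fun P p σ E E' hE => ?_⟩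
      simp only [ev]
      rw [hE j (by omega) i (by omega)]
    · exact ⟨0, fun P p σ E E' _ => rfl⟩
  | @func l F ts ih =>
    choose N hN using ih
    refine ⟨Finset.univ.sup N, fun P p σ E E' hE => ?_⟩
    simp only [ev]
    congr 1
    funext i
    exact hN i P p σ E E' (fun j hj i' hi' =>
      hE j (hj.trans_le (Finset.le_sup (Finset.mem_univ i))) i'
        (hi'.trans_le (Finset.le_sup (Finset.mem_univ i))))

/-- Number of variables of a term. -/
def nv (t : Tr) : ℕ := (ev_dep t).choose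

theorem nv_spec (t : Tr) {P : RelS} {p σ : ℕ} {E E' : ℕ × ℕ → Finset ℕ}
    (hE : ∀ j < nv t, ∀ i < nv t, E (j, i) = E' (j, i)) : ev P p σ E t = ev P p σ E' t :=
  (ev_dep t).choose_spec P p σ E E' hE

/-- Renaming real variables. -/
def rel (f : ℕ → ℕ) (t : Tr) : Tr := t.relabel (Sum.map (fun q => (f q.1, q.2)) id)

theorem ev_rel (σ : ℕ) (E : ℕ × ℕ → Finset ℕ) (f : ℕ → ℕ) (t : Tr) :
    ev P p σ E (rel f t) = ev P p σ (fun q => E (f q.1, q.2)) t := by
  unfold rel
  induction t with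
  | var i =>
    rcases i with i | κ
    · rfl
    · rfl
  | @func l F ts ih =>
    simp only [Term.relabel, ev]
    congr 1
    funext i
    exact ih i

/-- The number part of a term is bounded. -/
theorem ev_num (t : Tr) : ∃ c, ∀ (P : RelS) (p σ : ℕ) (E : ℕ × ℕ → Finset ℕ),
    (ev P p σ E t).1 ≤ 2 ^ (c * σ) := by
  induction t with
  | var i =>
    rcases i with q | κ
    · exact ⟨0, fun P p σ E => Nat.zero_le _⟩
    · exact ⟨1, fun P p σ E => by simp [ev]⟩
  | @func l F ts ih =>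
    cases F with
    | wit _ c k φ hφ => exact ⟨c, fun P p σ E => leastN_le _ _⟩
    | comp _ c k φ hφ h' => exact ⟨0, fun P p σ E => Nat.zero_le _⟩
    | pr =>
      obtain ⟨c0, h0⟩ := ih 0
      exact ⟨c0, fun P p σ E => h0 P p σ E⟩
    | md => exact ⟨0, fun P p σ E => Nat.zero_le _⟩

/-! ### Uniform definability of terms -/

theorem exists_wit {φ : Fm} (hφ : IsSB0 φ) (k c : ℕ) (T : ℕ → Tr) : ∃ W : Tr, ∀ (P : RelS)
    (p σ : ℕ) (E : ℕ × ℕ → Finset ℕ), (ev P p σ E W).1 = leastN (2 ^ (c * σ)) fun i =>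
      SatN P (Function.update (fun j => (ev P p σ E (T j)).1) k i)
        (fun j => (ev P p σ E (T j)).2) φ := by
  obtain ⟨m, hm⟩ := sat_dep φ
  refine ⟨Term.func (L := pL) (PF.wit m c k φ hφ) fun i => T i, fun P p σ E => ?_⟩
  simp only [ev, pf]
  congr 1
  funext i
  refine propext (hm (std P) _ _ _ _ (update_agree (fun j hj => ?_) i) fun j hj => ?_)
  · exact dif_pos hj
  · exact dif_pos hj

theorem exists_comp {φ : Fm} (hφ : IsSB0 φ) (h' : IsPure φ) (k c : ℕ) (T : ℕ → Tr) :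
    ∃ W : Tr, ∀ (P : RelS) (p σ : ℕ) (E : ℕ × ℕ → Finset ℕ) (i : ℕ),
    (i ∈ (ev P p σ E W).2 ↔ i < 2 ^ (c * σ) ∧
      SatN P (Function.update (fun j => (ev P p σ E (T j)).1) k i)
        (fun j => (ev P p σ E (T j)).2) φ) := by
  classical
  obtain ⟨m, hm⟩ := sat_dep φ
  refine ⟨Term.func (L := pL) (PF.comp m c k φ hφ h') fun i => T i, fun P p σ E i => ?_⟩
  simp only [ev, pf]
  rw [Finset.mem_filter, Finset.mem_range]
  refine and_congr Iff.rfl (hm (std P) _ _ _ _ (update_agree (fun j hj => ?_) i) fun j hj => ?_)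
  · exact dif_pos hj
  · exact dif_pos hj

/-- Pairing of terms. -/
def prT (t u : Tr) : Tr := Term.func (L := pL) PF.pr (fun i : Fin 2 => if i = 0 then t else u)

/-- Counting. -/
def mdT (t : Tr) : Tr := Term.func (L := pL) PF.md (fun _ : Fin 1 => t)

@[simp] theorem ev_prT_fst (σ : ℕ) (E : ℕ × ℕ → Finset ℕ) (t u : Tr) :
    (ev P p σ E (prT t u)).1 = (ev P p σ E t).1 := rfl
@[simp] theorem ev_prT_snd (σ : ℕ) (E : ℕ × ℕ → Finset ℕ) (t u : Tr) :
    (ev P p σ E (prT t u)).2 = (ev P p σ E u).2 := rfl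
@[simp] theorem ev_mdT (σ : ℕ) (E : ℕ × ℕ → Finset ℕ) (t : Tr) :
    (ev P p σ E (mdT t)).2 = modT p (ev P p σ E t).1 (ev P p σ E t).2 := rfl

theorem ev_str (t : Tr) (p b : ℕ) : ∃ c, ∀ (P : RelS) (σ : ℕ), 1 ≤ σ →
    ∀ (E : ℕ × ℕ → Finset ℕ), (∀ q, sl (E q) ≤ 2 ^ (b * σ)) →
    sl (ev P p σ E t).2 ≤ 2 ^ (c * σ) := by
  induction t with
  | var i =>
    rcases i with q | κ
    · exact ⟨b, fun P σ _ E hE => hE q⟩
    · exact ⟨0, fun P σ _ E _ => by simp [ev, sl]⟩
  | @func l F ts ih =>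
    cases F with
    | wit _ c k φ hφ => exact ⟨c, fun P σ _ E _ => by simp [ev, pf, sl]⟩
    | comp _ c k φ hφ h' =>
      classical
      refine ⟨c, fun P σ _ E _ => sl_le fun i hi => ?_⟩
      simp only [ev, pf] at hi
      rw [Finset.mem_filter, Finset.mem_range] at hi
      exact hi.1
    | pr =>
      obtain ⟨c1, h1⟩ := ih 1
      exact ⟨c1, fun P σ hσ E hE => h1 P σ hσ E hE⟩
    | md =>
      obtain ⟨c0, h0⟩ := ev_num (ts 0)
      refine ⟨c0 + 1 + p, fun P σ hσ E hE => sl_le fun i hi => ?_⟩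
      have hi' : i ∈ modT p (ev P p σ E (ts 0)).1 (ev P p σ E (ts 0)).2 := hi
      unfold modT at hi'
      rw [Finset.mem_filter, Finset.mem_range] at hi'
      refine hi'.1.trans_le ?_
      have h1 := h0 P p σ E
      have h2 : p ≤ 2 ^ (p * σ) := by
        calc p ≤ 2 ^ p := Nat.lt_two_pow_self.le
          _ ≤ 2 ^ (p * σ) := Nat.pow_le_pow_right (by norm_num) (Nat.le_mul_of_pos_right _ hσ)
      have h3 : 2 ≤ 2 ^ (1 * σ) := two_le_pow hσ le_rfl
      have h4 : 1 ≤ 2 ^ (c0 * σ) := Nat.one_le_two_pow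
      calc ((ev P p σ E (ts 0)).1 + 1) * p ≤ (2 ^ (c0 * σ) * 2) * 2 ^ (p * σ) := by
            refine Nat.mul_le_mul ?_ h2
            omega
        _ ≤ (2 ^ (c0 * σ) * 2 ^ (1 * σ)) * 2 ^ (p * σ) := by gcongr
        _ = 2 ^ ((c0 + 1 + p) * σ) := by rw [← pow_add, ← pow_add]; congr 1; ring

end

end Pool.Agent.H23P
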