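import Pool.Agent.H23P.Model2

/-!
Upper bound: sets of reals defined in the model by `Σ^B_i` formulas are in `Sg (i+1)`.
-/

namespace Pool.Agent.H23P

open Set Filter FirstOrder FirstOrder.Language Pool.Agent.H23 Pool.Agent.H23L

noncomputable section

/-- Truth values are given by terms. -/
theorem exists_truth {φ : Fm} (hφ : IsSB0 φ) (T : ℕ → Tr) : ∃ W : Tr, ∀ (P : RelS) (p σ : ℕ)
    (E : ℕ × ℕ → Finset ℕ), ((ev P p σ E W).1 = 1 ↔
      SatN P (fun j => (ev P p σ E (T j)).1) (fun j => (ev P p σ E (T j)).2) φ) := by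
  obtain ⟨m, hm⟩ := sat_dep φ
  let ψ : Fm := .imp (.imp (.eq (.var m) .one) (.imp φ .bot)) .bot
  have hψ : IsSB0 ψ := .imp (.imp (.eq _ _) (.imp hφ .bot)) .bot
  obtain ⟨W, hW⟩ := exists_wit hψ m 0 T
  refine ⟨W, fun P p σ E => ?_⟩
  rw [hW]
  have hd : ∀ i, (SatN P (Function.update (fun j => (ev P p σ E (T j)).1) m i)
      (fun j => (ev P p σ E (T j)).2) ψ ↔ i = 1 ∧
      SatN P (fun j => (ev P p σ E (T j)).1) (fun j => (ev P p σ E (T j)).2) φ) := by
    intro i
    have h1 : SatN P (Function.update (fun j => (ev P p σ E (T j)).1) m i)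
        (fun j => (ev P p σ E (T j)).2) φ ↔
        SatN P (fun j => (ev P p σ E (T j)).1) (fun j => (ev P p σ E (T j)).2) φ := by
      refine hm (std P) _ _ _ _ (fun j hj => ?_) fun _ _ => rfl
      exact Function.update_of_ne (by omega) _ _
    simp only [ψ, satN_imp, satN_eq, satN_bot, valN_var, valN_one, Function.update_self]
    rw [h1]
    tauto
  simp only [hd]
  constructor
  · intro h
    have hex : ∃ i, i ≤ 2 ^ (0 * σ) ∧ (i = 1 ∧
        SatN P (fun j => (ev P p σ E (T j)).1) (fun j => (ev P p σ E (T j)).2) φ) := by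
      by_contra hcon
      rw [leastN_none hcon] at h
      omega
    exact hex.choose_spec.2.2
  · intro h
    exact leastN_eq (by simp) ⟨rfl, h⟩ (fun j hj hj1 => by omega)

variable {P : RelS} {p : ℕ} [Fact p.Prime] (D : (Y P p).Dat)

/-- Number parts of terms are locally constant. -/
theorem lc (t : Tr) : ∃ n, ∀ m, n ≤ 2 ^ m → ∀ A A', CCell n m A A' → ∀ s, m ≤ D.N s →
    (tv D t A s).1 = (tv D t A' s).1 := by
  obtain ⟨m0, rfl⟩ := Ten_surj t
  let k := max (m0 + 1) (nv (Ten m0))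
  refine ⟨2 ^ k, fun m hm A A' hA s hs => ?_⟩
  have hk : k ≤ m := (Nat.pow_le_pow_iff_right (by norm_num)).1 hm
  have hk2 : k ≤ 2 ^ k := Nat.lt_two_pow_self.le
  have hle : nv (Ten m0) ≤ 2 ^ k := (le_max_right _ _).trans hk2
  have hcc : CCell ((Y P p).df m0) m A A' :=
    ⟨fun i hi => hA.1 i (lt_of_lt_of_le hi hle), fun i hi j hj => hA.2.1 i (lt_of_lt_of_le hi hle) j
      (lt_of_lt_of_le hj hle), fun i hi j hj => hA.2.2 i (lt_of_lt_of_le hi hle) j
      (lt_of_lt_of_le hj hle)⟩
  exact D.lc m0 (n := m) (by omega) ((le_max_right (m0 + 1) _).trans hk) hs hcc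

/-- The set of sequences of reals defined by a formula and terms. -/
def SF (φ : Fm) (T : ℕ → Tr) : Set (ℕ → Cantor) :=
  {A | Sat (M D) (fun i => x1 D (T i) A) (fun i => x2 D (T i) A) φ}

theorem cellInv {φ : Fm} (hφ : IsSB0 φ) (T : ℕ → Tr) : ∃ n, CellInv n (SF D φ T) := by
  obtain ⟨W, hW⟩ := exists_truth hφ T
  obtain ⟨n, hn⟩ := lc D W
  refine ⟨n, fun m hm A A' hA => ?_⟩
  unfold SF
  rw [mem_ofPred_eq, mem_ofPred_eq, elem D hφ, elem D hφ]
  apply eventually_congr
  filter_upwards [hf_of_atTop (D.tend m)] with s hs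
  have h1 := hn m hm A A' hA s hs
  have h2 := hW P p (s + 1) (D.env A s)
  have h3 := hW P p (s + 1) (D.env A' s)
  unfold tv at h1
  rw [h1] at h2
  exact h2.symm.trans h3

theorem sgC_sb {φ : Fm} (hφ : IsSB0 φ) (T : ℕ → Tr) (n : ℕ) : SgC n (SF D φ T) := by
  obtain ⟨m, hm⟩ := cellInv D hφ T
  exact SgC.of_zero (fun g hg => hm.isFs hg) n

theorem sgC_sb_compl {φ : Fm} (hφ : IsSB0 φ) (T : ℕ → Tr) (n : ℕ) :
    SgC n (SF D φ T)ᶜ := by
  obtain ⟨m, hm⟩ := cellInv D hφ T
  exact SgC.of_zero (fun g hg => hm.compl.isFs hg) n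

theorem small_rep (x : (M D).N1) : ∃ (u : Tr) (l : List (List Bool)), x = x1 D u (dec l) := by
  obtain ⟨t, A, rfl⟩ := x1_surj D x
  obtain ⟨n, hn⟩ := lc D t
  obtain ⟨m, hm, hcc⟩ := (eventually_ccell n A).exists
  let l : List (List Bool) := (List.range n).map fun i => (List.range m).map (A i)
  have hl : ∀ i < n, ∀ k, dec l i k = if k < m then A i k else false := by
    intro i hi k
    have e1 : l.getD i [] = (List.range m).map (A i) := by
      simp [l, List.getD, hi]
    unfold dec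
    rw [e1]
    by_cases hk : k < m
    · simp [List.getD, hk]
    · simp [List.getD, hk]
  have hcell : CCell n m A (dec l) := by
    refine ⟨fun i hi => codeR_eq_of_agree fun k hk => ?_, hcc.2.1, fun i hi j hj he => ?_⟩
    · rw [hl i hi, if_pos hk]
    · funext k
      rw [hl i hi, hl j hj]
      by_cases hk : k < m
      · have := agree_of_codeR_eq he k hk
        rw [hl i hi, hl j hj, if_pos hk, if_pos hk] at this
        rw [if_pos hk, if_pos hk, this]
      · rw [if_neg hk, if_neg hk]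
  refine ⟨t, l, (x1_eq D).2 ?_⟩
  filter_upwards [hf_of_atTop (D.tend m)] with s hs
  exact hn m hm A (dec l) hcell s hs

/-- even and odd real variables. -/
def evT (t : Tr) : Tr := rel (fun i => 2 * i) t
def odT (t : Tr) : Tr := rel (fun i => 2 * i + 1) t

theorem x1_evT (t : Tr) (A B : ℕ → Cantor) : x1 D (evT t) (ilv A B) = x1 D t A := by
  unfold evT; rw [x1_rel D, ilv_even]
theorem x2_evT (t : Tr) (A B : ℕ → Cantor) : x2 D (evT t) (ilv A B) = x2 D t A := by
  unfold evT; rw [x2_rel D, ilv_even]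
theorem x1_odT (t : Tr) (A B : ℕ → Cantor) : x1 D (odT t) (ilv A B) = x1 D t B := by
  unfold odT; rw [x1_rel D, ilv_odd]
theorem x2_odT (t : Tr) (A B : ℕ → Cantor) : x2 D (odT t) (ilv A B) = x2 D t B := by
  unfold odT; rw [x2_rel D, ilv_odd]

/-- Replacing the number (resp. string) with index `k`. -/
def updN (T : ℕ → Tr) (k : ℕ) (u : Tr) : ℕ → Tr := fun i =>
  if i = k then prT (odT u) (evT (T i)) else evT (T i)
def updS (T : ℕ → Tr) (k : ℕ) (u : Tr) : ℕ → Tr := fun i =>
  if i = k then prT (evT (T i)) (odT u) else evT (T i)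

theorem x1_updN (T : ℕ → Tr) (k : ℕ) (u : Tr) (A B : ℕ → Cantor) :
    (fun i => x1 D (updN T k u i) (ilv A B)) =
      Function.update (fun i => x1 D (T i) A) k (x1 D u B) := by
  funext i
  unfold updN
  by_cases h : i = k
  · subst h; simp [x1_odT D]
  · simp [h, x1_evT D]
theorem x2_updN (T : ℕ → Tr) (k : ℕ) (u : Tr) (A B : ℕ → Cantor) :
    (fun i => x2 D (updN T k u i) (ilv A B)) = fun i => x2 D (T i) A := by
  funext i
  unfold updN
  by_cases h : i = k
  · subst h; simp [x2_evT D]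
  · simp [h, x2_evT D]
theorem x1_updS (T : ℕ → Tr) (k : ℕ) (u : Tr) (A B : ℕ → Cantor) :
    (fun i => x1 D (updS T k u i) (ilv A B)) = fun i => x1 D (T i) A := by
  funext i
  unfold updS
  by_cases h : i = k
  · subst h; simp [x1_evT D]
  · simp [h, x1_evT D]
theorem x2_updS (T : ℕ → Tr) (k : ℕ) (u : Tr) (A B : ℕ → Cantor) :
    (fun i => x2 D (updS T k u i) (ilv A B)) =
      Function.update (fun i => x2 D (T i) A) k (x2 D u B) := by
  funext i
  unfold updS
  by_cases h : i = k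
  · subst h; simp [x2_odT D]
  · simp [h, x2_evT D]

theorem mem_SF_updN (φ : Fm) (T : ℕ → Tr) (k : ℕ) (u : Tr) (A B : ℕ → Cantor) :
    ilv A B ∈ SF D φ (updN T k u) ↔
      Sat (M D) (Function.update (fun i => x1 D (T i) A) k (x1 D u B)) (fun i => x2 D (T i) A) φ := by
  unfold SF
  rw [mem_ofPred_eq, x1_updN D, x2_updN D]
theorem mem_SF_updS (φ : Fm) (T : ℕ → Tr) (k : ℕ) (u : Tr) (A B : ℕ → Cantor) :
    ilv A B ∈ SF D φ (updS T k u) ↔
      Sat (M D) (fun i => x1 D (T i) A) (Function.update (fun i => x2 D (T i) A) k (x2 D u B)) φ := by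
  unfold SF
  rw [mem_ofPred_eq, x1_updS D, x2_updS D]

theorem mem_guardN (t : NTm) {m : ℕ} (hm : ∀ (M : Two) (v v' : ℕ → M.N1) (w w' : ℕ → M.N2),
    (∀ i < m, v i = v' i) → (∀ i < m, w i = w' i) → t.val M v w = t.val M v' w')
    (T : ℕ → Tr) (u : Tr) (A B : ℕ → Cantor) :
    ilv A B ∈ SF D (.le (.var m) t) (updN T m u) ↔
      (M D).le (x1 D u B) (t.val (M D) (fun i => x1 D (T i) A) (fun i => x2 D (T i) A)) := by
  rw [mem_SF_updN D]
  simp only [Sat, NTm.val, Function.update_self]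
  rw [hm (M D) _ (fun i => x1 D (T i) A) _ (fun i => x2 D (T i) A)
    (fun i hi => Function.update_of_ne (by omega) _ _) (fun _ _ => rfl)]

theorem mem_guardS (t : NTm) {m : ℕ} (hm : ∀ (M : Two) (v v' : ℕ → M.N1) (w w' : ℕ → M.N2),
    (∀ i < m, v i = v' i) → (∀ i < m, w i = w' i) → t.val M v w = t.val M v' w')
    (T : ℕ → Tr) (u : Tr) (A B : ℕ → Cantor) :
    ilv A B ∈ SF D (.le (.len m) t) (updS T m u) ↔
      (M D).le ((M D).len (x2 D u B))
        (t.val (M D) (fun i => x1 D (T i) A) (fun i => x2 D (T i) A)) := by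
  rw [mem_SF_updS D]
  simp only [Sat, NTm.val, Function.update_self]
  rw [hm (M D) _ (fun i => x1 D (T i) A) _ (fun i => x2 D (T i) A) (fun _ _ => rfl)
    (fun i hi => Function.update_of_ne (by omega) _ _)]

theorem SF_compl_allS (k : ℕ) (t : NTm) (φ : Fm) (T : ℕ → Tr) {m : ℕ}
    (hm : ∀ (M : Two) (v v' : ℕ → M.N1) (w w' : ℕ → M.N2),
    (∀ i < m, v i = v' i) → (∀ i < m, w i = w' i) → t.val M v w = t.val M v' w') :
    (SF D (.allS k t φ) T)ᶜ = ⋃ u : Tr, {A | ∃ B, ilv A B ∈
      SF D (.le (.len m) t) (updS T m u) ∩ (SF D φ (updS T k u))ᶜ} := by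
  ext A
  simp only [mem_compl_iff, mem_iUnion, mem_ofPred_eq, mem_inter_iff, mem_guardS D t hm,
    mem_SF_updS D]
  unfold SF
  rw [mem_ofPred_eq]
  simp only [Sat]
  push Not
  constructor
  · rintro ⟨X, hX1, hX2⟩
    obtain ⟨u, B, rfl⟩ := x2_surj D X
    exact ⟨u, B, hX1, hX2⟩
  · rintro ⟨u, B, h1, h2⟩
    exact ⟨_, h1, h2⟩

theorem SF_allN (k : ℕ) (t : NTm) (φ : Fm) (T : ℕ → Tr) {m : ℕ}
    (hm : ∀ (M : Two) (v v' : ℕ → M.N1) (w w' : ℕ → M.N2),
    (∀ i < m, v i = v' i) → (∀ i < m, w i = w' i) → t.val M v w = t.val M v' w') :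
    SF D (.allN k t φ) T = ⋂ q : Tr × List (List Bool), (fun A => ilv A (dec q.2)) ⁻¹'
      ((SF D (.le (.var m) t) (updN T m q.1))ᶜ ∪ SF D φ (updN T k q.1)) := by
  ext A
  simp only [mem_iInter, mem_preimage, mem_union, mem_compl_iff, mem_guardN D t hm,
    mem_SF_updN D]
  unfold SF
  rw [mem_ofPred_eq]
  simp only [Sat]
  constructor
  · intro h q
    by_cases h1 : (M D).le (x1 D q.1 (dec q.2))
      (t.val (M D) (fun i => x1 D (T i) A) (fun i => x2 D (T i) A))
    · exact Or.inr (h _ h1)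
    · exact Or.inl h1
  · intro h a ha
    obtain ⟨u, l, rfl⟩ := small_rep D a
    rcases h (u, l) with h1 | h1
    · exact absurd ha h1
    · exact h1

theorem upper {b : Bool} {i : ℕ} {φ : Fm} (h : IsSP b i φ) (T : ℕ → Tr) :
    PC b (i + 1) (SF D φ T) := by
  induction h generalizing T with
  | @base b i φ hφ =>
    cases b with
    | true => exact sgC_sb D hφ T _
    | false => exact sgC_sb_compl D hφ T _
  | @up b c i φ _ ih =>
    have := ih T
    cases b <;> cases c
    · exact SgC.succ this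
    · have h2 := SgC.compl this
      rw [compl_compl] at h2
      exact h2
    · exact SgC.compl this
    · exact SgC.succ this
  | @imp b i φ ψ _ _ ih1 ih2 =>
    have h1 := ih1 T
    have h2 := ih2 T
    have e : SF D (φ.imp ψ) T = (SF D φ T)ᶜ ∪ SF D ψ T := by
      ext A
      simp only [SF, mem_ofPred_eq, mem_union, mem_compl_iff, Sat]
      tauto
    cases b with
    | true =>
      change SgC (i + 1) _
      rw [e]
      exact SgC.union h1 h2
    | false =>
      change SgC (i + 1) _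
      rw [e, compl_union, compl_compl]
      exact SgC.inter h1 h2
  | @allN b i k t φ _ ih =>
    obtain ⟨m, hm⟩ := val_dep t
    cases b with
    | true =>
      change SgC (i + 1) _
      rw [SF_allN D k t φ T hm]
      refine SgC.iInter _ fun q => SgC.comap (SgC.union ?_ ?_)
        (continuous_ilv continuous_id continuous_const)
      · exact sgC_sb_compl D (.le _ _) _ _
      · exact ih _
    | false =>
      change SgC (i + 1) _
      rw [SF_allN D k t φ T hm, compl_iInter]
      refine SgC.iUnion _ fun q => ?_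
      rw [← preimage_compl, compl_union, compl_compl]
      refine SgC.comap (SgC.inter ?_ ?_) (continuous_ilv continuous_id continuous_const)
      · exact sgC_sb D (.le _ _) _ _
      · exact ih _
  | @allS i k t φ _ ih =>
    obtain ⟨m, hm⟩ := val_dep t
    change SgC (i + 1 + 1) _
    rw [SF_compl_allS D k t φ T hm]
    refine SgC.iUnion _ fun u => SgC.proj (SgC.inter ?_ ?_)
    · exact sgC_sb D (.le _ _) _ _
    · exact ih _

end

end Pool.Agent.H23P
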